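import Pool.Agent.J4H84.TH.Rep

/-!
# The prime ideal of the `d`-acyclic modules

`d` is a skew-primitive element, `Δ d = d ⊗ 1 + c ⊗ d`, `d ^ 2 = 0`, `c` is an involution with
`c d = - d c`, and `A` itself is `d`-contractible.
-/

namespace Pool.Agent.J4H84.TH

open TensorProduct

universe u v

section
variable {k : Type u} [Field k] {V : Type*} [AddCommGroup V] [Module k V]

/-- An acyclic differential on a vector space is contractible. -/
theorem exists_homotopy (x : V →ₗ[k] V) (hx : ∀ v, x (x v) = 0)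
    (h : ∀ v, x v = 0 → ∃ w, v = x w) :
    ∃ s : V →ₗ[k] V, ∀ v, x (s v) + s (x v) = v := by
  obtain ⟨t0, ht0⟩ := x.rangeRestrict.exists_rightInverse_of_surjective
    (LinearMap.range_rangeRestrict x)
  obtain ⟨t, ht⟩ := LinearMap.exists_extend t0
  have key : ∀ v, x (t (x v)) = x v := by
    intro v
    have h1 : t (x v) = t0 ⟨x v, v, rfl⟩ := by
      rw [← ht]; rfl
    have h2 := congrArg (fun f => (f ⟨x v, v, rfl⟩ : LinearMap.range x).1) ht0
    rw [h1]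
    exact h2
  refine ⟨t ∘ₗ (LinearMap.id - t ∘ₗ x), fun v => ?_⟩
  have h1 : x (v - t (x v)) = 0 := by rw [map_sub, key, sub_self]
  obtain ⟨w, hw⟩ := h _ h1
  have h2 : x (t (v - t (x v))) = v - t (x v) := by rw [hw, key]
  simp only [LinearMap.comp_apply, LinearMap.sub_apply, LinearMap.id_apply]
  rw [h2, hx, map_zero, sub_zero]
  abel

/-- A linear functional which kills the range of `x` and not `v`. -/
theorem exists_functional (x : V →ₗ[k] V) (v : V) (h : ¬ ∃ w, v = x w) :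
    ∃ φ : V →ₗ[k] k, (∀ w, φ (x w) = 0) ∧ φ v ≠ 0 := by
  have hv : v ∉ LinearMap.range x := by
    rintro ⟨w, hw⟩
    exact h ⟨w, hw.symm⟩
  obtain ⟨f, hf, hf2⟩ := Submodule.exists_le_ker_of_notMem hv
  exact ⟨f, fun w => hf2 ⟨w, rfl⟩, hf⟩

end

variable {k : Type u} {A : Type v} [Field k] [Ring A] [Bialgebra k A]

/-- The data for the acyclicity ideal. -/
structure Diff (k : Type u) (A : Type v) [Field k] [Ring A] [Bialgebra k A] where
  d : A
  c : A
  dd : d * d = 0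
  cc : c * c = 1
  cd : c * d = -(d * c)
  comd : Bialgebra.comulAlgHom k A d = d ⊗ₜ 1 + c ⊗ₜ d
  cod : Bialgebra.counitAlgHom k A d = 0
  s : A →ₗ[k] A
  hs : ∀ a, d * s a + s (d * a) = a

/-- The class of the `d`-acyclic representations. -/
def Diff.P (D : Diff k A) (M : FRep k A) : Prop :=
  ∀ v, M.ρ D.d v = 0 → ∃ w, v = M.ρ D.d w

variable (D : Diff k A)

theorem Diff.rr (M : FRep k A) (v : M.V) : M.ρ D.d (M.ρ D.d v) = 0 := by
  rw [← Module.End.mul_apply, ← map_mul, D.dd, map_zero, LinearMap.zero_apply]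

theorem Diff.of_homotopy (M : FRep k A) (s : M.V →ₗ[k] M.V)
    (h : ∀ v, M.ρ D.d (s v) + s (M.ρ D.d v) = v) : D.P M := by
  intro v hv
  refine ⟨s v, ?_⟩
  have := h v
  rw [hv, map_zero, add_zero] at this
  exact this.symm

theorem Diff.homotopy (M : FRep k A) (h : D.P M) :
    ∃ s : M.V →ₗ[k] M.V, ∀ v, M.ρ D.d (s v) + s (M.ρ D.d v) = v :=
  exists_homotopy (M.ρ D.d) (D.rr M) h

theorem Diff.P_summand (M N : FRep k A) (h : IsSummand M N) (hN : D.P N) : D.P M := by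
  obtain ⟨i, r, hi, hr, hir⟩ := h
  intro v hv
  obtain ⟨w, hw⟩ := hN (i v) (by rw [← hi, hv, map_zero])
  exact ⟨r w, by rw [← hr, ← hw, hir]⟩

theorem Diff.P_proj (M : FRep k A) (h : IsProj M) : D.P M := by
  obtain ⟨n, i, r, hi, hr, hir⟩ := h
  intro v hv
  refine ⟨r (fun j => D.s (i v j)), ?_⟩
  rw [← hr]
  have h0 : ∀ j, D.d * i v j = 0 := by
    intro j
    have := congrFun (hi D.d v) j
    rw [hv, map_zero] at this
    exact this.symm
  have h1 : (fun j => D.d * D.s (i v j)) = i v := by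
    funext j
    have := D.hs (i v j)
    rwa [h0, map_zero, add_zero] at this
  rw [h1, hir]

theorem Diff.P_ext₂ (M₁ M₂ M₃ : FRep k A) (h : IsExt M₁ M₂ M₃) (h1 : D.P M₁) (h3 : D.P M₃) :
    D.P M₂ := by
  obtain ⟨f, g, hf, hg, hfi, hgs, hex⟩ := h
  intro v hv
  obtain ⟨w3, hw3⟩ := h3 (g v) (by rw [← hg, hv, map_zero])
  obtain ⟨w2, rfl⟩ := hgs w3
  obtain ⟨u, hu⟩ := (hex (v - M₂.ρ D.d w2)).1 (by rw [map_sub, hg, hw3, sub_self])
  obtain ⟨u', hu'⟩ := h1 u (by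
    apply hfi
    rw [hf, hu, map_sub, hv, D.rr, sub_zero, map_zero])
  refine ⟨w2 + f u', ?_⟩
  rw [map_add, ← hf, ← hu', hu]
  abel

theorem Diff.P_ext₃ (M₁ M₂ M₃ : FRep k A) (h : IsExt M₁ M₂ M₃) (h1 : D.P M₁) (h2 : D.P M₂) :
    D.P M₃ := by
  obtain ⟨f, g, hf, hg, hfi, hgs, hex⟩ := h
  intro v hv
  obtain ⟨v2, rfl⟩ := hgs v
  obtain ⟨u, hu⟩ := (hex (M₂.ρ D.d v2)).1 (by rw [hg, hv])
  obtain ⟨u', hu'⟩ := h1 u (by
    apply hfi
    rw [hf, hu, D.rr, map_zero])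
  obtain ⟨w, hw⟩ := h2 (v2 - f u') (by rw [map_sub, ← hu, ← hf, ← hu', sub_self])
  refine ⟨g w, ?_⟩
  rw [← hg, ← hw, map_sub, (hex (f u')).2 ⟨u', rfl⟩, sub_zero]

theorem Diff.P_ext₁ (M₁ M₂ M₃ : FRep k A) (h : IsExt M₁ M₂ M₃) (h2 : D.P M₂) (h3 : D.P M₃) :
    D.P M₁ := by
  obtain ⟨f, g, hf, hg, hfi, hgs, hex⟩ := h
  intro u hu
  obtain ⟨w2, hw2⟩ := h2 (f u) (by rw [← hf, hu, map_zero])
  obtain ⟨w3, hw3⟩ := h3 (g w2) (by rw [← hg, ← hw2, (hex (f u)).2 ⟨u, rfl⟩])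
  obtain ⟨w2', rfl⟩ := hgs w3
  obtain ⟨u', hu'⟩ := (hex (w2 - M₂.ρ D.d w2')).1 (by rw [map_sub, hg, ← hw3, sub_self])
  refine ⟨u', hfi ?_⟩
  rw [hf, hu', map_sub, D.rr, sub_zero, ← hw2]

theorem tensAct_eq (M N : FRep k A) (a : A) :
    tensAct M N a = Module.endTensorEndAlgHom (R := k) (S := k) (A := k) (M := M.V) (N := N.V)
      (Algebra.TensorProduct.map M.ρ N.ρ (Bialgebra.comulAlgHom k A a)) := rfl

theorem Diff.tens_apply (M N : FRep k A) (v : M.V) (w : N.V) :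
    tensAct M N D.d (v ⊗ₜ[k] w) = (M.ρ D.d v) ⊗ₜ w + (M.ρ D.c v) ⊗ₜ (N.ρ D.d w) := by
  rw [tensAct_eq, D.comd, map_add, map_add, Algebra.TensorProduct.map_tmul,
    Algebra.TensorProduct.map_tmul, map_one]
  rfl

theorem Diff.ccv (M : FRep k A) (v : M.V) : M.ρ D.c (M.ρ D.c v) = v := by
  rw [← Module.End.mul_apply, ← map_mul, D.cc, map_one, Module.End.one_apply]

theorem Diff.cdv (M : FRep k A) (v : M.V) : M.ρ D.c (M.ρ D.d v) = - M.ρ D.d (M.ρ D.c v) := by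
  rw [← Module.End.mul_apply, ← Module.End.mul_apply, ← map_mul, ← map_mul, D.cd, map_neg,
    LinearMap.neg_apply]

theorem Diff.tens_of_homotopy (M N : FRep k A) (s : M.V ⊗[k] N.V →ₗ[k] M.V ⊗[k] N.V)
    (h : ∀ v w, tensAct M N D.d (s (v ⊗ₜ w)) + s (tensAct M N D.d (v ⊗ₜ w)) = v ⊗ₜ w) :
    D.P (M.tens N) := by
  refine D.of_homotopy (M.tens N) s fun z => ?_
  have : tensAct M N D.d ∘ₗ s + s ∘ₗ tensAct M N D.d = LinearMap.id :=
    TensorProduct.ext' fun v w => h v w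
  exact congrArg (fun f => f z) this

theorem Diff.P_right (h2 : (2 : k) ≠ 0) (M N : FRep k A) (h : D.P M) : D.P (M.tens N) := by
  obtain ⟨s, hs⟩ := D.homotopy M h
  obtain ⟨s', hs'⟩ : ∃ s' : M.V →ₗ[k] M.V, s' = (2⁻¹ : k) • (s - (M.ρ D.c) ∘ₗ s ∘ₗ (M.ρ D.c)) :=
    ⟨_, rfl⟩
  have h1 : ∀ v, M.ρ D.c (s' v) = - s' (M.ρ D.c v) := by
    intro v
    simp only [hs', LinearMap.smul_apply, LinearMap.sub_apply, LinearMap.comp_apply, map_smul,
      map_sub, D.ccv, ← smul_neg]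
    congr 1
    abel
  have h3 : ∀ v, M.ρ D.d (s' v) + s' (M.ρ D.d v) = v := by
    intro v
    have e1 := hs v
    have e2 := congrArg (M.ρ D.c) (hs (M.ρ D.c v))
    rw [map_add, D.ccv] at e2
    have e3 : M.ρ D.c (M.ρ D.d (s (M.ρ D.c v))) = - M.ρ D.d (M.ρ D.c (s (M.ρ D.c v))) := D.cdv M _
    have e4 : M.ρ D.d (M.ρ D.c v) = - M.ρ D.c (M.ρ D.d v) := by rw [D.cdv, neg_neg]
    rw [e3, e4, map_neg, map_neg] at e2
    simp only [hs', LinearMap.smul_apply, LinearMap.sub_apply, LinearMap.comp_apply, map_smul,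
      map_sub, ← smul_add]
    have e5 : (M.ρ D.d) (s v) - (M.ρ D.d) ((M.ρ D.c) (s ((M.ρ D.c) v))) +
        (s ((M.ρ D.d) v) - (M.ρ D.c) (s ((M.ρ D.c) ((M.ρ D.d) v)))) = (2 : k) • v := by
      rw [two_smul]
      calc _ = ((M.ρ D.d) (s v) + s ((M.ρ D.d) v)) +
            (-(M.ρ D.d) ((M.ρ D.c) (s ((M.ρ D.c) v))) +
              -(M.ρ D.c) (s ((M.ρ D.c) ((M.ρ D.d) v)))) := by abel
        _ = v + v := by rw [e1, e2]
    rw [e5, smul_smul, inv_mul_cancel₀ h2, one_smul]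
  refine D.tens_of_homotopy M N (TensorProduct.map s' LinearMap.id) fun v w => ?_
  simp only [TensorProduct.map_tmul, LinearMap.id_apply, D.tens_apply, map_add, h1, neg_tmul]
  have := congrArg (· ⊗ₜ[k] w) (h3 v)
  simp only [add_tmul] at this
  rw [← this]
  abel

theorem Diff.P_left (M N : FRep k A) (h : D.P N) : D.P (M.tens N) := by
  obtain ⟨s, hs⟩ := D.homotopy N h
  refine D.tens_of_homotopy M N (TensorProduct.map (M.ρ D.c) s) fun v w => ?_
  simp only [TensorProduct.map_tmul, D.tens_apply, map_add, D.ccv, D.cdv, neg_tmul]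
  have := congrArg (v ⊗ₜ[k] ·) (hs w)
  simp only [tmul_add] at this
  rw [← this]
  abel

/-- The one-dimensional representation given by a character. -/
noncomputable def FRep.char (χ : A →ₐ[k] k) : FRep k A where
  V := k
  ρ := (Algebra.lsmul k k k).comp χ

theorem FRep.char_apply (χ : A →ₐ[k] k) (a : A) (c : k) : (FRep.char χ).ρ a c = χ a * c := rfl

theorem Diff.not_P_one : ¬ D.P (FRep.char (Bialgebra.counitAlgHom k A)) := by
  intro h
  have h' : ∀ v : k, (Bialgebra.counitAlgHom k A D.d) * v = 0 →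
      ∃ w : k, v = (Bialgebra.counitAlgHom k A D.d) * w := h
  obtain ⟨w, hw⟩ := h' 1 (by rw [D.cod, zero_mul])
  rw [D.cod, zero_mul] at hw
  exact one_ne_zero hw

theorem Diff.not_P_tens (M N : FRep k A) (hM : ¬ D.P M) (hN : ¬ D.P N) : ¬ D.P (M.tens N) := by
  simp only [Diff.P, not_forall] at hM hN
  obtain ⟨m, hm, hm2⟩ := hM
  obtain ⟨n, hn, hn2⟩ := hN
  obtain ⟨φ, hφ, hφm⟩ := exists_functional _ _ hm2
  obtain ⟨ψ, hψ, hψn⟩ := exists_functional _ _ hn2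
  intro h
  obtain ⟨w, hw⟩ := h (m ⊗ₜ[k] n) ((D.tens_apply M N m n).trans (by
    rw [hm, hn, zero_tmul, tmul_zero, add_zero]; rfl))
  have key : (LinearMap.mul' k k ∘ₗ TensorProduct.map φ ψ) ∘ₗ tensAct M N D.d = 0 := by
    refine TensorProduct.ext' fun v w => ?_
    simp only [LinearMap.comp_apply, D.tens_apply, map_add, TensorProduct.map_tmul, hφ, hψ,
      zero_tmul, tmul_zero, map_zero, add_zero, LinearMap.zero_apply]
  have h1 : (LinearMap.mul' k k ∘ₗ TensorProduct.map φ ψ) (m ⊗ₜ[k] n) = 0 :=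
    (congrArg _ hw).trans (congrArg (fun f => f w) key)
  simp only [LinearMap.comp_apply, TensorProduct.map_tmul, LinearMap.mul'_apply] at h1
  exact (mul_ne_zero hφm hψn) h1

/-- The `d`-acyclic representations form a prime ideal. -/
theorem Diff.prime (h2 : (2 : k) ≠ 0) : IsPrimeIdeal D.P where
  summand := D.P_summand
  proj := D.P_proj
  ext₁ := D.P_ext₁
  ext₂ := D.P_ext₂
  ext₃ := D.P_ext₃
  left := D.P_left
  right := D.P_right h2
  proper := ⟨_, D.not_P_one⟩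
  prime := by
    intro M N h
    by_contra hc
    rw [not_or] at hc
    exact D.not_P_tens _ _ (D.not_P_tens _ _ hc.1 D.not_P_one) hc.2 (h _)

end Pool.Agent.J4H84.TH
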