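import Mathlib

/-!
# The algebra `H` with the generators `x, y, g, h`

`g`, `h` are commuting involutions, `g x = - x g`, `h x = - x h`, `g y = y g`, `h y = - y h`,
`x ^ 2 = y ^ 2 = 0`, `(x y - y x) ^ 2 = 0`, that is `x y x y + y x y x = 0`.
-/

namespace Pool.Agent.J4H84.TH

universe u v

/-- The four generators. -/
inductive Gen : Type
  | x | y | g | h

open Gen in
/-- The defining relations of `H`. -/
inductive Rel (k : Type u) [Field k] : FreeAlgebra k Gen → FreeAlgebra k Gen → Prop
  | gg : Rel k (FreeAlgebra.ι k g * FreeAlgebra.ι k g) 1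
  | hh : Rel k (FreeAlgebra.ι k h * FreeAlgebra.ι k h) 1
  | gh : Rel k (FreeAlgebra.ι k g * FreeAlgebra.ι k h) (FreeAlgebra.ι k h * FreeAlgebra.ι k g)
  | gx : Rel k (FreeAlgebra.ι k g * FreeAlgebra.ι k x) (-(FreeAlgebra.ι k x * FreeAlgebra.ι k g))
  | hx : Rel k (FreeAlgebra.ι k h * FreeAlgebra.ι k x) (-(FreeAlgebra.ι k x * FreeAlgebra.ι k h))
  | gy : Rel k (FreeAlgebra.ι k g * FreeAlgebra.ι k y) (FreeAlgebra.ι k y * FreeAlgebra.ι k g)
  | hy : Rel k (FreeAlgebra.ι k h * FreeAlgebra.ι k y) (-(FreeAlgebra.ι k y * FreeAlgebra.ι k h))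
  | xx : Rel k (FreeAlgebra.ι k x * FreeAlgebra.ι k x) 0
  | yy : Rel k (FreeAlgebra.ι k y * FreeAlgebra.ι k y) 0
  | zz : Rel k (FreeAlgebra.ι k x * FreeAlgebra.ι k y * (FreeAlgebra.ι k x * FreeAlgebra.ι k y)
      + FreeAlgebra.ι k y * FreeAlgebra.ι k x * (FreeAlgebra.ι k y * FreeAlgebra.ι k x)) 0

/-- The algebra `H` with the generators `x, y, g, h` and the relations `Rel`. -/
def H (k : Type u) [Field k] : Type u := RingQuot (Rel k)

variable (k : Type u) [Field k]

noncomputable instance : Ring (H k) := inferInstanceAs (Ring (RingQuot (Rel k)))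
noncomputable instance : Algebra k (H k) := inferInstanceAs (Algebra k (RingQuot (Rel k)))

/-- The quotient map. -/
noncomputable def mkH : FreeAlgebra k Gen →ₐ[k] H k := RingQuot.mkAlgHom k (Rel k)

variable {k} in
theorem mkH_rel {a b : FreeAlgebra k Gen} (h : Rel k a b) : mkH k a = mkH k b :=
  RingQuot.mkAlgHom_rel k h

/-- The image of a generator in `H`. -/
noncomputable def gen (a : Gen) : H k := mkH k (FreeAlgebra.ι k a)

/-- The generator `x`. -/
noncomputable abbrev X : H k := gen k Gen.x
/-- The generator `y`. -/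
noncomputable abbrev Y : H k := gen k Gen.y
/-- The generator `g`. -/
noncomputable abbrev G : H k := gen k Gen.g
/-- The generator `h`. -/
noncomputable abbrev L : H k := gen k Gen.h

/-- Four elements of a ring which satisfy the relations of `H`. -/
structure Sys (A : Type v) [Ring A] where
  x : A
  y : A
  g : A
  l : A
  gg : g * g = 1
  ll : l * l = 1
  gl : g * l = l * g
  gx : g * x = -(x * g)
  lx : l * x = -(x * l)
  gy : g * y = y * g
  ly : l * y = -(y * l)
  xx : x * x = 0
  yy : y * y = 0
  zz : x * y * (x * y) + y * x * (y * x) = 0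

/-- The generators of `H` satisfy the relations. -/
noncomputable def sysH : Sys (H k) where
  x := X k
  y := Y k
  g := G k
  l := L k
  gg := by simpa only [X, Y, G, L, gen, map_mul, map_one, map_neg, map_add, map_zero] using mkH_rel (Rel.gg (k := k))
  ll := by simpa only [X, Y, G, L, gen, map_mul, map_one, map_neg, map_add, map_zero] using mkH_rel (Rel.hh (k := k))
  gl := by simpa only [X, Y, G, L, gen, map_mul, map_one, map_neg, map_add, map_zero] using mkH_rel (Rel.gh (k := k))
  gx := by simpa only [X, Y, G, L, gen, map_mul, map_one, map_neg, map_add, map_zero] using mkH_rel (Rel.gx (k := k))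
  lx := by simpa only [X, Y, G, L, gen, map_mul, map_one, map_neg, map_add, map_zero] using mkH_rel (Rel.hx (k := k))
  gy := by simpa only [X, Y, G, L, gen, map_mul, map_one, map_neg, map_add, map_zero] using mkH_rel (Rel.gy (k := k))
  ly := by simpa only [X, Y, G, L, gen, map_mul, map_one, map_neg, map_add, map_zero] using mkH_rel (Rel.hy (k := k))
  xx := by simpa only [X, Y, G, L, gen, map_mul, map_one, map_neg, map_add, map_zero] using mkH_rel (Rel.xx (k := k))
  yy := by simpa only [X, Y, G, L, gen, map_mul, map_one, map_neg, map_add, map_zero] using mkH_rel (Rel.yy (k := k))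
  zz := by simpa only [X, Y, G, L, gen, map_mul, map_one, map_neg, map_add, map_zero] using mkH_rel (Rel.zz (k := k))

variable {k}
variable {A : Type v} [Ring A] [Algebra k A]

/-- The values of the generators. -/
def Sys.val (S : Sys A) : Gen → A
  | .x => S.x
  | .y => S.y
  | .g => S.g
  | .h => S.l

/-- The algebra homomorphism from `H` given by a system. -/
noncomputable def lift (S : Sys A) : H k →ₐ[k] A :=
  RingQuot.liftAlgHom k ⟨FreeAlgebra.lift k S.val, by
    intro a b h
    cases h <;> simp [Sys.val, S.gg, S.ll, S.gl, S.gx, S.lx, S.gy, S.ly, S.xx, S.yy, S.zz]⟩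

@[simp] theorem lift_gen (S : Sys A) (a : Gen) : lift (k := k) S (gen k a) = S.val a := by
  unfold lift gen mkH
  refine (RingQuot.liftAlgHom_mkAlgHom_apply k _ _ _).trans ?_
  simp

theorem hom_ext {f f' : H k →ₐ[k] A} (hx : f (X k) = f' (X k)) (hy : f (Y k) = f' (Y k))
    (hg : f (G k) = f' (G k)) (hl : f (L k) = f' (L k)) : f = f' := by
  refine RingQuot.ringQuot_ext' k f f' ?_
  refine FreeAlgebra.hom_ext ?_
  funext a
  cases a <;> simp only [Function.comp] <;> assumption

/-- Induction on the elements of `H`. -/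
theorem ind {P : H k → Prop} (h1 : ∀ c : k, P (algebraMap k (H k) c)) (hg : ∀ a, P (gen k a))
    (hm : ∀ a b, P a → P b → P (a * b)) (ha : ∀ a b, P a → P b → P (a + b)) (a : H k) : P a := by
  have hs : Function.Surjective (mkH k) := RingQuot.mkAlgHom_surjective k (Rel k)
  obtain ⟨a, rfl⟩ := hs a
  induction a using FreeAlgebra.induction with
  | grade0 r => rw [AlgHom.commutes]; exact h1 r
  | grade1 a => exact hg a
  | mul a b ha hb => rw [map_mul]; exact hm _ _ ha hb
  | add a b h h' => rw [map_add]; exact ha _ _ h h'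

end Pool.Agent.J4H84.TH
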