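import Pool.Agent.J4H84.TH.Wd

/-!
# Jobs for the tameness of `H` (MP_868e2f_al), second list: DATA and TRI

`GMod.chain_F` and `GMod.chain_G` of `Wd.lean` are proved; `GMod.mem_R` is the relation form of `R`.
-/

namespace Pool.Agent.J4H84.TH

universe u

/-- A string or a band of length `n` in `M`, with multiplicity `r` and parameter matrix `T`:
`w m` is the letter between the positions `m` and `m + 1` (`2` is an arrow `a` from `m` to `m + 1`,
`0` is an arrow `b` from `m + 1` to `m`, `1` is the end of the word), `F` is a homomorphism of the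
string or band module to `M`, `G` a homomorphism from `M` to it. -/
structure WD {k V : Type u} [Field k] [AddCommGroup V] [Module k V] (M : GMod k V) (n r : ℕ)
    (T : Matrix (Fin r) (Fin r) k) where
  w : ℕ → Fin 3
  i0 : ZMod 4
  F : ℕ → (Fin r → k) →ₗ[k] V
  G : ℕ → V →ₗ[k] (Fin r → k)
  npos : 0 < n
  F2 : ∀ m, w m = 2 → ∀ q, M.a (F m q) = F (m + 1) q
  F0 : ∀ m, w m = 0 → ∀ q, F m q = M.b (F (m + 1) q)
  F1 : ∀ m, w m = 1 → ∀ q, M.a (F m q) = 0
  G2 : ∀ m, w m = 2 → ∀ v, G (m + 1) (M.a v) = G m v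
  G0 : ∀ m, w m = 0 → ∀ v, G m (M.b v) = G (m + 1) v
  G1 : ∀ m, w m = 1 → ∀ v, G m (M.b v) = 0
  Fπ : ∀ (m : ℕ) q, M.π (i0 + m) (F m q) = F m q
  Gπ : ∀ (m : ℕ) v, G m (M.π (i0 + m) v) = G m v
  inj : Function.Injective fun q => G 0 (F 0 q)
  w1 : ∀ m, w m = 1 → w (m + 1) = 1
  wn : ∀ m, m + 1 < n → w m ≠ 1
  dist : ∀ i j : ℕ, i < j → j < n → (i : ZMod 4) = j → ∃ m, w (i + m) ≠ w (j + m)
  str : w (n - 1) = 1 → (∀ q, M.b (F 0 q) = 0) ∧ ∀ v, G 0 (M.a v) = 0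
  band : w (n - 1) ≠ 1 → 4 ∣ n
  band2 : w (n - 1) = 2 → (∀ q, F n q = F 0 (T.mulVec q)) ∧ ∀ v, T.mulVec (G n v) = G 0 v
  band0 : w (n - 1) = 0 → (∀ q, F 0 q = F n (T.mulVec q)) ∧ ∀ v, G n v = T.mulVec (G 0 v)

/-- JOB DATA: every nonzero finite-dimensional `M` has string or band data.
By `S_WORD` there are two cases.
String (`i`, `C`, `v`): `n = |C| + 1`, `r = 0` (so `Fin 1 → k`), `μ` arbitrary, `w m = 2` or `0`
according to `C[m]` for `m < |C|`, `w m = 1` for `m ≥ |C|`; `F m = 0 = G m` for `m ≥ n`.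
`F`: `mem_R` gives `u ∈ ker a` with `(v, u) ∈ Rel C i`; `chain_F` with `α q = q 0 • v`,
`β q = q 0 • u`.  `G`: `φ : V → k` with `φ v = 1`, `φ = 0` on `R C i (b G) ⊔ range a`, replace `φ`
by `φ ∘ π i`; by `lin_ext` there is `β : V → k` with `β v' = φ u'` for `(u', v') ∈ Rel C i` and
`β (b v') = 0` (single-valued: if `b v' ∈ G` then it is in `b G`, so `u' ∈ R C i (b G)`); replace
`β` by `β ∘ π`; `chain_G`.  `dist`: the first `m` with `w (i + m) = 1` is `n - 1 - i`.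
Band (`j`, `n`, `u`): `B` = prefix of length `n`, `S = Rel B j ≤ G j × G j`;
`relApp (Rel B j) W = R B j (W ⊓ G j)`, so `relIter S m ⊥ = R (B^m) j ⊥`, `relIter S m ⊤ =
R (B^m) j (G j)` (`m ≥ 1`), `B^m` = prefix of length `n m`; `S_REL` gives `Q, A, f, g`.
`S_JORDAN` for `A₁ = A⁻¹` if `u (n-1) = true`, `A₁ = A` if `u (n-1) = false` gives `r, μ, fJ, gJ`;
`T = jord (r+1) μ` is injective, hence an automorphism of `Fin (r+1) → k`; put `A' = T⁻¹` or `T`
accordingly, `f' = f ∘ fJ`, `g' = gJ ∘ g ∘ π j`: `(f' (A' q), f' q) ∈ S`, `g' b = A' (g' a)` for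
`(b, a) ∈ S`, `g' ∘ f'` injective.  `chain_F` for `α = f' ∘ A'`, `β = f'` and `chain_G` for
`α = g'`, `β = A' ∘ g'`; `F m = Fc (m % n) ∘ A'^(-(m / n) - 1)`, `G m = A'^(m / n) ∘ Gc (m % n)`.
`dist`: if `u (i + m) = u (j + m)` for all `m` then `u` has the period `j - i`. -/
def S_DATA : Prop := ∀ (k V : Type u) [Field k] [IsAlgClosed k] [AddCommGroup V] [Module k V]
  [FiniteDimensional k V] [Nontrivial V] (M : GMod k V),
  ∃ (n r : ℕ) (μ : k), Nonempty (WD M n (r + 1) (jord (r + 1) μ))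

/-- JOB TRI: the composition `G ∘ F` is injective.
(1) If `w (i + m) = w (j + m)` for `m < N` and `w (i + N) < w (j + N)` then `G j (F i q) = 0`:
`w (i + m) ≠ 1` for `m < N` by `w1`; as long as the letters are equal,
`G j (F i q) = G (j + 1) (F (i + 1) q)`; then the cases `(0, 1)`, `(0, 2)`, `(1, 2)`.
(2) `G i (F i q) = G 0 (F 0 q)` for `i < n` by `wn`.
(3) `G j (F i q) = 0` if `i ≠ j` in `ℤ/4` (orthogonality of the projections).
(4) Let `X i : Lex (ℕ → Fin 3)` be `m ↦ w (i + m)`; if some `q i ≠ 0`, `i < n`, take one with `X i`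
maximal; for `j ≠ i` with `q j ≠ 0` either `i ≠ j` in `ℤ/4` or `X j < X i` (`dist`), so
`G i (F j (q j)) = 0`, and `G i (∑ F j (q j)) = G 0 (F 0 (q i)) ≠ 0`. -/
def S_TRI : Prop := ∀ (k V : Type u) [Field k] [AddCommGroup V] [Module k V]
  (M : GMod k V) (n r : ℕ) (T : Matrix (Fin r) (Fin r) k) (D : WD M n r T) (q : ℕ → Fin r → k),
  (∀ i < n, D.G i (∑ j ∈ Finset.range n, D.F j (q j)) = 0) → ∀ i < n, q i = 0

end Pool.Agent.J4H84.TH
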