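import Pool.Agent.J4H84.TH.Mat
import Pool.Agent.J4H84.TH.Jobs2

/-!
# The homomorphisms between a module and its string or band module
-/

namespace Pool.Agent.J4H84.TH

universe u

section
variable {R : Type u} [CommRing R] {n r : ℕ} (ε : Fin n → Fin 3) (T : Matrix (Fin r) (Fin r) R)

theorem wA_mulVec (w : Fin n × Fin r → R) (i : Fin n) :
    (fun s => (wA ε T).mulVec w (i, s)) =
      ∑ j, if ε j = 2 ∧ nx n j i then (tw T j).mulVec (fun t => w (j, t)) else 0 := by
  funext s
  rw [Finset.sum_apply]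
  simp only [Matrix.mulVec, dotProduct, Fintype.sum_prod_type, wA]
  refine Finset.sum_congr rfl fun j _ => ?_
  split_ifs
  · rfl
  · simp

theorem wB_mulVec (w : Fin n × Fin r → R) (i : Fin n) :
    (fun s => (wB ε T).mulVec w (i, s)) =
      ∑ j, if ε i = 0 ∧ nx n i j then (tw T i).mulVec (fun t => w (j, t)) else 0 := by
  funext s
  rw [Finset.sum_apply]
  simp only [Matrix.mulVec, dotProduct, Fintype.sum_prod_type, wB]
  refine Finset.sum_congr rfl fun j _ => ?_
  split_ifs
  · rfl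
  · simp

theorem wP_mulVec (i0 l : ZMod 4) (w : Fin n × Fin r → R) (i : Fin n) :
    (fun s => (wP R n r i0 l).mulVec w (i, s)) =
      if i0 + ((i : ℕ) : ZMod 4) = l then (fun t => w (i, t)) else 0 := by
  funext s
  rw [wP, Matrix.mulVec_diagonal]
  split_ifs <;> simp

theorem nx_fun {n : ℕ} {i j j' : Fin n} (h : nx n i j) (h' : nx n i j') : j = j' :=
  Fin.ext (h.1.trans h'.1.symm)

end

variable {k V : Type u} [Field k] [AddCommGroup V] [Module k V] {M : GMod k V} {n r : ℕ}
  {T : Matrix (Fin r) (Fin r) k} (D : WD M n r T)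

theorem WD.diag (m : ℕ) (h : ∀ i < m, D.w i ≠ 1) (q : Fin r → k) :
    D.G m (D.F m q) = D.G 0 (D.F 0 q) := by
  induction m with
  | zero => rfl
  | succ m ih =>
    rw [← ih fun i hi => h i (Nat.lt_succ_of_lt hi)]
    have h1 := h m (Nat.lt_succ_self m)
    have h2 : D.w m = 0 ∨ D.w m = 2 := by
      revert h1
      generalize D.w m = z
      revert z
      decide
    rcases h2 with h2 | h2
    · rw [D.F0 m h2, D.G0 m h2]
    · rw [← D.F2 m h2, D.G2 m h2]

theorem WD.T_inj (h : D.w (n - 1) ≠ 1) : Function.Injective T.mulVec := by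
  have hn := D.npos
  have h0 : ∀ i < n, D.w i ≠ 1 := by
    intro i hi
    rcases Nat.lt_or_ge (i + 1) n with h1 | h1
    · exact D.wn i h1
    · have : i = n - 1 := by omega
      rw [this]; exact h
  have h1 : ∀ q, D.G n (D.F n q) = D.G 0 (D.F 0 q) := D.diag n h0
  have h2 : D.w (n - 1) = 0 ∨ D.w (n - 1) = 2 := by
    revert h
    generalize D.w (n - 1) = z
    revert z
    decide
  rcases h2 with h2 | h2
  · have h3 : Function.Surjective T.mulVec := by
      have h4 : Function.Surjective (((D.G 0).comp (D.F 0) : (Fin r → k) →ₗ[k] (Fin r → k))) :=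
        LinearMap.surjective_of_injective D.inj
      intro q
      obtain ⟨p, hp⟩ := h4 q
      refine ⟨D.G 0 (D.F n p), ?_⟩
      rw [← (D.band0 h2).2, h1]
      exact hp
    exact (LinearMap.injective_iff_surjective (f := T.mulVecLin)).2 h3
  · intro p q hpq
    have h3 : D.F n p = D.F n q := by rw [(D.band2 h2).1, (D.band2 h2).1, hpq]
    apply D.inj
    change D.G 0 (D.F 0 p) = D.G 0 (D.F 0 q)
    rw [← h1, ← h1, h3]

theorem WD.step (i : Fin n) (h : D.w i ≠ 1) : ∃ j : Fin n, nx n i j ∧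
    Function.Injective (tw T i).mulVec ∧
    (D.w i = 2 → (∀ q, D.F (i + 1) q = D.F j ((tw T i).mulVec q)) ∧
      ∀ v, (tw T i).mulVec (D.G (i + 1) v) = D.G j v) ∧
    (D.w i = 0 → (∀ q, D.F j q = D.F (i + 1) ((tw T i).mulVec q)) ∧
      ∀ v, D.G (i + 1) v = (tw T i).mulVec (D.G j v)) := by
  have hi := i.2
  rcases Nat.lt_or_ge ((i : ℕ) + 1) n with h1 | h1
  · refine ⟨⟨i + 1, h1⟩, ⟨(Nat.mod_eq_of_lt h1).symm, by push_cast; rfl⟩, ?_⟩
    have h2 : tw T i = 1 := if_neg (by omega)
    rw [h2]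
    exact ⟨fun p q h => by simpa only [Matrix.one_mulVec] using h,
      fun _ => ⟨fun _ => by rw [Matrix.one_mulVec], fun _ => by rw [Matrix.one_mulVec]⟩,
      fun _ => ⟨fun _ => by rw [Matrix.one_mulVec], fun _ => by rw [Matrix.one_mulVec]⟩⟩
  · have h2 : (i : ℕ) + 1 = n := by omega
    have h3 : (i : ℕ) = n - 1 := by omega
    rw [h3] at h ⊢
    have h4 : tw T i = T := if_pos h2
    have h5 : n - 1 + 1 = n := by omega
    rw [h4, h5]
    obtain ⟨c, hc⟩ := D.band h
    refine ⟨⟨0, D.npos⟩, ⟨by rw [h2]; simp, ?_⟩, D.T_inj h, D.band2, D.band0⟩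
    have h6 : (((i : ℕ) + 1 : ℕ) : ZMod 4) = 0 := by
      rw [h2, hc]
      push_cast
      have : (4 : ZMod 4) = 0 := by decide
      rw [this, zero_mul]
    push_cast at h6
    rw [h6]
    simp

/-- Every position but the first one of a string has a predecessor. -/
theorem WD.pred (j : Fin n) : (∃ i : Fin n, nx n i j ∧ D.w i ≠ 1) ∨
    ((j : ℕ) = 0 ∧ D.w (n - 1) = 1) := by
  rcases Nat.eq_zero_or_pos (j : ℕ) with h | h
  · by_cases h1 : D.w (n - 1) = 1
    · exact Or.inr ⟨h, h1⟩
    · left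
      have hn := D.npos
      obtain ⟨j', hj', -⟩ := D.step ⟨n - 1, by omega⟩ h1
      obtain rfl : j = j' := by
        apply Fin.ext
        rw [h, hj'.1]
        have : n - 1 + 1 = n := by omega
        simp only [this, Nat.mod_self]
      exact ⟨_, hj', h1⟩
  · left
    have hj := j.2
    refine ⟨⟨j - 1, by omega⟩, ⟨?_, ?_⟩, D.wn _ (by simp only; omega)⟩
    · have : (j : ℕ) - 1 + 1 = j := by omega
      simp only [this]
      exact (Nat.mod_eq_of_lt hj).symm
    · have : (j : ℕ) - 1 + 1 = j := by omega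
      have h2 : (((j : ℕ) - 1 + 1 : ℕ) : ZMod 4) = (j : ℕ) := by rw [this]
      push_cast at h2
      simp only
      exact h2.symm

/-- The word as a function on the positions. -/
def WD.ε (i : Fin n) : Fin 3 := D.w i

/-- The homomorphism from the word module. -/
noncomputable def WD.f : (Fin n × Fin r → k) →ₗ[k] V :=
  ∑ i : Fin n, (D.F i).comp (LinearMap.funLeft k k fun s => (i, s))

theorem WD.f_apply (w : Fin n × Fin r → k) : D.f w = ∑ i : Fin n, D.F i fun s => w (i, s) := by
  rw [WD.f, LinearMap.sum_apply]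
  rfl

/-- The homomorphism to the word module. -/
noncomputable def WD.g : V →ₗ[k] (Fin n × Fin r → k) :=
  LinearMap.pi fun p => (LinearMap.proj p.2).comp (D.G p.1)

theorem WD.g_apply (v : V) (p : Fin n × Fin r) : D.g v p = D.G p.1 v p.2 := rfl

theorem WD.z3 (z : Fin 3) (h : z ≠ 2) : z = 0 ∨ z = 1 := by
  revert z; decide

theorem WD.z0 (z : Fin 3) (h : z ≠ 0) : z = 2 ∨ z = 1 := by
  revert z; decide

theorem WD.sum_nx {W : Type*} [AddCommMonoid W] (i j : Fin n) (h : nx n i j) (P : Prop)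
    [Decidable P] (X : Fin n → W) :
    (∑ j', if P ∧ nx n i j' then X j' else 0) = if P then X j else 0 := by
  by_cases hP : P
  · rw [if_pos hP, Finset.sum_eq_single j]
    · rw [if_pos ⟨hP, h⟩]
    · intro j' _ hj
      exact if_neg fun h' => hj (nx_fun h'.2 h)
    · intro h'; exact absurd (Finset.mem_univ _) h'
  · rw [if_neg hP]
    exact Finset.sum_eq_zero fun j' _ => if_neg fun h => hP h.1

theorem WD.sum_xn {W : Type*} [AddCommMonoid W] (i j : Fin n) (h : nx n i j) (P : Fin n → Prop)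
    [DecidablePred P] (X : Fin n → W) :
    (∑ i', if P i' ∧ nx n i' j then X i' else 0) = if P i then X i else 0 := by
  by_cases hP : P i
  · rw [if_pos hP, Finset.sum_eq_single i]
    · rw [if_pos ⟨hP, h⟩]
    · intro j' _ hj
      exact if_neg fun h' => hj (nx_inj h'.2 h)
    · intro h'; exact absurd (Finset.mem_univ _) h'
  · rw [if_neg hP]
    refine Finset.sum_eq_zero fun j' _ => if_neg fun h' => hP ?_
    rw [← nx_inj h'.2 h]
    exact h'.1

theorem WD.aF (j : Fin n) (q : Fin r → k) : M.a (D.F j q) =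
    ∑ i, if D.ε j = 2 ∧ nx n j i then D.F i ((tw T j).mulVec q) else 0 := by
  by_cases h : D.w j = 1
  · rw [D.F1 _ h]
    refine (Finset.sum_eq_zero fun i _ => if_neg fun h' => ?_).symm
    have := h'.1
    change D.w j = 2 at this
    rw [h] at this
    exact absurd this (by decide)
  · obtain ⟨i, hi, -, h2, -⟩ := D.step j h
    rw [WD.sum_nx j i hi]
    by_cases h3 : D.ε j = 2
    · rw [if_pos h3, D.F2 _ h3, (h2 h3).1]
    · rw [if_neg h3, D.F0 _ ((WD.z3 _ h3).resolve_right h), M.ab]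

theorem WD.bF (j : Fin n) (q : Fin r → k) : M.b (D.F j q) =
    ∑ i, if D.ε i = 0 ∧ nx n i j then D.F i ((tw T i).mulVec q) else 0 := by
  rcases D.pred j with ⟨i, hi, hw⟩ | ⟨h0, h1⟩
  · rw [WD.sum_xn i j hi]
    obtain ⟨j', hj', hinj, h2, h3⟩ := D.step i hw
    have := nx_fun hj' hi
    subst this
    by_cases h4 : D.ε i = 0
    · rw [if_pos h4, (h3 h4).1, D.F0 _ h4]
    · rw [if_neg h4]
      have h5 := (WD.z0 _ h4).resolve_right hw
      obtain ⟨p, rfl⟩ := (LinearMap.injective_iff_surjective (f := (tw T i).mulVecLin)).1 hinj q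
      change M.b (D.F j' ((tw T i).mulVec p)) = 0
      rw [← (h2 h5).1, ← D.F2 _ h5, M.ba]
  · have h2 : (∑ i, if D.ε i = 0 ∧ nx n i j then D.F i ((tw T i).mulVec q) else 0) = 0 := by
      refine Finset.sum_eq_zero fun i _ => if_neg fun h' => ?_
      have h3 := h'.2.1
      rw [h0] at h3
      have hi := i.2
      have h4 : (i : ℕ) = n - 1 := by
        by_contra hne
        rw [Nat.mod_eq_of_lt (by omega)] at h3
        omega
      have h5 : D.w i = 0 := h'.1
      rw [h4, h1] at h5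
      exact absurd h5 (by decide)
    rw [h2, h0]
    exact (D.str h1).1 q

theorem WD.Ga (j : Fin n) (v : V) : D.G j (M.a v) =
    ∑ i, if D.ε i = 2 ∧ nx n i j then (tw T i).mulVec (D.G i v) else 0 := by
  rcases D.pred j with ⟨i, hi, hw⟩ | ⟨h0, h1⟩
  · rw [WD.sum_xn i j hi]
    obtain ⟨j', hj', hinj, h2, h3⟩ := D.step i hw
    have := nx_fun hj' hi
    subst this
    by_cases h4 : D.ε i = 2
    · rw [if_pos h4, ← (h2 h4).2, D.G2 _ h4]
    · rw [if_neg h4]
      have h5 := (WD.z3 _ h4).resolve_right hw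
      apply hinj
      change (tw T i).mulVec _ = (tw T i).mulVec 0
      rw [← (h3 h5).2, ← D.G0 _ h5, M.ba, map_zero, Matrix.mulVec_zero]
  · have h2 : (∑ i, if D.ε i = 2 ∧ nx n i j then (tw T i).mulVec (D.G i v) else 0) = 0 := by
      refine Finset.sum_eq_zero fun i _ => if_neg fun h' => ?_
      have h3 := h'.2.1
      rw [h0] at h3
      have hi := i.2
      have h4 : (i : ℕ) = n - 1 := by
        by_contra hne
        rw [Nat.mod_eq_of_lt (by omega)] at h3
        omega
      have h5 : D.w i = 2 := h'.1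
      rw [h4, h1] at h5
      exact absurd h5 (by decide)
    rw [h2, h0]
    exact (D.str h1).2 v

theorem WD.Gb (i : Fin n) (v : V) : D.G i (M.b v) =
    ∑ j, if D.ε i = 0 ∧ nx n i j then (tw T i).mulVec (D.G j v) else 0 := by
  by_cases h : D.w i = 1
  · rw [D.G1 _ h]
    refine (Finset.sum_eq_zero fun j _ => if_neg fun h' => ?_).symm
    have := h'.1
    change D.w i = 0 at this
    rw [h] at this
    exact absurd this (by decide)
  · obtain ⟨j, hj, -, -, h2⟩ := D.step i h
    rw [WD.sum_nx i j hj]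
    by_cases h3 : D.ε i = 0
    · rw [if_pos h3, D.G0 _ h3, (h2 h3).2]
    · rw [if_neg h3, ← D.G2 _ ((WD.z0 _ h3).resolve_right h), M.ab, map_zero]

theorem WD.f_a (w : Fin n × Fin r → k) : D.f ((wA D.ε T).mulVec w) = M.a (D.f w) := by
  rw [D.f_apply, D.f_apply, map_sum]
  simp only [wA_mulVec, D.aF, map_sum]
  rw [Finset.sum_comm]
  refine Finset.sum_congr rfl fun j _ => Finset.sum_congr rfl fun i _ => ?_
  split_ifs <;> simp

theorem WD.f_b (w : Fin n × Fin r → k) : D.f ((wB D.ε T).mulVec w) = M.b (D.f w) := by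
  rw [D.f_apply, D.f_apply, map_sum]
  simp only [wB_mulVec, D.bF, map_sum]
  rw [Finset.sum_comm]
  refine Finset.sum_congr rfl fun j _ => Finset.sum_congr rfl fun i _ => ?_
  split_ifs <;> simp

theorem WD.g_a (v : V) : D.g (M.a v) = (wA D.ε T).mulVec (D.g v) := by
  funext p
  obtain ⟨i, s⟩ := p
  have := congrFun (wA_mulVec D.ε T (D.g v) i) s
  rw [this, D.g_apply, D.Ga]
  rfl

theorem WD.g_b (v : V) : D.g (M.b v) = (wB D.ε T).mulVec (D.g v) := by
  funext p
  obtain ⟨i, s⟩ := p
  have := congrFun (wB_mulVec D.ε T (D.g v) i) s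
  rw [this, D.g_apply, D.Gb]
  rfl

theorem WD.πF (l : ZMod 4) (m : ℕ) (q : Fin r → k) :
    M.π l (D.F m q) = if D.i0 + m = l then D.F m q else 0 := by
  split_ifs with h
  · rw [← h, D.Fπ]
  · rw [← D.Fπ m q]
    exact M.orth _ _ _ (Ne.symm h)

theorem WD.Gπ' (l : ZMod 4) (m : ℕ) (v : V) :
    D.G m (M.π l v) = if D.i0 + m = l then D.G m v else 0 := by
  split_ifs with h
  · rw [← h, D.Gπ]
  · rw [← D.Gπ m, M.orth _ _ _ h, map_zero]

theorem WD.f_π (l : ZMod 4) (w : Fin n × Fin r → k) :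
    D.f ((wP k n r D.i0 l).mulVec w) = M.π l (D.f w) := by
  rw [D.f_apply, D.f_apply, map_sum]
  refine Finset.sum_congr rfl fun i _ => ?_
  rw [wP_mulVec, D.πF]
  split_ifs
  · rfl
  · rw [map_zero]

theorem WD.g_π (l : ZMod 4) (v : V) : D.g (M.π l v) = (wP k n r D.i0 l).mulVec (D.g v) := by
  funext p
  obtain ⟨i, s⟩ := p
  have := congrFun (wP_mulVec D.i0 l (D.g v) i) s
  rw [this, D.g_apply, D.Gπ']
  split_ifs <;> rfl

end Pool.Agent.J4H84.TH
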