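import Pool.Agent.J4H84.TH.PX

/-!
# Some modules over `H`
-/

namespace Pool.Agent.J4H84.TH

set_option linter.unusedSimpArgs false

open TensorProduct

universe u v

section
variable {k : Type u} {A : Type v} [Field k] [Ring A] [Algebra k A]

/-- The quotient of a representation. -/
noncomputable def FRep.quot (M : FRep k A) (W : Submodule k M.V)
    (hW : ∀ a, ∀ v ∈ W, M.ρ a v ∈ W) : FRep k A where
  V := M.V ⧸ W
  ρ :=
    { toFun := fun a => W.mapQ W (M.ρ a) (fun v hv => hW a v hv)
      map_one' := by
        refine Submodule.linearMap_qext _ (LinearMap.ext fun v => ?_)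
        simp
      map_mul' := fun a b => by
        refine Submodule.linearMap_qext _ (LinearMap.ext fun v => ?_)
        simp
      map_zero' := by
        refine Submodule.linearMap_qext _ (LinearMap.ext fun v => ?_)
        simp
      map_add' := fun a b => by
        refine Submodule.linearMap_qext _ (LinearMap.ext fun v => ?_)
        simp
      commutes' := fun c => by
        refine Submodule.linearMap_qext _ (LinearMap.ext fun v => ?_)
        simp [Module.algebraMap_end_apply] }

/-- The direct sum of two representations. -/
noncomputable def FRep.sum (M N : FRep k A) : FRep k A where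
  V := M.V × N.V
  ρ :=
    { toFun := fun a => (M.ρ a).prodMap (N.ρ a)
      map_one' := by
        refine LinearMap.ext fun v => ?_
        simp
      map_mul' := fun a b => by
        refine LinearMap.ext fun v => ?_
        simp
      map_zero' := by
        refine LinearMap.ext fun v => ?_
        simp
      map_add' := fun a b => by
        refine LinearMap.ext fun v => ?_
        simp
      commutes' := fun c => by
        refine LinearMap.ext fun v => ?_
        simp [Module.algebraMap_end_apply]
        rfl }

theorem summand_sum (M N : FRep k A) : IsSummand M (M.sum N) :=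
  ⟨LinearMap.inl k M.V N.V, LinearMap.fst k M.V N.V, fun a v => by
    change (M.ρ a v, (0 : N.V)) = (M.ρ a v, N.ρ a 0)
    rw [map_zero], fun a v => rfl, fun v => rfl⟩

end

section
variable {k : Type u} [Field k]

/-- A map which commutes with the generators is equivariant. -/
theorem equi_of_gen {M N : FRep k (H k)} (f : M.V →ₗ[k] N.V)
    (h : ∀ a v, f (M.ρ (gen k a) v) = N.ρ (gen k a) (f v)) : Equi M N f := by
  intro a
  induction a using ind with
  | h1 c =>
    intro v
    rw [AlgHom.commutes, AlgHom.commutes, Module.algebraMap_end_apply,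
      Module.algebraMap_end_apply, map_smul]
  | hg a => exact h a
  | hm a b ha hb =>
    intro v
    rw [map_mul, map_mul, Module.End.mul_apply, Module.End.mul_apply, ha, hb]
  | ha a b ha hb =>
    intro v
    rw [map_add, map_add, LinearMap.add_apply, LinearMap.add_apply, map_add, ha, hb]

/-- A subspace which is stable under the generators is a submodule. -/
theorem stable_of_gen {M : FRep k (H k)} (W : Submodule k M.V)
    (h : ∀ a, ∀ v ∈ W, M.ρ (gen k a) v ∈ W) : ∀ a, ∀ v ∈ W, M.ρ a v ∈ W := by
  intro a
  induction a using ind with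
  | h1 c =>
    intro v hv
    rw [AlgHom.commutes, Module.algebraMap_end_apply]
    exact W.smul_mem _ hv
  | hg a => exact h a
  | hm a b ha hb =>
    intro v hv
    rw [map_mul, Module.End.mul_apply]
    exact ha _ (hb _ hv)
  | ha a b ha hb =>
    intro v hv
    rw [map_add, LinearMap.add_apply]
    exact W.add_mem (ha _ hv) (hb _ hv)

theorem tens_X (M N : FRep k (H k)) (v : M.V) (w : N.V) :
    tensAct M N (X k) (v ⊗ₜ[k] w) = (M.ρ (X k) v) ⊗ₜ w + (M.ρ (G k) v) ⊗ₜ (N.ρ (X k) w) := by
  have h : Bialgebra.comulAlgHom k (H k) (X k) = X k ⊗ₜ 1 + G k ⊗ₜ X k := comulH_X k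
  rw [tensAct_eq, h, map_add, map_add, Algebra.TensorProduct.map_tmul,
    Algebra.TensorProduct.map_tmul, map_one]
  rfl

theorem tens_Y (M N : FRep k (H k)) (v : M.V) (w : N.V) :
    tensAct M N (Y k) (v ⊗ₜ[k] w) = (M.ρ (Y k) v) ⊗ₜ w + (M.ρ (L k) v) ⊗ₜ (N.ρ (Y k) w) := by
  have h : Bialgebra.comulAlgHom k (H k) (Y k) = Y k ⊗ₜ 1 + L k ⊗ₜ Y k := comulH_Y k
  rw [tensAct_eq, h, map_add, map_add, Algebra.TensorProduct.map_tmul,
    Algebra.TensorProduct.map_tmul, map_one]
  rfl

theorem tens_G (M N : FRep k (H k)) (v : M.V) (w : N.V) :
    tensAct M N (G k) (v ⊗ₜ[k] w) = (M.ρ (G k) v) ⊗ₜ (N.ρ (G k) w) := by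
  have h : Bialgebra.comulAlgHom k (H k) (G k) = G k ⊗ₜ G k := comulH_G k
  rw [tensAct_eq, h, Algebra.TensorProduct.map_tmul]
  rfl

theorem tens_L (M N : FRep k (H k)) (v : M.V) (w : N.V) :
    tensAct M N (L k) (v ⊗ₜ[k] w) = (M.ρ (L k) v) ⊗ₜ (N.ρ (L k) w) := by
  have h : Bialgebra.comulAlgHom k (H k) (L k) = L k ⊗ₜ L k := comulH_L k
  rw [tensAct_eq, h, Algebra.TensorProduct.map_tmul]
  rfl

/-- The representation given by four operators. -/
noncomputable def ofSys {V : Type u} [AddCommGroup V] [Module k V] [FiniteDimensional k V]
    (S : Sys (Module.End k V)) : FRep k (H k) where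
  V := V
  ρ := lift S

variable (k)

/-- The operators of `E_X`. -/
noncomputable def sysEX : Sys (Module.End k (k × k)) where
  x := LinearMap.inr k k k ∘ₗ LinearMap.fst k k k
  y := 0
  g := LinearMap.id.prodMap (-LinearMap.id)
  l := LinearMap.id.prodMap (-LinearMap.id)
  gg := by refine LinearMap.ext fun v => ?_; simp
  ll := by refine LinearMap.ext fun v => ?_; simp
  gl := rfl
  gx := by refine LinearMap.ext fun v => ?_; simp
  lx := by refine LinearMap.ext fun v => ?_; simp
  gy := by simp
  ly := by simp
  xx := by refine LinearMap.ext fun v => ?_; simp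
  yy := by simp
  zz := by simp

/-- The operators of `E_Y`. -/
noncomputable def sysEY : Sys (Module.End k (k × k)) where
  x := 0
  y := LinearMap.inr k k k ∘ₗ LinearMap.fst k k k
  g := LinearMap.id
  l := LinearMap.id.prodMap (-LinearMap.id)
  gg := rfl
  ll := by refine LinearMap.ext fun v => ?_; simp
  gl := rfl
  gx := by simp
  lx := by simp
  gy := rfl
  ly := by refine LinearMap.ext fun v => ?_; simp
  xx := by simp
  yy := by refine LinearMap.ext fun v => ?_; simp
  zz := by simp

/-- The module `E_X`. -/
noncomputable def EX : FRep k (H k) := ofSys (sysEX k)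
/-- The module `E_Y`. -/
noncomputable def EY : FRep k (H k) := ofSys (sysEY k)

/-- The character `χ₂`: `g ↦ 1`, `h ↦ -1`. -/
def sysC : Sys k where
  x := 0
  y := 0
  g := 1
  l := -1
  gg := by simp
  ll := by simp
  gl := by simp
  gx := by simp
  lx := by simp
  gy := by simp
  ly := by simp
  xx := by simp
  yy := by simp
  zz := by simp

/-- The operators of the projective module of dimension `8`; the basis is
`1, x, yx, xyx, y, xy, yxy, xyxy` times a vector of weight `g ↦ -1`, `h ↦ 1`. -/
def sysP : Sys (Module.End k (Fin 8 → k)) where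
  x := { toFun := fun v => ![0, v 0, 0, v 2, 0, v 4, 0, v 6]
         map_add' := fun v w => by funext i; fin_cases i <;> simp
         map_smul' := fun c v => by funext i; fin_cases i <;> simp }
  y := { toFun := fun v => ![0, 0, v 1, 0, v 0, 0, v 5, -v 3]
         map_add' := fun v w => by funext i; fin_cases i <;> simp [add_comm]
         map_smul' := fun c v => by funext i; fin_cases i <;> simp }
  g := { toFun := fun v => ![-v 0, v 1, v 2, -v 3, -v 4, v 5, v 6, -v 7]
         map_add' := fun v w => by funext i; fin_cases i <;> simp [add_comm]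
         map_smul' := fun c v => by funext i; fin_cases i <;> simp }
  l := { toFun := fun v => ![v 0, -v 1, v 2, -v 3, -v 4, v 5, -v 6, v 7]
         map_add' := fun v w => by funext i; fin_cases i <;> simp [add_comm]
         map_smul' := fun c v => by funext i; fin_cases i <;> simp }
  gg := by refine LinearMap.ext fun v => funext fun i => ?_; fin_cases i <;> simp
  ll := by refine LinearMap.ext fun v => funext fun i => ?_; fin_cases i <;> simp
  gl := by refine LinearMap.ext fun v => funext fun i => ?_; fin_cases i <;> simp
  gx := by refine LinearMap.ext fun v => funext fun i => ?_; fin_cases i <;> simp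
  lx := by refine LinearMap.ext fun v => funext fun i => ?_; fin_cases i <;> simp
  gy := by refine LinearMap.ext fun v => funext fun i => ?_; fin_cases i <;> simp
  ly := by refine LinearMap.ext fun v => funext fun i => ?_; fin_cases i <;> simp
  xx := by refine LinearMap.ext fun v => funext fun i => ?_; fin_cases i <;> simp
  yy := by refine LinearMap.ext fun v => funext fun i => ?_; fin_cases i <;> simp
  zz := by refine LinearMap.ext fun v => funext fun i => ?_; fin_cases i <;> simp

end

end Pool.Agent.J4H84.TH
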