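import Pool.Agent.J4H84.TH.Rep

/-!
# Tame representation type (Drozd)
-/

namespace Pool.Agent.J4H84.TH

universe u v

section
variable {k : Type u} {A : Type v} [Field k] [Ring A] [Algebra k A]

/-- `M` and `N` are isomorphic. -/
def Iso (M N : FRep k A) : Prop :=
  ∃ e : M.V ≃ₗ[k] N.V, ∀ a v, e (M.ρ a v) = N.ρ a (e v)

/-- `M` is indecomposable: it is nonzero, and its only idempotent endomorphisms are `0` and
`1`. -/
def Indec (M : FRep k A) : Prop :=
  Nontrivial M.V ∧ ∀ e : M.V →ₗ[k] M.V, Equi M M e → (∀ v, e (e v) = e v) →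
    (∀ v, e v = 0) ∨ ∀ v, e v = v

/-- The member at `t` of the one-parameter family of representations given by the homomorphism
`φ : A → M_d(k[T])`. -/
noncomputable def famAt {d : ℕ} (φ : A →ₐ[k] Matrix (Fin d) (Fin d) (Polynomial k)) (t : k) :
    FRep k A where
  V := Fin d → k
  ρ := (Matrix.toLinAlgEquiv' (R := k)).toAlgHom.comp ((Polynomial.aeval t).mapMatrix.comp φ)

end

/-- `A` is of finite representation type: up to isomorphism there are only finitely many
indecomposable representations. -/
def RepFinite (k : Type u) (A : Type v) [Field k] [Ring A] [Algebra k A] : Prop :=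
  ∃ E : Set (FRep k A), E.Finite ∧ ∀ M : FRep k A, Indec M → ∃ N ∈ E, Iso M N

/-- `A` is of tame representation type: it is not of finite representation type and, for each `d`,
all but finitely many isomorphism classes of indecomposable representations of dimension `d` lie
in finitely many one-parameter families. -/
def IsTame (k : Type u) (A : Type v) [Field k] [Ring A] [Algebra k A] : Prop :=
  ¬ RepFinite k A ∧ ∀ d : ℕ, ∃ (F : Set (A →ₐ[k] Matrix (Fin d) (Fin d) (Polynomial k)))
    (E : Set (FRep k A)), F.Finite ∧ E.Finite ∧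
    ∀ M : FRep k A, Indec M → Module.finrank k M.V = d →
      (∃ φ ∈ F, ∃ t, Iso M (famAt φ t)) ∨ ∃ N ∈ E, Iso M N

end Pool.Agent.J4H84.TH
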