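import Pool.Agent.J4H84.TH.Asm
import Pool.Agent.J4H84.TH.Mods
import Pool.Agent.J4H84.TH.Tame

/-!
# Indecomposable modules over `H` are string or band modules
-/

namespace Pool.Agent.J4H84.TH

set_option linter.unusedSimpArgs false

universe u v

section
variable {B : Type v} [Ring B] (S : PSys B)

theorem PSys.x_eq : S.x = S.toG.a * (S.toG.π 0 + S.toG.π 2) + S.toG.b * (S.toG.π 1 + S.toG.π 3) := by
  have e1 : (1 : ZMod 4) ≠ 0 := by decide
  have e2 : (2 : ZMod 4) ≠ 0 := by decide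
  have e3 : (2 : ZMod 4) ≠ 1 := by decide
  have e4 : (3 : ZMod 4) ≠ 0 := by decide
  have e5 : (3 : ZMod 4) ≠ 1 := by decide
  have e6 : (3 : ZMod 4) ≠ 2 := by decide
  have h1 : S.P * S.E + S.Q * S.E = S.E := by rw [← add_mul, S.PQ1, one_mul]
  have h2 : S.Q * S.O + S.P * S.O = S.O := by rw [← add_mul, add_comm, S.PQ1, one_mul]
  simp only [PSys.toG, if_true, e1, e2, e3, e4, e5, e6, if_false, h1, h2]
  simp only [add_mul, mul_assoc, S.EE, S.OO, S.OE, S.EO, mul_zero, add_zero]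
  rw [← mul_add, S.EO1, mul_one]

theorem PSys.y_eq : S.y = S.toG.a * (S.toG.π 1 + S.toG.π 3) + S.toG.b * (S.toG.π 0 + S.toG.π 2) := by
  have e1 : (1 : ZMod 4) ≠ 0 := by decide
  have e2 : (2 : ZMod 4) ≠ 0 := by decide
  have e3 : (2 : ZMod 4) ≠ 1 := by decide
  have e4 : (3 : ZMod 4) ≠ 0 := by decide
  have e5 : (3 : ZMod 4) ≠ 1 := by decide
  have e6 : (3 : ZMod 4) ≠ 2 := by decide
  have h1 : S.P * S.E + S.Q * S.E = S.E := by rw [← add_mul, S.PQ1, one_mul]
  have h2 : S.Q * S.O + S.P * S.O = S.O := by rw [← add_mul, add_comm, S.PQ1, one_mul]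
  simp only [PSys.toG, if_true, e1, e2, e3, e4, e5, e6, if_false, h1, h2]
  simp only [add_mul, mul_assoc, S.EE, S.OO, S.OE, S.EO, mul_zero, zero_add]
  rw [← mul_add, add_comm, S.EO1, mul_one]

theorem PSys.g_eq : S.P - S.Q = S.toG.π 0 - S.toG.π 1 - S.toG.π 2 + S.toG.π 3 := by
  have e1 : (1 : ZMod 4) ≠ 0 := by decide
  have e2 : (2 : ZMod 4) ≠ 0 := by decide
  have e3 : (2 : ZMod 4) ≠ 1 := by decide
  have e4 : (3 : ZMod 4) ≠ 0 := by decide
  have e5 : (3 : ZMod 4) ≠ 1 := by decide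
  have e6 : (3 : ZMod 4) ≠ 2 := by decide
  simp only [PSys.toG, if_true, e1, e2, e3, e4, e5, e6, if_false]
  calc S.P - S.Q = (S.P - S.Q) * (S.E + S.O) := by rw [S.EO1, mul_one]
    _ = _ := by simp only [mul_add, sub_mul]; abel

theorem PSys.l_eq : S.E - S.O = S.toG.π 0 - S.toG.π 1 + S.toG.π 2 - S.toG.π 3 := by
  have e1 : (1 : ZMod 4) ≠ 0 := by decide
  have e2 : (2 : ZMod 4) ≠ 0 := by decide
  have e3 : (2 : ZMod 4) ≠ 1 := by decide
  have e4 : (3 : ZMod 4) ≠ 0 := by decide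
  have e5 : (3 : ZMod 4) ≠ 1 := by decide
  have e6 : (3 : ZMod 4) ≠ 2 := by decide
  simp only [PSys.toG, if_true, e1, e2, e3, e4, e5, e6, if_false]
  calc S.E - S.O = (S.P + S.Q) * (S.E - S.O) := by rw [S.PQ1, one_mul]
    _ = _ := by simp only [add_mul, mul_sub]; abel

theorem PSys.zz_eq : S.toG.a * (S.toG.a * (S.toG.a * S.toG.a)) +
    S.toG.b * (S.toG.b * (S.toG.b * S.toG.b)) = 0 := by
  have h1 : S.toG.a * S.toG.a = S.x * (S.y * S.O) + S.y * (S.x * S.E) := by
    simp only [PSys.toG, mul_add, add_mul, mul_assoc, S.Ex', S.Ox', S.Ey', S.Oy', S.EE, S.OO,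
      S.EO, S.OE, S.xx', S.yy', mul_zero, add_zero, zero_add]
    exact add_comm _ _
  have h2 : S.toG.b * S.toG.b = S.x * (S.y * S.E) + S.y * (S.x * S.O) := by
    simp only [PSys.toG, mul_add, add_mul, mul_assoc, S.Ex', S.Ox', S.Ey', S.Oy', S.EE, S.OO,
      S.EO, S.OE, S.xx', S.yy', mul_zero, add_zero, zero_add]
    exact add_comm _ _
  rw [← mul_assoc, ← mul_assoc S.toG.b, h1, h2]
  have h3 := congrArg (· * (S.O + S.E)) S.zz
  simp only [mul_add, add_mul, mul_assoc, zero_mul] at h3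
  simp only [mul_add, add_mul, mul_assoc, S.Ex', S.Ox', S.Ey', S.Oy', S.EE, S.OO, S.EO, S.OE,
    S.xx', S.yy', mul_zero, add_zero, zero_add]
  refine Eq.trans ?_ (h3.trans (add_zero _))
  abel

end

section
variable {k : Type u} [Field k]

/-- The image of the generators in a representation. -/
noncomputable def repSys (M : FRep k (H k)) : Sys (Module.End k M.V) where
  x := M.ρ (sysH k).x
  y := M.ρ (sysH k).y
  g := M.ρ (sysH k).g
  l := M.ρ (sysH k).l
  gg := by rw [← map_mul, (sysH k).gg, map_one]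
  ll := by rw [← map_mul, (sysH k).ll, map_one]
  gl := by rw [← map_mul, (sysH k).gl, map_mul]
  gx := by rw [← map_mul, (sysH k).gx, map_neg, map_mul]
  lx := by rw [← map_mul, (sysH k).lx, map_neg, map_mul]
  gy := by rw [← map_mul, (sysH k).gy, map_mul]
  ly := by rw [← map_mul, (sysH k).ly, map_neg, map_mul]
  xx := by rw [← map_mul, (sysH k).xx, map_zero]
  yy := by rw [← map_mul, (sysH k).yy, map_zero]
  zz := by
    simp only [← map_mul, ← map_add]
    rw [(sysH k).zz, map_zero]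

/-- The graded operators on a vector space. -/
def GAlg.toM {V : Type u} [AddCommGroup V] [Module k V] (S : GAlg (Module.End k V)) :
    GMod k V where
  a := S.a
  b := S.b
  π := S.π
  ab := fun v => congrArg (fun f => f v) S.ab
  ba := fun v => congrArg (fun f => f v) S.ba
  sum := fun v => by
    have h1 : (∑ i : ZMod 4, S.π i v) = S.π 0 v + S.π 1 v + S.π 2 v + S.π 3 v :=
      Fin.sum_univ_four (fun i : Fin 4 => S.π i v)
    rw [h1]
    exact congrArg (fun f => f v) S.sum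
  idem := fun i v => congrArg (fun f => f v) (S.idem i)
  orth := fun i j v h => congrArg (fun f => f v) (S.orth i j h)
  aπ := fun i v => congrArg (fun f => f v) (S.aπ i)
  bπ := fun i v => congrArg (fun f => f v) (S.bπ i)

/-- The graded operators of a representation of `H`. -/
noncomputable def gAlg (h2 : (2 : k) ≠ 0) (M : FRep k (H k)) : GAlg (Module.End k M.V) :=
  (repSys M).toG h2

theorem gAlg_x (h2 : (2 : k) ≠ 0) (M : FRep k (H k)) : M.ρ (X k) =
    (gAlg h2 M).a * ((gAlg h2 M).π 0 + (gAlg h2 M).π 2) +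
      (gAlg h2 M).b * ((gAlg h2 M).π 1 + (gAlg h2 M).π 3) :=
  ((repSys M).toP h2).x_eq

theorem gAlg_y (h2 : (2 : k) ≠ 0) (M : FRep k (H k)) : M.ρ (Y k) =
    (gAlg h2 M).a * ((gAlg h2 M).π 1 + (gAlg h2 M).π 3) +
      (gAlg h2 M).b * ((gAlg h2 M).π 0 + (gAlg h2 M).π 2) :=
  ((repSys M).toP h2).y_eq

theorem gAlg_g (h2 : (2 : k) ≠ 0) (M : FRep k (H k)) : M.ρ (G k) =
    (gAlg h2 M).π 0 - (gAlg h2 M).π 1 - (gAlg h2 M).π 2 + (gAlg h2 M).π 3 :=
  (hp_sub_hm h2 (repSys M).g).symm.trans ((repSys M).toP h2).g_eq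

theorem gAlg_l (h2 : (2 : k) ≠ 0) (M : FRep k (H k)) : M.ρ (L k) =
    (gAlg h2 M).π 0 - (gAlg h2 M).π 1 + (gAlg h2 M).π 2 - (gAlg h2 M).π 3 :=
  (hp_sub_hm h2 (repSys M).l).symm.trans ((repSys M).toP h2).l_eq

theorem gAlg_zz (h2 : (2 : k) ≠ 0) (M : FRep k (H k)) :
    (gAlg h2 M).a * ((gAlg h2 M).a * ((gAlg h2 M).a * (gAlg h2 M).a)) +
      (gAlg h2 M).b * ((gAlg h2 M).b * ((gAlg h2 M).b * (gAlg h2 M).b)) = 0 :=
  ((repSys M).toP h2).zz_eq

/-- The representation given by matrices. -/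
noncomputable def matRep {ι : Type} [Fintype ι] [DecidableEq ι] (S : Sys (Matrix ι ι k)) :
    FRep k (H k) where
  V := ι → k
  ρ := (Matrix.toLinAlgEquiv' (R := k)).toAlgHom.comp (lift S)

theorem matRep_gen {ι : Type} [Fintype ι] [DecidableEq ι] (S : Sys (Matrix ι ι k)) (a : Gen)
    (w : ι → k) : (matRep S).ρ (gen k a) w = (S.val a).mulVec w := by
  change (Matrix.toLinAlgEquiv' (R := k)) (lift S (gen k a)) w = _
  rw [lift_gen]
  rfl

variable {n r : ℕ}

/-- The relation `a ^ 4 + b ^ 4 = 0` for the word module. -/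
def ZZ {R : Type v} [CommRing R] {n r : ℕ} (ε : Fin n → Fin 3) (T : Matrix (Fin r) (Fin r) R) :
    Prop :=
  wA ε T * (wA ε T * (wA ε T * wA ε T)) + wB ε T * (wB ε T * (wB ε T * wB ε T)) = 0

/-- The representation of a word. -/
noncomputable def wordRep (ε : Fin n → Fin 3) (i0 : ZMod 4) (T : Matrix (Fin r) (Fin r) k)
    (hz : ZZ ε T) : FRep k (H k) :=
  matRep ((wG ε i0 T).toSys hz)

section
variable {h2 : (2 : k) ≠ 0} {M : FRep k (H k)} {T : Matrix (Fin r) (Fin r) k}
  (D : WD (gAlg h2 M).toM n r T)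

/-- A map which commutes with the graded operators commutes with the generators. -/
theorem comm_of_graded (e : M.V →ₗ[k] M.V) (ha : ∀ v, e ((gAlg h2 M).a v) = (gAlg h2 M).a (e v))
    (hb : ∀ v, e ((gAlg h2 M).b v) = (gAlg h2 M).b (e v))
    (hπ : ∀ i v, e ((gAlg h2 M).π i v) = (gAlg h2 M).π i (e v)) : Equi M M e := by
  refine equi_of_gen (M := M) (N := M) e ?_
  intro a v
  cases a
  · rw [gAlg_x h2 M]
    simp only [LinearMap.add_apply, Module.End.mul_apply, map_add, ha, hb, hπ]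
  · rw [gAlg_y h2 M]
    simp only [LinearMap.add_apply, Module.End.mul_apply, map_add, ha, hb, hπ]
  · rw [gAlg_g h2 M]
    simp only [LinearMap.add_apply, LinearMap.sub_apply, Module.End.mul_apply, map_add, map_sub,
      ha, hb, hπ]
  · rw [gAlg_l h2 M]
    simp only [LinearMap.add_apply, LinearMap.sub_apply, Module.End.mul_apply, map_add, map_sub,
      ha, hb, hπ]

theorem inj_gf (htri : S_TRI.{u}) : Function.Injective (D.g.comp D.f) := by
  rw [← LinearMap.ker_eq_bot, LinearMap.ker_eq_bot']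
  intro w hw
  have h := htri k M.V (gAlg h2 M).toM n r T D
    (fun j => if h : j < n then fun s => w (⟨j, h⟩, s) else 0) (by
      intro i hi
      rw [Finset.sum_range]
      have h1 : (∑ j : Fin n, D.F j (if h : (j : ℕ) < n then fun s => w (⟨j, h⟩, s) else 0)) =
          D.f w := by
        rw [D.f_apply]
        refine Finset.sum_congr rfl fun j _ => ?_
        rw [dif_pos j.2]
      rw [h1]
      funext s
      exact congrFun hw (⟨i, hi⟩, s))
  funext p
  obtain ⟨i, s⟩ := p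
  have h1 := h i i.2
  rw [dif_pos i.2] at h1
  exact congrFun h1 s

/-- The idempotent endomorphism. -/
theorem iso_word (htri : S_TRI.{u}) (hr : 0 < r) (hM : Indec M) :
    Function.Bijective D.f := by
  have hinj := inj_gf D htri
  have hinj' : Function.Injective D.f := by
    intro p q h
    apply hinj
    change D.g (D.f p) = D.g (D.f q)
    rw [h]
  let ψ : (Fin n × Fin r → k) ≃ₗ[k] (Fin n × Fin r → k) :=
    LinearEquiv.ofInjectiveEndo (D.g.comp D.f) hinj
  have hψ : ∀ w, ψ w = D.g (D.f w) := fun w => rfl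
  have hψs : ∀ (A : (Fin n × Fin r → k) → (Fin n × Fin r → k)),
      (∀ w, D.g (D.f (A w)) = A (D.g (D.f w))) → ∀ w, ψ.symm (A w) = A (ψ.symm w) := by
    intro A hA w
    rw [LinearEquiv.symm_apply_eq, hψ, hA, ← hψ, LinearEquiv.apply_symm_apply]
  let e : M.V →ₗ[k] M.V := D.f.comp (ψ.symm.toLinearMap.comp D.g)
  have he : ∀ v, e v = D.f (ψ.symm (D.g v)) := fun v => rfl
  have hee : ∀ v, e (e v) = e v := by
    intro v
    rw [he, he]
    congr 1
    rw [LinearEquiv.symm_apply_eq, hψ]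
  have hequi : Equi M M e := by
    refine comm_of_graded (h2 := h2) e ?_ ?_ ?_
    · intro v
      have h1 : D.g ((gAlg h2 M).a v) = _ := D.g_a v
      rw [he, h1, hψs (fun w => (wA D.ε T).mulVec w) (fun w => by rw [D.f_a, D.g_a]), D.f_a]
      rfl
    · intro v
      have h1 : D.g ((gAlg h2 M).b v) = _ := D.g_b v
      rw [he, h1, hψs (fun w => (wB D.ε T).mulVec w) (fun w => by rw [D.f_b, D.g_b]), D.f_b]
      rfl
    · intro i v
      have h1 : D.g ((gAlg h2 M).π i v) = _ := D.g_π i v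
      rw [he, h1, hψs (fun w => (wP k n r D.i0 i).mulVec w) (fun w => by rw [D.f_π, D.g_π]),
        D.f_π]
      rfl
  rcases hM.2 e hequi hee with h0 | h1
  · exfalso
    let w : Fin n × Fin r → k := fun _ => 1
    have h3 : e (D.f w) = D.f w := by
      rw [he, ← hψ, LinearEquiv.symm_apply_apply]
    rw [h0] at h3
    have h4 : w = 0 := hinj' (by rw [← h3, map_zero])
    exact one_ne_zero (congrFun h4 (⟨0, D.npos⟩, ⟨0, hr⟩))
  · refine ⟨hinj', fun v => ⟨ψ.symm (D.g v), ?_⟩⟩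
    rw [← he, h1]

theorem word_zz (hf : Function.Injective D.f) : ZZ D.ε T := by
  refine (Matrix.toLin' (R := k)).injective (LinearMap.ext fun w => hf ?_)
  rw [map_zero, LinearMap.zero_apply, map_zero, Matrix.toLin'_apply, Matrix.add_mulVec, map_add]
  simp only [← Matrix.mulVec_mulVec]
  rw [D.f_a, D.f_a, D.f_a, D.f_a, D.f_b, D.f_b, D.f_b, D.f_b]
  exact congrArg (fun f => f (D.f w)) (gAlg_zz h2 M)

theorem iso_wordRep (hf : Function.Bijective D.f) :
    Iso M (wordRep D.ε D.i0 T (word_zz D hf.1)) := by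
  let E : (Fin n × Fin r → k) ≃ₗ[k] M.V := LinearEquiv.ofBijective D.f hf
  have key : ∀ (a : Gen) (w : Fin n × Fin r → k),
      D.f ((((wG D.ε D.i0 T).toSys (word_zz D hf.1)).val a).mulVec w) = M.ρ (gen k a) (D.f w) := by
    intro a w
    have fa : ∀ w, D.f ((wA D.ε T).mulVec w) = (gAlg h2 M).a (D.f w) := D.f_a
    have fb : ∀ w, D.f ((wB D.ε T).mulVec w) = (gAlg h2 M).b (D.f w) := D.f_b
    have fπ : ∀ l w, D.f ((wP k n r D.i0 l).mulVec w) = (gAlg h2 M).π l (D.f w) := D.f_π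
    cases a
    · rw [gAlg_x h2 M]
      change D.f ((wA D.ε T * (wP k n r D.i0 0 + wP k n r D.i0 2) +
        wB D.ε T * (wP k n r D.i0 1 + wP k n r D.i0 3)).mulVec w) = _
      simp only [Matrix.add_mulVec, ← Matrix.mulVec_mulVec, map_add, fa, fb, fπ,
        LinearMap.add_apply, Module.End.mul_apply]
    · rw [gAlg_y h2 M]
      change D.f ((wA D.ε T * (wP k n r D.i0 1 + wP k n r D.i0 3) +
        wB D.ε T * (wP k n r D.i0 0 + wP k n r D.i0 2)).mulVec w) = _
      simp only [Matrix.add_mulVec, ← Matrix.mulVec_mulVec, map_add, fa, fb, fπ,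
        LinearMap.add_apply, Module.End.mul_apply]
    · rw [gAlg_g h2 M]
      change D.f ((wP k n r D.i0 0 - wP k n r D.i0 1 - wP k n r D.i0 2 +
        wP k n r D.i0 3).mulVec w) = _
      simp only [Matrix.add_mulVec, Matrix.sub_mulVec, map_add, map_sub, fπ,
        LinearMap.add_apply, LinearMap.sub_apply]
    · rw [gAlg_l h2 M]
      change D.f ((wP k n r D.i0 0 - wP k n r D.i0 1 + wP k n r D.i0 2 -
        wP k n r D.i0 3).mulVec w) = _
      simp only [Matrix.add_mulVec, Matrix.sub_mulVec, map_add, map_sub, fπ,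
        LinearMap.add_apply, LinearMap.sub_apply]
  have h3 : Equi (wordRep D.ε D.i0 T (word_zz D hf.1)) M D.f := by
    refine equi_of_gen (M := wordRep D.ε D.i0 T (word_zz D hf.1)) (N := M) D.f ?_
    intro a w
    refine (congrArg D.f (matRep_gen _ a w)).trans (key a w)
  refine ⟨E.symm, fun a v => ?_⟩
  have h4 := h3 a (E.symm v)
  have h5 : D.f (E.symm v) = v := E.apply_symm_apply v
  exact (LinearEquiv.symm_apply_eq E).2 (h4.trans (congrArg (M.ρ a) h5)).symm

end

end

end Pool.Agent.J4H84.TH
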