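import Pool.Agent.J4H84.TH.Hopf

/-!
# Graded operators `a`, `b` and the generators `x, y, g, h`
-/

namespace Pool.Agent.J4H84.TH

set_option linter.unusedSimpArgs false

universe u v

/-- Elements `a`, `b` and orthogonal idempotents `π i`, `i ∈ ℤ/4`, with `a b = b a = 0`. -/
structure GAlg (B : Type v) [Ring B] where
  a : B
  b : B
  π : ZMod 4 → B
  ab : a * b = 0
  ba : b * a = 0
  sum : π 0 + π 1 + π 2 + π 3 = 1
  idem : ∀ i, π i * π i = π i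
  orth : ∀ i j, i ≠ j → π i * π j = 0
  aπ : ∀ i, a * π i = π (i + 1) * a
  bπ : ∀ i, b * π (i + 1) = π i * b

section
variable {B : Type v} [Ring B] (S : GAlg B)

/-- The even part. -/
def GAlg.pe : B := S.π 0 + S.π 2
/-- The odd part. -/
def GAlg.po : B := S.π 1 + S.π 3

theorem GAlg.orth' (i j : ZMod 4) (h : i ≠ j) (t : B) : S.π i * (S.π j * t) = 0 := by
  rw [← mul_assoc, S.orth i j h, zero_mul]

theorem GAlg.pa0 : S.π 0 * S.a = S.a * S.π 3 := (S.aπ 3).symm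
theorem GAlg.pa1 : S.π 1 * S.a = S.a * S.π 0 := (S.aπ 0).symm
theorem GAlg.pa2 : S.π 2 * S.a = S.a * S.π 1 := (S.aπ 1).symm
theorem GAlg.pa3 : S.π 3 * S.a = S.a * S.π 2 := (S.aπ 2).symm
theorem GAlg.pb0 : S.π 0 * S.b = S.b * S.π 1 := (S.bπ 0).symm
theorem GAlg.pb1 : S.π 1 * S.b = S.b * S.π 2 := (S.bπ 1).symm
theorem GAlg.pb2 : S.π 2 * S.b = S.b * S.π 3 := (S.bπ 2).symm
theorem GAlg.pb3 : S.π 3 * S.b = S.b * S.π 0 := (S.bπ 3).symm
theorem GAlg.pa0' (t : B) : S.π 0 * (S.a * t) = S.a * (S.π 3 * t) := by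
  rw [← mul_assoc, S.pa0, mul_assoc]
theorem GAlg.pa1' (t : B) : S.π 1 * (S.a * t) = S.a * (S.π 0 * t) := by
  rw [← mul_assoc, S.pa1, mul_assoc]
theorem GAlg.pa2' (t : B) : S.π 2 * (S.a * t) = S.a * (S.π 1 * t) := by
  rw [← mul_assoc, S.pa2, mul_assoc]
theorem GAlg.pa3' (t : B) : S.π 3 * (S.a * t) = S.a * (S.π 2 * t) := by
  rw [← mul_assoc, S.pa3, mul_assoc]
theorem GAlg.pb0' (t : B) : S.π 0 * (S.b * t) = S.b * (S.π 1 * t) := by
  rw [← mul_assoc, S.pb0, mul_assoc]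
theorem GAlg.pb1' (t : B) : S.π 1 * (S.b * t) = S.b * (S.π 2 * t) := by
  rw [← mul_assoc, S.pb1, mul_assoc]
theorem GAlg.pb2' (t : B) : S.π 2 * (S.b * t) = S.b * (S.π 3 * t) := by
  rw [← mul_assoc, S.pb2, mul_assoc]
theorem GAlg.pb3' (t : B) : S.π 3 * (S.b * t) = S.b * (S.π 0 * t) := by
  rw [← mul_assoc, S.pb3, mul_assoc]
theorem GAlg.ab' (t : B) : S.a * (S.b * t) = 0 := by rw [← mul_assoc, S.ab, zero_mul]
theorem GAlg.ba' (t : B) : S.b * (S.a * t) = 0 := by rw [← mul_assoc, S.ba, zero_mul]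
theorem GAlg.o01 : S.π 0 * S.π 1 = 0 := S.orth _ _ (by decide)
theorem GAlg.o02 : S.π 0 * S.π 2 = 0 := S.orth _ _ (by decide)
theorem GAlg.o03 : S.π 0 * S.π 3 = 0 := S.orth _ _ (by decide)
theorem GAlg.o10 : S.π 1 * S.π 0 = 0 := S.orth _ _ (by decide)
theorem GAlg.o12 : S.π 1 * S.π 2 = 0 := S.orth _ _ (by decide)
theorem GAlg.o13 : S.π 1 * S.π 3 = 0 := S.orth _ _ (by decide)
theorem GAlg.o20 : S.π 2 * S.π 0 = 0 := S.orth _ _ (by decide)
theorem GAlg.o21 : S.π 2 * S.π 1 = 0 := S.orth _ _ (by decide)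
theorem GAlg.o23 : S.π 2 * S.π 3 = 0 := S.orth _ _ (by decide)
theorem GAlg.o30 : S.π 3 * S.π 0 = 0 := S.orth _ _ (by decide)
theorem GAlg.o31 : S.π 3 * S.π 1 = 0 := S.orth _ _ (by decide)
theorem GAlg.o32 : S.π 3 * S.π 2 = 0 := S.orth _ _ (by decide)

/-- The generators `x, y, g, h` in terms of `a`, `b` and the idempotents. -/
def GAlg.toSys (hz : S.a * (S.a * (S.a * S.a)) + S.b * (S.b * (S.b * S.b)) = 0) : Sys B where
  x := S.a * (S.π 0 + S.π 2) + S.b * (S.π 1 + S.π 3)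
  y := S.a * (S.π 1 + S.π 3) + S.b * (S.π 0 + S.π 2)
  g := S.π 0 - S.π 1 - S.π 2 + S.π 3
  l := S.π 0 - S.π 1 + S.π 2 - S.π 3
  gg := by
    rw [← S.sum]
    simp only [mul_add, add_mul, mul_sub, sub_mul, S.idem, S.o01, S.o02, S.o03, S.o10, S.o12,
      S.o13, S.o20, S.o21, S.o23, S.o30, S.o31, S.o32, sub_zero, zero_sub, add_zero, zero_add,
      neg_neg, sub_neg_eq_add]
  ll := by
    rw [← S.sum]
    simp only [mul_add, add_mul, mul_sub, sub_mul, S.idem, S.o01, S.o02, S.o03, S.o10, S.o12,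
      S.o13, S.o20, S.o21, S.o23, S.o30, S.o31, S.o32, sub_zero, zero_sub, add_zero, zero_add,
      neg_neg, sub_neg_eq_add]
  gl := by
    simp only [mul_add, add_mul, mul_sub, sub_mul, S.idem, S.o01, S.o02, S.o03, S.o10, S.o12,
      S.o13, S.o20, S.o21, S.o23, S.o30, S.o31, S.o32, sub_zero, zero_sub, add_zero, zero_add,
      neg_neg, sub_neg_eq_add]
    try abel
  gx := by
    simp only [mul_add, add_mul, mul_sub, sub_mul, mul_assoc, S.pa0, S.pa1, S.pa2, S.pa3,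
      S.pb0, S.pb1, S.pb2, S.pb3, S.pa0', S.pa1', S.pa2', S.pa3', S.pb0', S.pb1', S.pb2', S.pb3',
      S.idem, S.o01, S.o02, S.o03, S.o10, S.o12,
      S.o13, S.o20, S.o21, S.o23, S.o30, S.o31, S.o32, mul_zero, sub_zero, zero_sub, add_zero,
      zero_add, neg_neg, sub_neg_eq_add]
    abel
  lx := by
    simp only [mul_add, add_mul, mul_sub, sub_mul, mul_assoc, S.pa0, S.pa1, S.pa2, S.pa3,
      S.pb0, S.pb1, S.pb2, S.pb3, S.pa0', S.pa1', S.pa2', S.pa3', S.pb0', S.pb1', S.pb2', S.pb3',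
      S.idem, S.o01, S.o02, S.o03, S.o10, S.o12,
      S.o13, S.o20, S.o21, S.o23, S.o30, S.o31, S.o32, mul_zero, sub_zero, zero_sub, add_zero,
      zero_add, neg_neg, sub_neg_eq_add]
    abel
  gy := by
    simp only [mul_add, add_mul, mul_sub, sub_mul, mul_assoc, S.pa0, S.pa1, S.pa2, S.pa3,
      S.pb0, S.pb1, S.pb2, S.pb3, S.pa0', S.pa1', S.pa2', S.pa3', S.pb0', S.pb1', S.pb2', S.pb3',
      S.idem, S.o01, S.o02, S.o03, S.o10, S.o12,
      S.o13, S.o20, S.o21, S.o23, S.o30, S.o31, S.o32, mul_zero, sub_zero, zero_sub, add_zero,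
      zero_add, neg_neg, sub_neg_eq_add]
    try abel
  ly := by
    simp only [mul_add, add_mul, mul_sub, sub_mul, mul_assoc, S.pa0, S.pa1, S.pa2, S.pa3,
      S.pb0, S.pb1, S.pb2, S.pb3, S.pa0', S.pa1', S.pa2', S.pa3', S.pb0', S.pb1', S.pb2', S.pb3',
      S.idem, S.o01, S.o02, S.o03, S.o10, S.o12,
      S.o13, S.o20, S.o21, S.o23, S.o30, S.o31, S.o32, mul_zero, sub_zero, zero_sub, add_zero,
      zero_add, neg_neg, sub_neg_eq_add]
    abel
  xx := by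
    simp only [mul_add, add_mul, mul_sub, sub_mul, mul_assoc, S.pa0, S.pa1, S.pa2, S.pa3,
      S.pb0, S.pb1, S.pb2, S.pb3, S.pa0', S.pa1', S.pa2', S.pa3', S.pb0', S.pb1', S.pb2', S.pb3',
      S.idem, S.o01, S.o02, S.o03, S.o10, S.o12, S.ab', S.ba',
      S.o13, S.o20, S.o21, S.o23, S.o30, S.o31, S.o32, mul_zero, sub_zero, zero_sub, add_zero,
      zero_add, neg_neg, sub_neg_eq_add]
  yy := by
    simp only [mul_add, add_mul, mul_sub, sub_mul, mul_assoc, S.pa0, S.pa1, S.pa2, S.pa3,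
      S.pb0, S.pb1, S.pb2, S.pb3, S.pa0', S.pa1', S.pa2', S.pa3', S.pb0', S.pb1', S.pb2', S.pb3',
      S.idem, S.o01, S.o02, S.o03, S.o10, S.o12, S.ab', S.ba',
      S.o13, S.o20, S.o21, S.o23, S.o30, S.o31, S.o32, mul_zero, sub_zero, zero_sub, add_zero,
      zero_add, neg_neg, sub_neg_eq_add]
  zz := by
    have h1 : (S.a * (S.π 0 + S.π 2) + S.b * (S.π 1 + S.π 3)) *
        (S.a * (S.π 1 + S.π 3) + S.b * (S.π 0 + S.π 2)) =
        S.a * (S.a * (S.π 1 + S.π 3)) + S.b * (S.b * (S.π 0 + S.π 2)) := by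
      simp only [mul_add, add_mul, mul_sub, sub_mul, mul_assoc, S.pa0, S.pa1, S.pa2, S.pa3,
        S.pb0, S.pb1, S.pb2, S.pb3, S.pa0', S.pa1', S.pa2', S.pa3', S.pb0', S.pb1', S.pb2', S.pb3',
        S.idem, S.o01, S.o02, S.o03, S.o10, S.o12, S.ab', S.ba',
        S.o13, S.o20, S.o21, S.o23, S.o30, S.o31, S.o32, mul_zero, sub_zero, zero_sub, add_zero,
        zero_add, neg_neg, sub_neg_eq_add]
    have h2 : (S.a * (S.π 1 + S.π 3) + S.b * (S.π 0 + S.π 2)) *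
        (S.a * (S.π 0 + S.π 2) + S.b * (S.π 1 + S.π 3)) =
        S.a * (S.a * (S.π 0 + S.π 2)) + S.b * (S.b * (S.π 1 + S.π 3)) := by
      simp only [mul_add, add_mul, mul_sub, sub_mul, mul_assoc, S.pa0, S.pa1, S.pa2, S.pa3,
        S.pb0, S.pb1, S.pb2, S.pb3, S.pa0', S.pa1', S.pa2', S.pa3', S.pb0', S.pb1', S.pb2', S.pb3',
        S.idem, S.o01, S.o02, S.o03, S.o10, S.o12, S.ab', S.ba',
        S.o13, S.o20, S.o21, S.o23, S.o30, S.o31, S.o32, mul_zero, sub_zero, zero_sub, add_zero,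
        zero_add, neg_neg, sub_neg_eq_add]
      try abel
    rw [h1, h2, ← hz]
    have h3 : S.a * (S.a * (S.a * S.a)) = S.a * (S.a * (S.a * (S.a *
        (S.π 0 + S.π 1 + S.π 2 + S.π 3)))) := by rw [S.sum, mul_one]
    have h4 : S.b * (S.b * (S.b * S.b)) = S.b * (S.b * (S.b * (S.b *
        (S.π 0 + S.π 1 + S.π 2 + S.π 3)))) := by rw [S.sum, mul_one]
    rw [h3, h4]
    simp only [mul_add, add_mul, mul_sub, sub_mul, mul_assoc, S.pa0, S.pa1, S.pa2, S.pa3,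
        S.pb0, S.pb1, S.pb2, S.pb3, S.pa0', S.pa1', S.pa2', S.pa3', S.pb0', S.pb1', S.pb2', S.pb3',
        S.idem, S.o01, S.o02, S.o03, S.o10, S.o12, S.ab', S.ba',
        S.o13, S.o20, S.o21, S.o23, S.o30, S.o31, S.o32, mul_zero, sub_zero, zero_sub, add_zero,
        zero_add, neg_neg, sub_neg_eq_add]
    abel

end

end Pool.Agent.J4H84.TH
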