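import Pool.Agent.J4H84.TH.Conv

/-!
# From the generators `x, y, g, h` to graded operators `a`, `b`
-/

namespace Pool.Agent.J4H84.TH

set_option linter.unusedSimpArgs false

universe u v

section
variable {k : Type u} [Field k] {B : Type v} [Ring B] [Algebra k B]

/-- `(1 + g) / 2` -/
def hp (k : Type u) [Field k] {B : Type v} [Ring B] [Algebra k B] (g : B) : B :=
  (2⁻¹ : k) • (1 + g)
/-- `(1 - g) / 2` -/
def hm (k : Type u) [Field k] {B : Type v} [Ring B] [Algebra k B] (g : B) : B :=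
  (2⁻¹ : k) • (1 - g)

theorem hp_idem (h2 : (2 : k) ≠ 0) {g : B} (hg : g * g = 1) : hp k g * hp k g = hp k g := by
  have h : (1 + g) * (1 + g) = (2 : k) • (1 + g) := by
    rw [mul_add, add_mul, add_mul, hg, two_smul]
    simp only [one_mul, mul_one]
    abel
  rw [hp, Algebra.smul_mul_assoc, Algebra.mul_smul_comm, h, smul_smul, smul_smul]
  congr 1
  field_simp

theorem hm_idem (h2 : (2 : k) ≠ 0) {g : B} (hg : g * g = 1) : hm k g * hm k g = hm k g := by
  have h : (1 - g) * (1 - g) = (2 : k) • (1 - g) := by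
    rw [mul_sub, sub_mul, sub_mul, hg, two_smul]
    simp only [one_mul, mul_one]
    abel
  rw [hm, Algebra.smul_mul_assoc, Algebra.mul_smul_comm, h, smul_smul, smul_smul]
  congr 1
  field_simp

theorem hp_hm {g : B} (hg : g * g = 1) : hp k g * hm k g = 0 := by
  have h : (1 + g) * (1 - g) = 0 := by
    rw [mul_sub, add_mul, add_mul, hg]
    simp only [one_mul, mul_one]
    abel
  rw [hp, hm, Algebra.smul_mul_assoc, Algebra.mul_smul_comm, h, smul_zero, smul_zero]

theorem hm_hp {g : B} (hg : g * g = 1) : hm k g * hp k g = 0 := by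
  have h : (1 - g) * (1 + g) = 0 := by
    rw [mul_add, sub_mul, sub_mul, hg]
    simp only [one_mul, mul_one]
    abel
  rw [hp, hm, Algebra.smul_mul_assoc, Algebra.mul_smul_comm, h, smul_zero, smul_zero]

theorem hp_add_hm (h2 : (2 : k) ≠ 0) (g : B) : hp k g + hm k g = 1 := by
  have h : (1 + g) + (1 - g) = (2 : k) • (1 : B) := by
    rw [two_smul]; abel
  rw [hp, hm, ← smul_add, h, smul_smul, inv_mul_cancel₀ h2, one_smul]

theorem hp_sub_hm (h2 : (2 : k) ≠ 0) (g : B) : hp k g - hm k g = g := by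
  have h : (1 + g) - (1 - g) = (2 : k) • g := by
    rw [two_smul]; abel
  rw [hp, hm, ← smul_sub, h, smul_smul, inv_mul_cancel₀ h2, one_smul]

/-- anticommuting -/
theorem hp_anti {g x : B} (h : g * x = -(x * g)) : hp k g * x = x * hm k g := by
  rw [hp, hm, Algebra.smul_mul_assoc, Algebra.mul_smul_comm, add_mul, mul_sub, h]
  simp only [one_mul, mul_one, sub_eq_add_neg]
theorem hm_anti {g x : B} (h : g * x = -(x * g)) : hm k g * x = x * hp k g := by
  rw [hp, hm, Algebra.smul_mul_assoc, Algebra.mul_smul_comm, sub_mul, mul_add, h]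
  simp only [one_mul, mul_one, sub_neg_eq_add]
theorem hp_comm {g x : B} (h : g * x = x * g) : hp k g * x = x * hp k g := by
  rw [hp, Algebra.smul_mul_assoc, Algebra.mul_smul_comm, add_mul, mul_add, h]
  simp only [one_mul, mul_one]
theorem hm_comm {g x : B} (h : g * x = x * g) : hm k g * x = x * hm k g := by
  rw [hm, Algebra.smul_mul_assoc, Algebra.mul_smul_comm, sub_mul, mul_sub, h]
  simp only [one_mul, mul_one]

end

/-- The rules for the idempotents. -/
structure PSys (B : Type v) [Ring B] where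
  x : B
  y : B
  P : B
  Q : B
  E : B
  O : B
  PP : P * P = P
  QQ : Q * Q = Q
  PQ : P * Q = 0
  QP : Q * P = 0
  EE : E * E = E
  OO : O * O = O
  EO : E * O = 0
  OE : O * E = 0
  EP : E * P = P * E
  OP : O * P = P * O
  EQ : E * Q = Q * E
  OQ : O * Q = Q * O
  Px : P * x = x * Q
  Qx : Q * x = x * P
  Ex : E * x = x * O
  Ox : O * x = x * E
  Py : P * y = y * P
  Qy : Q * y = y * Q
  Ey : E * y = y * O
  Oy : O * y = y * E
  PQ1 : P + Q = 1
  EO1 : E + O = 1
  xx : x * x = 0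
  yy : y * y = 0
  zz : x * y * (x * y) + y * x * (y * x) = 0

section
variable {B : Type v} [Ring B] (S : PSys B)

theorem PSys.PP' (t : B) : S.P * (S.P * t) = S.P * t := by rw [← mul_assoc, S.PP]
theorem PSys.QQ' (t : B) : S.Q * (S.Q * t) = S.Q * t := by rw [← mul_assoc, S.QQ]
theorem PSys.PQ' (t : B) : S.P * (S.Q * t) = 0 := by rw [← mul_assoc, S.PQ, zero_mul]
theorem PSys.QP' (t : B) : S.Q * (S.P * t) = 0 := by rw [← mul_assoc, S.QP, zero_mul]
theorem PSys.EE' (t : B) : S.E * (S.E * t) = S.E * t := by rw [← mul_assoc, S.EE]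
theorem PSys.OO' (t : B) : S.O * (S.O * t) = S.O * t := by rw [← mul_assoc, S.OO]
theorem PSys.EO' (t : B) : S.E * (S.O * t) = 0 := by rw [← mul_assoc, S.EO, zero_mul]
theorem PSys.OE' (t : B) : S.O * (S.E * t) = 0 := by rw [← mul_assoc, S.OE, zero_mul]
theorem PSys.EP' (t : B) : S.E * (S.P * t) = S.P * (S.E * t) := by
  rw [← mul_assoc, S.EP, mul_assoc]
theorem PSys.OP' (t : B) : S.O * (S.P * t) = S.P * (S.O * t) := by
  rw [← mul_assoc, S.OP, mul_assoc]
theorem PSys.EQ' (t : B) : S.E * (S.Q * t) = S.Q * (S.E * t) := by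
  rw [← mul_assoc, S.EQ, mul_assoc]
theorem PSys.OQ' (t : B) : S.O * (S.Q * t) = S.Q * (S.O * t) := by
  rw [← mul_assoc, S.OQ, mul_assoc]
theorem PSys.Px' (t : B) : S.P * (S.x * t) = S.x * (S.Q * t) := by
  rw [← mul_assoc, S.Px, mul_assoc]
theorem PSys.Qx' (t : B) : S.Q * (S.x * t) = S.x * (S.P * t) := by
  rw [← mul_assoc, S.Qx, mul_assoc]
theorem PSys.Ex' (t : B) : S.E * (S.x * t) = S.x * (S.O * t) := by
  rw [← mul_assoc, S.Ex, mul_assoc]
theorem PSys.Ox' (t : B) : S.O * (S.x * t) = S.x * (S.E * t) := by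
  rw [← mul_assoc, S.Ox, mul_assoc]
theorem PSys.Py' (t : B) : S.P * (S.y * t) = S.y * (S.P * t) := by
  rw [← mul_assoc, S.Py, mul_assoc]
theorem PSys.Qy' (t : B) : S.Q * (S.y * t) = S.y * (S.Q * t) := by
  rw [← mul_assoc, S.Qy, mul_assoc]
theorem PSys.Ey' (t : B) : S.E * (S.y * t) = S.y * (S.O * t) := by
  rw [← mul_assoc, S.Ey, mul_assoc]
theorem PSys.Oy' (t : B) : S.O * (S.y * t) = S.y * (S.E * t) := by
  rw [← mul_assoc, S.Oy, mul_assoc]
theorem PSys.xx' (t : B) : S.x * (S.x * t) = 0 := by rw [← mul_assoc, S.xx, zero_mul]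
theorem PSys.yy' (t : B) : S.y * (S.y * t) = 0 := by rw [← mul_assoc, S.yy, zero_mul]

/-- The graded operators. -/
def PSys.toG : GAlg B where
  a := S.x * S.E + S.y * S.O
  b := S.x * S.O + S.y * S.E
  π := fun i => if i = 0 then S.P * S.E else if i = 1 then S.Q * S.O else
    if i = 2 then S.Q * S.E else S.P * S.O
  ab := by
    simp only [mul_add, add_mul, mul_assoc, S.Ex', S.Ox', S.Ey', S.Oy', S.EE, S.OO, S.EO, S.OE,
      S.xx', S.yy', mul_zero, add_zero, zero_add]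
  ba := by
    simp only [mul_add, add_mul, mul_assoc, S.Ex', S.Ox', S.Ey', S.Oy', S.EE, S.OO, S.EO, S.OE,
      S.xx', S.yy', mul_zero, add_zero, zero_add]
  sum := by
    have e1 : (1 : ZMod 4) ≠ 0 := by decide
    have e2 : (2 : ZMod 4) ≠ 0 := by decide
    have e3 : (2 : ZMod 4) ≠ 1 := by decide
    have e4 : (3 : ZMod 4) ≠ 0 := by decide
    have e5 : (3 : ZMod 4) ≠ 1 := by decide
    have e6 : (3 : ZMod 4) ≠ 2 := by decide
    simp only [if_true, e1, e2, e3, e4, e5, e6, if_false]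
    calc S.P * S.E + S.Q * S.O + S.Q * S.E + S.P * S.O = (S.P + S.Q) * (S.E + S.O) := by
          simp only [mul_add, add_mul]; abel
      _ = 1 := by rw [S.PQ1, S.EO1, mul_one]
  idem := by
    intro i
    split_ifs <;>
    simp only [mul_assoc, S.EP', S.EQ', S.OP', S.OQ', S.PP', S.QQ', S.EE, S.OO]
  orth := by
    have e1 : (1 : ZMod 4) ≠ 0 := by decide
    have e2 : (2 : ZMod 4) ≠ 0 := by decide
    have e3 : (2 : ZMod 4) ≠ 1 := by decide
    have e4 : (3 : ZMod 4) ≠ 0 := by decide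
    have e5 : (3 : ZMod 4) ≠ 1 := by decide
    have e6 : (3 : ZMod 4) ≠ 2 := by decide
    have h : ∀ i : ZMod 4, i = 0 ∨ i = 1 ∨ i = 2 ∨ i = 3 := by decide
    intro i j hij
    rcases h i with rfl | rfl | rfl | rfl <;> rcases h j with rfl | rfl | rfl | rfl <;>
    first
      | exact absurd rfl hij
      | simp only [if_true, e1, e2, e3, e4, e5, e6, if_false, mul_assoc, S.EP', S.EQ', S.OP',
          S.OQ', S.PP', S.QQ', S.PQ', S.QP', S.EE, S.OO, S.EO, S.OE, mul_zero]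
  aπ := by
    have e1 : (1 : ZMod 4) ≠ 0 := by decide
    have e2 : (2 : ZMod 4) ≠ 0 := by decide
    have e3 : (2 : ZMod 4) ≠ 1 := by decide
    have e4 : (3 : ZMod 4) ≠ 0 := by decide
    have e5 : (3 : ZMod 4) ≠ 1 := by decide
    have e6 : (3 : ZMod 4) ≠ 2 := by decide
    have f0 : (0 : ZMod 4) + 1 = 1 := by decide
    have f1 : (1 : ZMod 4) + 1 = 2 := by decide
    have f2 : (2 : ZMod 4) + 1 = 3 := by decide
    have f3 : (3 : ZMod 4) + 1 = 0 := by decide
    have h : ∀ i : ZMod 4, i = 0 ∨ i = 1 ∨ i = 2 ∨ i = 3 := by decide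
    intro i
    rcases h i with rfl | rfl | rfl | rfl <;>
    simp only [f0, f1, f2, f3, if_true, e1, e2, e3, e4, e5, e6, if_false, mul_assoc, mul_add,
      add_mul, S.EP', S.EQ', S.OP', S.OQ', S.PP', S.QQ', S.PQ', S.QP', S.EE, S.OO, S.EO, S.OE,
      mul_zero, S.Ex', S.Ox', S.Ey', S.Oy', S.Px', S.Py', S.Qx', S.Qy', add_zero, zero_add]
  bπ := by
    have e1 : (1 : ZMod 4) ≠ 0 := by decide
    have e2 : (2 : ZMod 4) ≠ 0 := by decide
    have e3 : (2 : ZMod 4) ≠ 1 := by decide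
    have e4 : (3 : ZMod 4) ≠ 0 := by decide
    have e5 : (3 : ZMod 4) ≠ 1 := by decide
    have e6 : (3 : ZMod 4) ≠ 2 := by decide
    have f0 : (0 : ZMod 4) + 1 = 1 := by decide
    have f1 : (1 : ZMod 4) + 1 = 2 := by decide
    have f2 : (2 : ZMod 4) + 1 = 3 := by decide
    have f3 : (3 : ZMod 4) + 1 = 0 := by decide
    have h : ∀ i : ZMod 4, i = 0 ∨ i = 1 ∨ i = 2 ∨ i = 3 := by decide
    intro i
    rcases h i with rfl | rfl | rfl | rfl <;>
    simp only [f0, f1, f2, f3, if_true, e1, e2, e3, e4, e5, e6, if_false, mul_assoc, mul_add,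
      add_mul, S.EP', S.EQ', S.OP', S.OQ', S.PP', S.QQ', S.PQ', S.QP', S.EE, S.OO, S.EO, S.OE,
      mul_zero, S.Ex', S.Ox', S.Ey', S.Oy', S.Px', S.Py', S.Qx', S.Qy', add_zero, zero_add]

end

section
variable {k : Type u} [Field k] {B : Type v} [Ring B] [Algebra k B]

/-- The idempotents of a system. -/
def Sys.toP (h2 : (2 : k) ≠ 0) (S : Sys B) : PSys B where
  x := S.x
  y := S.y
  P := hp k S.g
  Q := hm k S.g
  E := hp k S.l
  O := hm k S.l
  PP := hp_idem h2 S.gg
  QQ := hm_idem h2 S.gg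
  PQ := hp_hm S.gg
  QP := hm_hp S.gg
  EE := hp_idem h2 S.ll
  OO := hm_idem h2 S.ll
  EO := hp_hm S.ll
  OE := hm_hp S.ll
  EP := hp_comm (hp_comm S.gl).symm
  OP := hm_comm (hp_comm S.gl).symm
  EQ := hp_comm (hm_comm S.gl).symm
  OQ := hm_comm (hm_comm S.gl).symm
  Px := hp_anti S.gx
  Qx := hm_anti S.gx
  Ex := hp_anti S.lx
  Ox := hm_anti S.lx
  Py := hp_comm S.gy
  Qy := hm_comm S.gy
  Ey := hp_anti S.ly
  Oy := hm_anti S.ly
  PQ1 := hp_add_hm h2 _
  EO1 := hp_add_hm h2 _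
  xx := S.xx
  yy := S.yy
  zz := S.zz

/-- The graded operators of a system. -/
def Sys.toG (h2 : (2 : k) ≠ 0) (S : Sys B) : GAlg B := (S.toP h2).toG

end

end Pool.Agent.J4H84.TH
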