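import Pool.Agent.J4H84.TH.Cls

/-!
# The one-parameter families; `H` is tame
-/

namespace Pool.Agent.J4H84.TH

open Polynomial

set_option linter.unusedSimpArgs false

universe u v

section
variable {R R' : Type u} [CommRing R] [CommRing R'] (f : R →+* R') {n r : ℕ}
  (ε : Fin n → Fin 3) (i0 : ZMod 4) (T : Matrix (Fin r) (Fin r) R)

theorem tw_map (i : Fin n) : (tw T i).map f = tw (T.map f) i := by
  unfold tw
  split_ifs
  · rfl
  · rw [Matrix.map_one _ (map_zero f) (map_one f)]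

theorem wA_map : (wA ε T).map f = wA ε (T.map f) := by
  ext p q
  rw [Matrix.map_apply]
  unfold wA
  split_ifs
  · rw [← tw_map]; rfl
  · exact map_zero f

theorem wB_map : (wB ε T).map f = wB ε (T.map f) := by
  ext p q
  rw [Matrix.map_apply]
  unfold wB
  split_ifs
  · rw [← tw_map]; rfl
  · exact map_zero f

theorem wP_map (i : ZMod 4) : (wP R n r i0 i).map f = wP R' n r i0 i := by
  unfold wP
  rw [Matrix.diagonal_map (map_zero f)]
  congr 1
  funext p
  split_ifs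
  · exact map_one f
  · exact map_zero f

theorem jord_map (c : R) : (jord r c).map f = jord r (f c) := by
  ext i j
  rw [Matrix.map_apply]
  unfold jord
  split_ifs
  · rfl
  · exact map_one f
  · exact map_zero f

/-- The matrix `a ^ 4 + b ^ 4`. -/
def zz : Matrix (Fin n × Fin r) (Fin n × Fin r) R :=
  wA ε T * (wA ε T * (wA ε T * wA ε T)) + wB ε T * (wB ε T * (wB ε T * wB ε T))

theorem zz_map : (zz ε T).map f = zz ε (T.map f) := by
  unfold zz
  rw [Matrix.map_add f (map_add f)]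
  simp only [Matrix.map_mul, wA_map, wB_map]

theorem ZZ_iff : ZZ ε T ↔ zz ε T = 0 := Iff.rfl

theorem ZZ_map (h : ZZ ε T) : ZZ ε (T.map f) := by
  rw [ZZ_iff] at h ⊢
  rw [← zz_map, h]
  exact Matrix.map_zero f (map_zero f)

theorem val_map (hz : ZZ ε T) (a : Gen) : (((wG ε i0 T).toSys hz).val a).map f =
    ((wG ε i0 (T.map f)).toSys (ZZ_map f ε T hz)).val a := by
  cases a
  · change (wA ε T * (wP R n r i0 0 + wP R n r i0 2) +
      wB ε T * (wP R n r i0 1 + wP R n r i0 3)).map f =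
      wA ε (T.map f) * (wP R' n r i0 0 + wP R' n r i0 2) +
      wB ε (T.map f) * (wP R' n r i0 1 + wP R' n r i0 3)
    simp only [Matrix.map_add f (map_add f), Matrix.map_mul, wA_map, wB_map, wP_map]
  · change (wA ε T * (wP R n r i0 1 + wP R n r i0 3) +
      wB ε T * (wP R n r i0 0 + wP R n r i0 2)).map f =
      wA ε (T.map f) * (wP R' n r i0 1 + wP R' n r i0 3) +
      wB ε (T.map f) * (wP R' n r i0 0 + wP R' n r i0 2)
    simp only [Matrix.map_add f (map_add f), Matrix.map_mul, wA_map, wB_map, wP_map]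
  · change (wP R n r i0 0 - wP R n r i0 1 - wP R n r i0 2 + wP R n r i0 3).map f =
      wP R' n r i0 0 - wP R' n r i0 1 - wP R' n r i0 2 + wP R' n r i0 3
    simp only [Matrix.map_add f (map_add f), Matrix.map_sub f (map_sub f), wP_map]
  · change (wP R n r i0 0 - wP R n r i0 1 + wP R n r i0 2 - wP R n r i0 3).map f =
      wP R' n r i0 0 - wP R' n r i0 1 + wP R' n r i0 2 - wP R' n r i0 3
    simp only [Matrix.map_add f (map_add f), Matrix.map_sub f (map_sub f), wP_map]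

end

variable {k : Type u} [Field k]

theorem Iso.trans' {A : Type u} [Ring A] [Algebra k A] {M N P : FRep k A} (h : Iso M N)
    (h' : Iso N P) : Iso M P := by
  obtain ⟨e, he⟩ := h
  obtain ⟨e', he'⟩ := h'
  exact ⟨e.trans e', fun a v => by
    rw [LinearEquiv.trans_apply, he, he', LinearEquiv.trans_apply]⟩

/-- The family of a word over `k[X]`. -/
noncomputable def fam {d n r : ℕ} (ε : Fin n → Fin 3) (i0 : ZMod 4)
    (e : Fin n × Fin (r + 1) ≃ Fin d) (hz : ZZ ε (jord (r + 1) (Polynomial.X : k[X]))) :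
    H k →ₐ[k] Matrix (Fin d) (Fin d) k[X] :=
  (Matrix.reindexAlgEquiv k k[X] e).toAlgHom.comp (lift ((wG ε i0 (jord (r + 1) Polynomial.X)).toSys hz))

theorem ZZ_eval {n r : ℕ} (ε : Fin n → Fin 3) (hz : ZZ ε (jord (r + 1) (Polynomial.X : k[X]))) (t : k) :
    ZZ ε (jord (r + 1) t) := by
  have h := ZZ_map (aeval (R := k) t : k[X] →ₐ[k] k).toRingHom ε _ hz
  rw [jord_map] at h
  have h1 : (aeval (R := k) t : k[X] →ₐ[k] k).toRingHom Polynomial.X = t := aeval_X t
  rwa [h1] at h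

theorem iso_fam {d n r : ℕ} (ε : Fin n → Fin 3) (i0 : ZMod 4)
    (e : Fin n × Fin (r + 1) ≃ Fin d) (hz : ZZ ε (jord (r + 1) (Polynomial.X : k[X]))) (t : k)
    (hz' : ZZ ε (jord (r + 1) t)) :
    Iso (wordRep ε i0 (jord (r + 1) t) hz') (famAt (fam ε i0 e hz) t) := by
  let E : (Fin n × Fin (r + 1) → k) ≃ₗ[k] (Fin d → k) := LinearEquiv.funCongrLeft k k e.symm
  have h1 : (aeval (R := k) t : k[X] →ₐ[k] k).toRingHom Polynomial.X = t := aeval_X t
  have key : ∀ (a : Gen) (w : Fin n × Fin (r + 1) → k),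
      E ((((wG ε i0 (jord (r + 1) t)).toSys hz').val a).mulVec w) =
      (famAt (fam ε i0 e hz) t).ρ (gen k a) (E w) := by
    intro a w
    have h2 := val_map (aeval (R := k) t : k[X] →ₐ[k] k).toRingHom ε i0
      (jord (r + 1) (Polynomial.X : k[X])) hz a
    have h3 : (famAt (fam ε i0 e hz) t).ρ (gen k a) (E w) =
        ((Matrix.reindex e e (((wG ε i0 (jord (r + 1) (Polynomial.X : k[X]))).toSys hz).val a)).map
          (aeval t)).mulVec (E w) := by
      have h4 : fam ε i0 e hz (gen k a) =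
          Matrix.reindex e e (((wG ε i0 (jord (r + 1) (Polynomial.X : k[X]))).toSys hz).val a) := by
        change Matrix.reindexAlgEquiv k k[X] e (lift _ (gen k a)) = _
        rw [lift_gen]
        rfl
      change ((fam ε i0 e hz (gen k a)).map (aeval t)).mulVec (E w) = _
      rw [h4]
    rw [h3]
    have h5 : (Matrix.reindex e e (((wG ε i0 (jord (r + 1) (Polynomial.X : k[X]))).toSys hz).val a)).map
        (aeval t) = Matrix.reindex e e (((wG ε i0 (jord (r + 1) t)).toSys hz').val a) := by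
      have h6 : (((wG ε i0 (jord (r + 1) (Polynomial.X : k[X]))).toSys hz).val a).map (aeval t) =
          ((wG ε i0 (jord (r + 1) t)).toSys hz').val a := by
        refine Eq.trans h2 ?_
        congr 2 <;> rw [jord_map, h1]
      rw [← h6]
      rfl
    rw [h5, Matrix.reindex_apply, Matrix.submatrix_mulVec_equiv]
    funext j
    simp only [E, LinearEquiv.funCongrLeft_apply, LinearMap.funLeft_apply, Function.comp]
    congr 1
    congr 1
    funext p
    simp
  have h7 : Equi (wordRep ε i0 (jord (r + 1) t) hz') (famAt (fam ε i0 e hz) t)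
      E.toLinearMap := by
    refine equi_of_gen (M := wordRep ε i0 (jord (r + 1) t) hz')
      (N := famAt (fam ε i0 e hz) t) E.toLinearMap ?_
    intro a w
    exact (congrArg E (matRep_gen _ a w)).trans (key a w)
  exact ⟨E, h7⟩

/-- The combinatorial data of the words of dimension `d`. -/
abbrev Idx (d : ℕ) : Type :=
  Σ n : Fin (d + 1), Σ r : Fin (d + 1), (Fin n → Fin 3) × ZMod 4 × (Fin n × Fin (r + 1) ≃ Fin d)

instance (d : ℕ) : Finite (Idx d) := inferInstance

/-- The families. -/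
def famSet (k : Type u) [Field k] (d : ℕ) : Set (H k →ₐ[k] Matrix (Fin d) (Fin d) k[X]) :=
  ⋃ i : Idx d, {φ | ∃ hz : ZZ i.2.2.1 (jord (i.2.1 + 1) (Polynomial.X : k[X])),
    φ = fam i.2.2.1 i.2.2.2.1 i.2.2.2.2 hz}

/-- The exceptional modules. -/
def excSet (k : Type u) [Field k] (d : ℕ) : Set (FRep k (H k)) :=
  ⋃ i : Idx d, ⋃ _ : ¬ ZZ i.2.2.1 (jord (i.2.1 + 1) (Polynomial.X : k[X])), ⋃ t : k,
    {N | ∃ hz : ZZ i.2.2.1 (jord (i.2.1 + 1) t),
      N = wordRep i.2.2.1 i.2.2.2.1 (jord (i.2.1 + 1) t) hz}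

theorem famSet_finite (d : ℕ) : (famSet k d).Finite := by
  refine Set.finite_iUnion fun i => Set.Subsingleton.finite ?_
  rintro φ ⟨h, rfl⟩ ψ ⟨h', rfl⟩
  rfl

theorem roots_finite {n r : ℕ} (ε : Fin n → Fin 3)
    (h : ¬ ZZ ε (jord (r + 1) (Polynomial.X : k[X]))) :
    {t : k | ZZ ε (jord (r + 1) t)}.Finite := by
  have h0 : zz ε (jord (r + 1) (Polynomial.X : k[X])) ≠ 0 := h
  obtain ⟨p, q, hpq⟩ : ∃ p q, zz ε (jord (r + 1) (Polynomial.X : k[X])) p q ≠ 0 := by
    by_contra hc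
    push Not at hc
    exact h0 (Matrix.ext hc)
  refine ((zz ε (jord (r + 1) (Polynomial.X : k[X])) p q).rootSet_finite k).subset ?_
  intro t ht
  have h1 : (aeval (R := k) t : k[X] →ₐ[k] k).toRingHom Polynomial.X = t := aeval_X t
  have h2 := zz_map (aeval (R := k) t : k[X] →ₐ[k] k).toRingHom ε
    (jord (r + 1) (Polynomial.X : k[X]))
  rw [jord_map, h1] at h2
  have h3 : zz ε (jord (r + 1) t) = 0 := ht
  rw [h3] at h2
  refine (Polynomial.mem_rootSet).2 ⟨hpq, ?_⟩
  exact congrFun (congrFun h2 p) q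

theorem excSet_finite (d : ℕ) : (excSet k d).Finite := by
  refine Set.finite_iUnion fun i => ?_
  by_cases h : ZZ i.2.2.1 (jord (i.2.1 + 1) (Polynomial.X : k[X]))
  · have : (⋃ _ : ¬ ZZ i.2.2.1 (jord (i.2.1 + 1) (Polynomial.X : k[X])), ⋃ t : k,
      {N | ∃ hz : ZZ i.2.2.1 (jord (i.2.1 + 1) t),
        N = wordRep i.2.2.1 i.2.2.2.1 (jord (i.2.1 + 1) t) hz}) = ∅ := by
      simp [h]
    rw [this]
    exact Set.finite_empty
  · have : (⋃ _ : ¬ ZZ i.2.2.1 (jord (i.2.1 + 1) (Polynomial.X : k[X])), ⋃ t : k,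
      {N | ∃ hz : ZZ i.2.2.1 (jord (i.2.1 + 1) t),
        N = wordRep i.2.2.1 i.2.2.2.1 (jord (i.2.1 + 1) t) hz}) =
      ⋃ t ∈ {t : k | ZZ i.2.2.1 (jord (i.2.1 + 1) t)},
        {N | ∃ hz : ZZ i.2.2.1 (jord (i.2.1 + 1) t),
          N = wordRep i.2.2.1 i.2.2.2.1 (jord (i.2.1 + 1) t) hz} := by
      ext N
      simp only [Set.mem_iUnion, Set.mem_ofPred_eq, exists_prop]
      constructor
      · rintro ⟨-, t, hz, rfl⟩
        exact ⟨t, hz, hz, rfl⟩
      · rintro ⟨t, -, hz, rfl⟩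
        exact ⟨h, t, hz, rfl⟩
    rw [this]
    refine Set.Finite.biUnion (roots_finite _ h) fun t _ => Set.Subsingleton.finite ?_
    rintro φ ⟨h, rfl⟩ ψ ⟨h', rfl⟩
    rfl

theorem cover [IsAlgClosed k] (h2 : (2 : k) ≠ 0) (hdata : S_DATA.{u}) (htri : S_TRI.{u}) (d : ℕ)
    (M : FRep k (H k)) (hM : Indec M) (hd : Module.finrank k M.V = d) :
    (∃ φ ∈ famSet k d, ∃ t, Iso M (famAt φ t)) ∨ ∃ N ∈ excSet k d, Iso M N := by
  have hn := hM.1
  obtain ⟨n, r, μ, ⟨D⟩⟩ := hdata k M.V (gAlg h2 M).toM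
  have hf := iso_word D htri (Nat.succ_pos r) hM
  have hiso := iso_wordRep D hf
  have hdim : n * (r + 1) = d := by
    rw [← hd, ← (LinearEquiv.ofBijective D.f hf).finrank_eq]
    simp
  have hn1 := D.npos
  have hn2 : n < d + 1 := by nlinarith
  have hr2 : r < d + 1 := by nlinarith
  let e : Fin n × Fin (r + 1) ≃ Fin d := finProdFinEquiv.trans (finCongr hdim)
  let i : Idx d := ⟨⟨n, hn2⟩, ⟨r, hr2⟩, D.ε, D.i0, e⟩
  by_cases h : ZZ D.ε (jord (r + 1) (Polynomial.X : k[X]))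
  · left
    refine ⟨fam D.ε D.i0 e h, Set.mem_iUnion.2 ⟨i, h, rfl⟩, μ, ?_⟩
    exact hiso.trans' (iso_fam D.ε D.i0 e h μ _)
  · right
    refine ⟨_, ?_, hiso⟩
    refine Set.mem_iUnion.2 ⟨i, Set.mem_iUnion.2 ⟨h, Set.mem_iUnion.2 ⟨μ, ?_⟩⟩⟩
    exact ⟨word_zz D hf.1, rfl⟩

theorem tame [IsAlgClosed k] (h2 : (2 : k) ≠ 0) (hdata : S_DATA.{u}) (htri : S_TRI.{u})
    (hinf : ¬ RepFinite k (H k)) : IsTame k (H k) :=
  ⟨hinf, fun d => ⟨famSet k d, excSet k d, famSet_finite d, excSet_finite d,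
    cover h2 hdata htri d⟩⟩

end Pool.Agent.J4H84.TH
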