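import Pool.Agent.J4H84.TH.Hopf

/-!
# `H` is finite-dimensional
-/

namespace Pool.Agent.J4H84.TH

set_option linter.unusedSimpArgs false

universe u v

section
variable {A : Type v} [Ring A] (S : Sys A)

/-- The monomials in `x`, `y`. -/
def Sys.mon : Fin 8 → A := ![1, S.x, S.y * S.x, S.x * (S.y * S.x), S.y, S.x * S.y,
  S.y * (S.x * S.y), S.x * (S.y * (S.x * S.y))]

/-- The monomials in `g`, `h`. -/
def Sys.ga : Fin 4 → A := ![1, S.g, S.l, S.g * S.l]

theorem Sys.x_mon (i : Fin 8) : S.x * S.mon i = 0 ∨ ∃ j, S.x * S.mon i = S.mon j := by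
  fin_cases i
  · right; exact ⟨1, mul_one _⟩
  · left; exact S.xx
  · right; exact ⟨3, rfl⟩
  · left; exact S.xx' _
  · right; exact ⟨5, rfl⟩
  · left; exact S.xx' _
  · right; exact ⟨7, rfl⟩
  · left; exact S.xx' _

theorem Sys.y_mon (i : Fin 8) : S.y * S.mon i = 0 ∨ ∃ j, S.y * S.mon i = S.mon j ∨
    S.y * S.mon i = - S.mon j := by
  fin_cases i
  · right; exact ⟨4, Or.inl (mul_one _)⟩
  · right; exact ⟨2, Or.inl rfl⟩
  · left; exact S.yy' _
  · right; exact ⟨7, Or.inr ((neg_eq_iff_eq_neg.2 S.zz1).symm)⟩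
  · left; exact S.yy
  · right; exact ⟨6, Or.inl rfl⟩
  · left; exact S.yy' _
  · left
    change S.y * (S.x * (S.y * (S.x * S.y))) = 0
    have := S.zz' S.y
    rw [S.yy, mul_zero, mul_zero, mul_zero] at this
    exact neg_eq_zero.1 this.symm

theorem Sys.g_mon (i : Fin 8) : S.g * S.mon i = S.mon i * S.g ∨
    S.g * S.mon i = -(S.mon i * S.g) := by
  fin_cases i <;>
  simp [Sys.mon, mul_assoc, S.gx, S.gx', S.gy, S.gy']

theorem Sys.l_mon (i : Fin 8) : S.l * S.mon i = S.mon i * S.l ∨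
    S.l * S.mon i = -(S.mon i * S.l) := by
  fin_cases i <;>
  simp [Sys.mon, mul_assoc, S.lx, S.lx', S.ly, S.ly']

theorem Sys.g_ga (i : Fin 4) : ∃ j, S.g * S.ga i = S.ga j := by
  fin_cases i
  · exact ⟨1, mul_one _⟩
  · exact ⟨0, S.gg⟩
  · exact ⟨3, rfl⟩
  · exact ⟨2, S.gg' _⟩

theorem Sys.l_ga (i : Fin 4) : ∃ j, S.l * S.ga i = S.ga j := by
  fin_cases i
  · exact ⟨2, mul_one _⟩
  · exact ⟨3, S.lg⟩
  · exact ⟨0, S.ll⟩
  · refine ⟨1, ?_⟩
    change S.l * (S.g * S.l) = S.g
    rw [S.lg', S.ll, mul_one]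

end

variable (k : Type u) [Field k]

/-- The span of the monomials. -/
noncomputable def W : Submodule k (H k) :=
  Submodule.span k (Set.range fun p : Fin 8 × Fin 4 => (sysH k).mon p.1 * (sysH k).ga p.2)

theorem mem_W (i : Fin 8) (j : Fin 4) : (sysH k).mon i * (sysH k).ga j ∈ W k :=
  Submodule.subset_span ⟨(i, j), rfl⟩

theorem W_gen (a : Gen) (i : Fin 8) (j : Fin 4) :
    gen k a * ((sysH k).mon i * (sysH k).ga j) ∈ W k := by
  cases a
  · change (sysH k).x * ((sysH k).mon i * (sysH k).ga j) ∈ W k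
    rw [← mul_assoc]
    obtain h | ⟨i', h⟩ := (sysH k).x_mon i
    · rw [h, zero_mul]; exact Submodule.zero_mem _
    · rw [h]; exact mem_W k _ _
  · change (sysH k).y * ((sysH k).mon i * (sysH k).ga j) ∈ W k
    rw [← mul_assoc]
    obtain h | ⟨i', h | h⟩ := (sysH k).y_mon i
    · rw [h, zero_mul]; exact Submodule.zero_mem _
    · rw [h]; exact mem_W k _ _
    · rw [h, neg_mul]; exact Submodule.neg_mem _ (mem_W k _ _)
  · change (sysH k).g * ((sysH k).mon i * (sysH k).ga j) ∈ W k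
    rw [← mul_assoc]
    obtain ⟨j', hj⟩ := (sysH k).g_ga j
    obtain h | h := (sysH k).g_mon i
    · rw [h, mul_assoc, hj]; exact mem_W k _ _
    · rw [h, neg_mul, mul_assoc, hj]; exact Submodule.neg_mem _ (mem_W k _ _)
  · change (sysH k).l * ((sysH k).mon i * (sysH k).ga j) ∈ W k
    rw [← mul_assoc]
    obtain ⟨j', hj⟩ := (sysH k).l_ga j
    obtain h | h := (sysH k).l_mon i
    · rw [h, mul_assoc, hj]; exact mem_W k _ _
    · rw [h, neg_mul, mul_assoc, hj]; exact Submodule.neg_mem _ (mem_W k _ _)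

theorem W_top : W k = ⊤ := by
  have h1 : ∀ a : H k, ∀ w ∈ W k, a * w ∈ W k := by
    intro a
    induction a using ind with
    | h1 c =>
      intro w hw
      rw [← Algebra.smul_def]
      exact Submodule.smul_mem _ _ hw
    | hg a =>
      intro w hw
      induction hw using Submodule.span_induction with
      | mem w hw =>
        obtain ⟨p, rfl⟩ := hw
        exact W_gen k a p.1 p.2
      | zero => rw [mul_zero]; exact Submodule.zero_mem _
      | add u v _ _ hu hv => rw [mul_add]; exact Submodule.add_mem _ hu hv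
      | smul c u _ hu => rw [Algebra.mul_smul_comm]; exact Submodule.smul_mem _ _ hu
    | hm a b ha hb =>
      intro w hw
      rw [mul_assoc]
      exact ha _ (hb _ hw)
    | ha a b ha hb =>
      intro w hw
      rw [add_mul]
      exact Submodule.add_mem _ (ha _ hw) (hb _ hw)
  rw [eq_top_iff]
  intro a _
  have h2 := h1 a ((sysH k).mon 0 * (sysH k).ga 0) (mem_W k 0 0)
  have h3 : (sysH k).mon 0 * (sysH k).ga 0 = 1 := mul_one _
  rwa [h3, mul_one] at h2

instance : FiniteDimensional k (H k) :=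
  ⟨by rw [← W_top k]; exact Submodule.fg_span (Set.finite_range _)⟩

end Pool.Agent.J4H84.TH
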