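import Pool.Agent.J4H84.TH.Spec
import Pool.Agent.J4H84.TH.Fam
import Pool.Agent.J4H98.TH.Data
import Pool.Agent.J4H98.TH.Tri
import Pool.Agent.J4H41.TH.Inf

/-!
# The final statements
-/

namespace Pool.Agent.J4H84.TH

universe u

variable (k : Type u) [Field k]

theorem finrank_H_le : Module.finrank k (H k) ≤ 32 := by
  have h1 : Submodule.span k (Set.range fun p : Fin 8 × Fin 4 =>
      (sysH k).mon p.1 * (sysH k).ga p.2) = ⊤ := W_top k
  have h2 : Set.finrank k (Set.range fun p : Fin 8 × Fin 4 =>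
      (sysH k).mon p.1 * (sysH k).ga p.2) = Module.finrank k (H k) := by
    rw [Set.finrank, h1, finrank_top]
  rw [← h2]
  refine (finrank_range_le_card _).trans ?_
  simp

theorem not_preirreducible (h2 : (2 : k) ≠ 0) : ¬ PreirreducibleSpace (Spc k (H k)) := by
  intro h
  have hX : IsOpen {P : Spc k (H k) | P.1 (EX k)} :=
    TopologicalSpace.isOpen_generateFrom_of_mem ⟨EX k, rfl⟩
  have hY : IsOpen {P : Spc k (H k) | P.1 (EY k)} :=
    TopologicalSpace.isOpen_generateFrom_of_mem ⟨EY k, rfl⟩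
  obtain ⟨P, hP1, hP2⟩ := nonempty_preirreducible_inter hX hY
    ⟨⟨(DX k).P, (DX k).prime h2⟩, EX_mem k⟩ ⟨⟨(DY k).P, (DY k).prime h2⟩, EY_mem k⟩
  exact not_both k h2 P.1 P.2 hP1 hP2

theorem isEmpty_homeo (h2 : (2 : k) ≠ 0) : IsEmpty (Spc k (H k) ≃ₜ P1 k) :=
  not_nonempty_iff.1 (not_homeo k h2)

theorem isTame_H [IsAlgClosed k] (h2 : (2 : k) ≠ 0) : IsTame k (H k) :=
  tame h2 Pool.Agent.J4H98.TH.t_DATA Pool.Agent.J4H98.TH.t_TRI (Pool.Agent.J4H41.TH.t_INF k h2)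

end Pool.Agent.J4H84.TH
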