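import Pool.Agent.J4H84.TH.Alg

/-!
# The Hopf algebra structure of `H`

`Δ x = x ⊗ 1 + g ⊗ x`, `Δ y = y ⊗ 1 + h ⊗ y`, `g`, `h` group-like.
-/

namespace Pool.Agent.J4H84.TH

open TensorProduct

set_option linter.unusedSimpArgs false

universe u v

section
variable {A : Type v} [Ring A] (S : Sys A)

theorem Sys.gx' (t : A) : S.g * (S.x * t) = -(S.x * (S.g * t)) := by
  rw [← mul_assoc, S.gx, neg_mul, mul_assoc]
theorem Sys.lx' (t : A) : S.l * (S.x * t) = -(S.x * (S.l * t)) := by
  rw [← mul_assoc, S.lx, neg_mul, mul_assoc]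
theorem Sys.gy' (t : A) : S.g * (S.y * t) = S.y * (S.g * t) := by
  rw [← mul_assoc, S.gy, mul_assoc]
theorem Sys.ly' (t : A) : S.l * (S.y * t) = -(S.y * (S.l * t)) := by
  rw [← mul_assoc, S.ly, neg_mul, mul_assoc]
theorem Sys.gg' (t : A) : S.g * (S.g * t) = t := by
  rw [← mul_assoc, S.gg, one_mul]
theorem Sys.ll' (t : A) : S.l * (S.l * t) = t := by
  rw [← mul_assoc, S.ll, one_mul]
theorem Sys.lg : S.l * S.g = S.g * S.l := S.gl.symm
theorem Sys.lg' (t : A) : S.l * (S.g * t) = S.g * (S.l * t) := by
  rw [← mul_assoc, S.lg, mul_assoc]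
theorem Sys.xx' (t : A) : S.x * (S.x * t) = 0 := by
  rw [← mul_assoc, S.xx, zero_mul]
theorem Sys.yy' (t : A) : S.y * (S.y * t) = 0 := by
  rw [← mul_assoc, S.yy, zero_mul]
theorem Sys.zz1 : S.x * (S.y * (S.x * S.y)) = -(S.y * (S.x * (S.y * S.x))) := by
  have := S.zz
  simp only [mul_assoc] at this
  exact eq_neg_of_add_eq_zero_left this
theorem Sys.zz' (t : A) : S.x * (S.y * (S.x * (S.y * t))) =
    -(S.y * (S.x * (S.y * (S.x * t)))) := by
  have := congrArg (· * t) S.zz1
  simpa only [mul_assoc, neg_mul] using this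

end

section
variable {k : Type u} [Field k] {A : Type v} [Ring A] [Algebra k A] (S : Sys A)

/-- The comultiplication on the generators. -/
noncomputable def Sys.tens : Sys (A ⊗[k] A) where
  x := S.x ⊗ₜ 1 + S.g ⊗ₜ S.x
  y := S.y ⊗ₜ 1 + S.l ⊗ₜ S.y
  g := S.g ⊗ₜ S.g
  l := S.l ⊗ₜ S.l
  gg := by
    simp only [Algebra.TensorProduct.tmul_mul_tmul, S.gg, Algebra.TensorProduct.one_def]
  ll := by
    simp only [Algebra.TensorProduct.tmul_mul_tmul, S.ll, Algebra.TensorProduct.one_def]
  gl := by
    simp only [Algebra.TensorProduct.tmul_mul_tmul, S.gl]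
  gx := by
    simp only [mul_add, add_mul, Algebra.TensorProduct.tmul_mul_tmul, S.gx, mul_one, one_mul,
      neg_tmul, tmul_neg, neg_add]
  lx := by
    simp only [mul_add, add_mul, Algebra.TensorProduct.tmul_mul_tmul, S.lx, mul_one, one_mul,
      neg_tmul, tmul_neg, neg_add, S.lg]
  gy := by
    simp only [mul_add, add_mul, Algebra.TensorProduct.tmul_mul_tmul, S.gy, mul_one, one_mul,
      neg_tmul, tmul_neg, neg_add, S.lg]
  ly := by
    simp only [mul_add, add_mul, Algebra.TensorProduct.tmul_mul_tmul, S.ly, mul_one, one_mul,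
      neg_tmul, tmul_neg, neg_add]
  xx := by
    simp only [mul_add, add_mul, Algebra.TensorProduct.tmul_mul_tmul, S.gx, mul_one, one_mul,
      neg_tmul, tmul_neg, S.xx, zero_tmul, tmul_zero]
    abel
  yy := by
    simp only [mul_add, add_mul, Algebra.TensorProduct.tmul_mul_tmul, S.ly, mul_one, one_mul,
      neg_tmul, tmul_neg, S.yy, zero_tmul, tmul_zero]
    abel
  zz := by
    simp only [mul_add, add_mul, Algebra.TensorProduct.tmul_mul_tmul, mul_one, one_mul,
      mul_assoc, S.gx, S.gx', S.lx, S.lx', S.gy, S.gy', S.ly, S.ly', S.gg, S.gg', S.ll, S.ll',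
      S.lg, S.lg', S.xx, S.xx', S.yy, S.yy', S.zz1, S.zz',
      neg_tmul, tmul_neg, zero_tmul, tmul_zero, mul_neg, neg_mul, neg_neg, mul_zero, zero_mul,
      neg_zero, add_zero, zero_add]
    abel

/-- The counit on the generators. -/
def sysOne (k : Type u) [Field k] : Sys k where
  x := 0
  y := 0
  g := 1
  l := 1
  gg := by simp
  ll := by simp
  gl := by simp
  gx := by simp
  lx := by simp
  gy := by simp
  ly := by simp
  xx := by simp
  yy := by simp
  zz := by simp

/-- The antipode on the generators. -/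
def Sys.anti : Sys (MulOpposite A) where
  x := MulOpposite.op (-(S.g * S.x))
  y := MulOpposite.op (-(S.l * S.y))
  g := MulOpposite.op S.g
  l := MulOpposite.op S.l
  gg := by rw [← MulOpposite.op_mul, S.gg, MulOpposite.op_one]
  ll := by rw [← MulOpposite.op_mul, S.ll, MulOpposite.op_one]
  gl := by rw [← MulOpposite.op_mul, ← MulOpposite.op_mul, S.gl]
  gx := by
    rw [← MulOpposite.op_mul, ← MulOpposite.op_mul, ← MulOpposite.op_neg]
    congr 1
    simp only [neg_mul, mul_assoc, S.gx, S.gx', mul_neg, S.gg, S.gg', neg_neg, mul_one]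
  lx := by
    rw [← MulOpposite.op_mul, ← MulOpposite.op_mul, ← MulOpposite.op_neg]
    congr 1
    simp only [neg_mul, mul_assoc, S.gx, S.gx', S.lx, S.lx', mul_neg, S.lg, S.lg', neg_neg,
      mul_one]
  gy := by
    rw [← MulOpposite.op_mul, ← MulOpposite.op_mul]
    congr 1
    simp only [neg_mul, mul_assoc, S.gy, S.gy', S.ly, S.ly', mul_neg, S.lg, S.lg', neg_neg,
      mul_one]
  ly := by
    rw [← MulOpposite.op_mul, ← MulOpposite.op_mul, ← MulOpposite.op_neg]
    congr 1
    simp only [neg_mul, mul_assoc, S.gy, S.gy', S.ly, S.ly', mul_neg, S.ll, S.ll', neg_neg,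
      mul_one]
  xx := by
    rw [← MulOpposite.op_mul, ← MulOpposite.op_zero]
    congr 1
    simp only [neg_mul, mul_assoc, S.gx, S.gx', mul_neg, S.gg, S.gg', neg_neg, mul_one, S.xx,
      S.xx', neg_zero, mul_zero]
  yy := by
    rw [← MulOpposite.op_mul, ← MulOpposite.op_zero]
    congr 1
    simp only [neg_mul, mul_assoc, S.ly, S.ly', mul_neg, S.ll, S.ll', neg_neg, mul_one, S.yy,
      S.yy', neg_zero, mul_zero]
  zz := by
    simp only [← MulOpposite.op_mul, ← MulOpposite.op_add]
    rw [← MulOpposite.op_zero]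
    congr 1
    simp only [neg_mul, mul_assoc, S.gx, S.gx', S.lx, S.lx', S.gy, S.gy', S.ly, S.ly', S.gg,
      S.gg', S.ll, S.ll', S.lg, S.lg', S.zz1, S.zz', mul_neg, neg_neg, mul_one]
    abel

end

variable (k : Type u) [Field k]

/-- The comultiplication. -/
noncomputable def comulH : H k →ₐ[k] H k ⊗[k] H k := lift (sysH k).tens

/-- The counit. -/
noncomputable def counitH : H k →ₐ[k] k := lift (sysOne k)

/-- The antipode, as an algebra homomorphism into the opposite algebra. -/
noncomputable def antiH : H k →ₐ[k] MulOpposite (H k) := lift (sysH k).anti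

@[simp] theorem comulH_X : comulH k (X k) = X k ⊗ₜ 1 + G k ⊗ₜ X k := lift_gen _ _
@[simp] theorem comulH_Y : comulH k (Y k) = Y k ⊗ₜ 1 + L k ⊗ₜ Y k := lift_gen _ _
@[simp] theorem comulH_G : comulH k (G k) = G k ⊗ₜ G k := lift_gen _ _
@[simp] theorem comulH_L : comulH k (L k) = L k ⊗ₜ L k := lift_gen _ _
@[simp] theorem counitH_X : counitH k (X k) = 0 := lift_gen _ _
@[simp] theorem counitH_Y : counitH k (Y k) = 0 := lift_gen _ _
@[simp] theorem counitH_G : counitH k (G k) = 1 := lift_gen _ _
@[simp] theorem counitH_L : counitH k (L k) = 1 := lift_gen _ _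
theorem antiH_X : antiH k (X k) = MulOpposite.op (-(G k * X k)) := lift_gen _ _
theorem antiH_Y : antiH k (Y k) = MulOpposite.op (-(L k * Y k)) := lift_gen _ _
theorem antiH_G : antiH k (G k) = MulOpposite.op (G k) := lift_gen _ _
theorem antiH_L : antiH k (L k) = MulOpposite.op (L k) := lift_gen _ _

theorem coassocH : (Algebra.TensorProduct.assoc k k k (H k) (H k) (H k)).toAlgHom.comp
      ((Algebra.TensorProduct.map (comulH k) (.id k (H k))).comp (comulH k)) =
      (Algebra.TensorProduct.map (.id k (H k)) (comulH k)).comp (comulH k) := by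
  refine hom_ext ?_ ?_ ?_ ?_
  · simp [TensorProduct.add_tmul, TensorProduct.tmul_add, add_assoc]
    rfl
  · simp [TensorProduct.add_tmul, TensorProduct.tmul_add, add_assoc]
    rfl
  · simp
  · simp

noncomputable instance : Bialgebra k (H k) :=
  Bialgebra.ofAlgHom (comulH k) (counitH k) (coassocH k)
    (hom_ext (by simp) (by simp) (by simp) (by simp))
    (hom_ext (by simp) (by simp) (by simp) (by simp))

theorem comul_eq (a : H k) : CoalgebraStruct.comul (R := k) a = comulH k a := rfl
theorem counit_eq (a : H k) : CoalgebraStruct.counit (R := k) a = counitH k a := rfl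

/-- The antipode, as a linear map. -/
noncomputable def antipodeH : H k →ₗ[k] H k :=
  (MulOpposite.opLinearEquiv k).symm.toLinearMap ∘ₗ (antiH k).toLinearMap

theorem antipodeH_mul (a b : H k) : antipodeH k (a * b) = antipodeH k b * antipodeH k a := by
  simp [antipodeH]
theorem antipodeH_alg (c : k) : antipodeH k (algebraMap k (H k) c) = algebraMap k (H k) c := by
  simp [antipodeH]
theorem antipodeH_one : antipodeH k 1 = 1 := by
  simp [antipodeH]
theorem antipodeH_X : antipodeH k (X k) = -(G k * X k) := by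
  simp [antipodeH, antiH_X]
theorem antipodeH_Y : antipodeH k (Y k) = -(L k * Y k) := by
  simp [antipodeH, antiH_Y]
theorem antipodeH_G : antipodeH k (G k) = G k := by
  simp [antipodeH, antiH_G]
theorem antipodeH_L : antipodeH k (L k) = L k := by
  simp [antipodeH, antiH_L]

/-- `m (S ⊗ id) t`. -/
noncomputable def mulL : H k ⊗[k] H k →ₗ[k] H k :=
  LinearMap.mul' k (H k) ∘ₗ (antipodeH k).rTensor (H k)
/-- `m (id ⊗ S) t`. -/
noncomputable def mulR : H k ⊗[k] H k →ₗ[k] H k :=
  LinearMap.mul' k (H k) ∘ₗ (antipodeH k).lTensor (H k)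

theorem mulL_tmul (a b : H k) : mulL k (a ⊗ₜ b) = antipodeH k a * b := by
  simp [mulL]
theorem mulR_tmul (a b : H k) : mulR k (a ⊗ₜ b) = a * antipodeH k b := by
  simp [mulR]

/-- `mulL (s * t)` when `mulL s` is a scalar. -/
theorem mulL_mul (s t : H k ⊗[k] H k) (c : k) (hs : mulL k s = algebraMap k (H k) c) :
    mulL k (s * t) = c • mulL k t := by
  induction t with
  | zero => simp
  | add t u ht hu => rw [mul_add, map_add, ht, hu, map_add, smul_add]
  | tmul a b =>
    have h : ∀ s : H k ⊗[k] H k, mulL k (s * a ⊗ₜ b) = antipodeH k a * mulL k s * b := by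
      intro s
      induction s with
      | zero => simp
      | add s u hs hu => rw [add_mul, map_add, hs, hu, map_add, mul_add, add_mul]
      | tmul p q =>
        rw [Algebra.TensorProduct.tmul_mul_tmul, mulL_tmul, mulL_tmul, antipodeH_mul]
        simp only [mul_assoc]
    rw [h, hs, mulL_tmul, ← Algebra.commutes, Algebra.smul_def]
    simp only [mul_assoc]

/-- `mulR (s * t)` when `mulR t` is a scalar. -/
theorem mulR_mul (s t : H k ⊗[k] H k) (c : k) (ht : mulR k t = algebraMap k (H k) c) :
    mulR k (s * t) = c • mulR k s := by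
  induction s with
  | zero => simp
  | add s u hs hu => rw [add_mul, map_add, hs, hu, map_add, smul_add]
  | tmul a b =>
    have h : ∀ t : H k ⊗[k] H k, mulR k (a ⊗ₜ b * t) = a * mulR k t * antipodeH k b := by
      intro s
      induction s with
      | zero => simp
      | add s u hs hu => rw [mul_add, map_add, hs, hu, map_add, mul_add, add_mul]
      | tmul p q =>
        rw [Algebra.TensorProduct.tmul_mul_tmul, mulR_tmul, mulR_tmul, antipodeH_mul]
        simp only [mul_assoc]
    rw [h, ht, mulR_tmul, ← Algebra.commutes, Algebra.smul_def]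
    simp only [mul_assoc]

theorem axiomL (a : H k) : mulL k (comulH k a) = algebraMap k (H k) (counitH k a) := by
  have hone : mulL k 1 = 1 := by
    rw [Algebra.TensorProduct.one_def, mulL_tmul, antipodeH_one, one_mul]
  induction a using ind with
  | h1 c =>
    rw [AlgHom.commutes, AlgHom.commutes, Algebra.algebraMap_eq_smul_one, map_smul, hone,
      Algebra.algebraMap_self, RingHom.id_apply, Algebra.algebraMap_eq_smul_one]
  | hg a =>
    cases a
    · change mulL k (comulH k (X k)) = algebraMap k (H k) (counitH k (X k))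
      rw [comulH_X, counitH_X, map_add, mulL_tmul, mulL_tmul, antipodeH_X, antipodeH_G, map_zero,
        mul_one, neg_add_cancel]
    · change mulL k (comulH k (Y k)) = algebraMap k (H k) (counitH k (Y k))
      rw [comulH_Y, counitH_Y, map_add, mulL_tmul, mulL_tmul, antipodeH_Y, antipodeH_L, map_zero,
        mul_one, neg_add_cancel]
    · change mulL k (comulH k (G k)) = algebraMap k (H k) (counitH k (G k))
      rw [comulH_G, counitH_G, mulL_tmul, antipodeH_G, map_one]
      exact (sysH k).gg
    · change mulL k (comulH k (L k)) = algebraMap k (H k) (counitH k (L k))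
      rw [comulH_L, counitH_L, mulL_tmul, antipodeH_L, map_one]
      exact (sysH k).ll
  | hm a b ha hb =>
    rw [map_mul, mulL_mul k _ _ _ ha, hb, map_mul, map_mul, Algebra.smul_def]
  | ha a b ha hb => rw [map_add, map_add, ha, hb, map_add, map_add]

theorem axiomR (a : H k) : mulR k (comulH k a) = algebraMap k (H k) (counitH k a) := by
  have hone : mulR k 1 = 1 := by
    rw [Algebra.TensorProduct.one_def, mulR_tmul, antipodeH_one, one_mul]
  induction a using ind with
  | h1 c =>
    rw [AlgHom.commutes, AlgHom.commutes, Algebra.algebraMap_eq_smul_one, map_smul, hone,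
      Algebra.algebraMap_self, RingHom.id_apply, Algebra.algebraMap_eq_smul_one]
  | hg a =>
    cases a
    · change mulR k (comulH k (X k)) = algebraMap k (H k) (counitH k (X k))
      rw [comulH_X, counitH_X, map_add, mulR_tmul, mulR_tmul, antipodeH_X, antipodeH_one, map_zero,
        mul_one, mul_neg]
      exact (congrArg (X k + -·) ((sysH k).gg' (X k))).trans (add_neg_cancel _)
    · change mulR k (comulH k (Y k)) = algebraMap k (H k) (counitH k (Y k))
      rw [comulH_Y, counitH_Y, map_add, mulR_tmul, mulR_tmul, antipodeH_Y, antipodeH_one, map_zero,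
        mul_one, mul_neg]
      exact (congrArg (Y k + -·) ((sysH k).ll' (Y k))).trans (add_neg_cancel _)
    · change mulR k (comulH k (G k)) = algebraMap k (H k) (counitH k (G k))
      rw [comulH_G, counitH_G, mulR_tmul, antipodeH_G, map_one]
      exact (sysH k).gg
    · change mulR k (comulH k (L k)) = algebraMap k (H k) (counitH k (L k))
      rw [comulH_L, counitH_L, mulR_tmul, antipodeH_L, map_one]
      exact (sysH k).ll
  | hm a b ha hb =>
    rw [map_mul, mulR_mul k _ _ _ hb, ha, map_mul, map_mul, Algebra.smul_def, Algebra.commutes]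
  | ha a b ha hb => rw [map_add, map_add, ha, hb, map_add, map_add]

noncomputable instance : HopfAlgebra k (H k) where
  antipode := antipodeH k
  mul_antipode_rTensor_comul := by
    refine LinearMap.ext fun a => ?_
    exact axiomL k a
  mul_antipode_lTensor_comul := by
    refine LinearMap.ext fun a => ?_
    exact axiomR k a

end Pool.Agent.J4H84.TH
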