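import Pool.Agent.J4H84.TH.Tame
import Pool.Agent.J4H84.TH.Hopf

/-!
# Jobs for the tameness of `H` (MP_868e2f_al)

Modules over `H` are `ℤ/4`-graded spaces with operators `a` of degree `1` and `b` of degree `-1`
with `a b = b a = 0`.  The word of a string or of a band is a sequence of letters: `true` stands
for an arrow `a` from the position `m` to the position `m + 1`, `false` for an arrow `b` from the
position `m + 1` to the position `m`.  The three jobs below are independent.
-/

namespace Pool.Agent.J4H84.TH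

universe u

section
variable {k : Type u} [Field k] {V : Type u} [AddCommGroup V] [Module k V]

/-- `S W = {b | ∃ a ∈ W, (b, a) ∈ S}` for a linear relation `S`. -/
def relApp (S : Submodule k (V × V)) (W : Submodule k V) : Submodule k V :=
  (S ⊓ W.comap (LinearMap.snd k V V)).map (LinearMap.fst k V V)

/-- `S ^ m W` -/
def relIter (S : Submodule k (V × V)) : ℕ → Submodule k V → Submodule k V
  | 0, W => W
  | m + 1, W => relApp S (relIter S m W)

end

/-- JOB REL (linear algebra).  Proof: `X⁺ = S^M ⊤`, `X⁻ = S^M ⊥` for `M` large, `S X⁺ = X⁺`,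
`S X⁻ = X⁻`, `Q = X⁺ / X⁻`.  The relation `{([a], [b]) | (b, a) ∈ S, a ∈ X⁺}` on `Q` is
single-valued (`a ∈ X⁻` gives `b ∈ X⁻`) and each `[b]` occurs; choose `h : Q → Q` linear with
`(h [b], [b])` in it; `h` is injective, hence bijective, and `A = h⁻¹`.
`g`: by descending induction on `m` there is a linear `g_m : V → Q` which is the projection on `X⁺`
and `g_m b = A (g_m a)` for `(b, a) ∈ S`, `a ∈ S^m ⊤`: given `g_{m+1}`, the relation
`{(a, A⁻¹ g_{m+1} b) | (b, a) ∈ S, a ∈ S^m ⊤} + {(v, g_{m+1} v) | v ∈ S^{m+1} ⊤}` is single-valued,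
hence it extends to a linear map `g_m`.
`f`: by descending induction on `m` there is `f_m : Q → X⁺` linear, `[f_m q] = q`, such that for
every `q` there is `a` with `(f_m (A q), a) ∈ S` and `a - f_m q ∈ S^m ⊥`: for `f_m` take a linear
choice of this `a` for `f_{m+1}`.  (`f_0` is `f`.) -/
def S_REL : Prop := ∀ (k V : Type u) [Field k] [AddCommGroup V] [Module k V]
  [FiniteDimensional k V] (S : Submodule k (V × V)), (∀ m, relIter S m ⊥ ≠ relIter S m ⊤) →
  ∃ (Q : Type u) (_ : AddCommGroup Q) (_ : Module k Q) (A : Q ≃ₗ[k] Q) (f : Q →ₗ[k] V)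
    (g : V →ₗ[k] Q), FiniteDimensional k Q ∧ Nontrivial Q ∧ (∀ q, (f (A q), f q) ∈ S) ∧
    (∀ b a, (b, a) ∈ S → g b = A (g a)) ∧ ∀ q, g (f q) = q

/-- The Jordan block, over any commutative ring. -/
def jord (r : ℕ) {R : Type u} [CommRing R] (c : R) : Matrix (Fin r) (Fin r) R :=
  fun i j => if i = j then c else if (i : ℕ) = j + 1 then 1 else 0

/-- JOB JORDAN (linear algebra).  Proof: `μ` an eigenvalue of `A`, `N = A - μ`, `r + 1` the least
`s` with `ker N^s = ker N^(s+1)`, `v ∈ ker N^(r+1)` with `N^r v ≠ 0`; `N^r v ∉ range N^(r+1)`;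
`φ` a functional which kills `range N^(r+1)` with `φ (N^r v) = 1`; `f w = ∑ w i • N^i v`,
`(g q) i = φ (N^(r-i) q)`; `g ∘ f` is unitriangular. -/
def S_JORDAN : Prop := ∀ (k Q : Type u) [Field k] [IsAlgClosed k] [AddCommGroup Q] [Module k Q]
  [FiniteDimensional k Q] [Nontrivial Q] (A : Q →ₗ[k] Q),
  ∃ (r : ℕ) (μ : k) (f : (Fin (r + 1) → k) →ₗ[k] Q) (g : Q →ₗ[k] (Fin (r + 1) → k)),
    (∀ w, A (f w) = f ((jord (r + 1) μ).mulVec w)) ∧
    (∀ q, g (A q) = (jord (r + 1) μ).mulVec (g q)) ∧ Function.Injective (fun w => g (f w))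

/-- A `ℤ/4`-graded vector space with operators `a` of degree `1`, `b` of degree `-1`,
`a b = b a = 0`; `π i` is the projection to the component of degree `i`. -/
structure GMod (k V : Type u) [Field k] [AddCommGroup V] [Module k V] where
  a : V →ₗ[k] V
  b : V →ₗ[k] V
  π : ZMod 4 → V →ₗ[k] V
  ab : ∀ v, a (b v) = 0
  ba : ∀ v, b (a v) = 0
  sum : ∀ v, ∑ i, π i v = v
  idem : ∀ i v, π i (π i v) = π i v
  orth : ∀ i j v, i ≠ j → π i (π j v) = 0
  aπ : ∀ i v, a (π i v) = π (i + 1) (a v)
  bπ : ∀ i v, b (π (i + 1) v) = π i (b v)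

section
variable {k V : Type u} [Field k] [AddCommGroup V] [Module k V]

/-- The component of degree `i`. -/
def GMod.G (M : GMod k V) (i : ZMod 4) : Submodule k V := LinearMap.range (M.π i)

/-- The relation of a finite word, applied to a subspace: `true` is the preimage under `a`,
`false` is the image under `b`. -/
def GMod.R (M : GMod k V) : List Bool → ZMod 4 → Submodule k V → Submodule k V
  | [], _, W => W
  | true :: C, i, W => (M.R C (i + 1) W).comap M.a ⊓ M.G i
  | false :: C, i, W => (M.R C (i + 1) W).map M.b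

end

/-- JOB WORD (combinatorics of the filtration by words).  `List.ofFn fun m : Fin N => u m` is the
prefix of length `N` of the infinite word `u`.
Proof: `R C i` is monotone, `R (C ++ [c]) i W = R C i (R [c] (i + |C|) W)`, `b G ≤ ker a`.
Case 1: `ker b ≠ range a`.  Then there is `i` with `U' < U`, `U = ker b ⊓ G i`,
`U' = G i ⊓ range a = a G (i-1)`.  Let `P C : (U ⊓ R C i 0) ⊔ U' ≠ (U ⊓ R C i G) ⊔ U'`
(`G = G (i + |C|)`), `Fin C : (U ⊓ R C i (b G)) ⊔ U' ≠ (U ⊓ R C i (ker a ⊓ G)) ⊔ U'`.
`P []` holds and `P C` implies `P (C ++ [false])` or `Fin C` or `P (C ++ [true])`, because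
`R C 0 = R (C b) 0 ≤ R (C b) G = R C (b G) ≤ R C (ker a ⊓ G) = R (C a) 0 ≤ R (C a) G = R C G`.
If `Fin C` for some `C`: string data.  Otherwise there is an infinite word `w` all of whose
prefixes satisfy `P`, hence `R (w|N) 0 ≠ R (w|N) G` for all `N`.
Case 2: `ker b = range a`.  Then `ker a = range b` (dimensions); `G i ≠ 0` for some `i`; the same
with `U = ⊤`, `U' = 0`, `Fin C` is impossible.
Periodicity: the shifts of `w` have the same property (at the degree `i + shift`).  For each `N`
the number of words `C` of length `N` with `R C i 0 ≠ R C i G` is at most `dim V` (the intervals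
`[R C i 0, R C i G]` are disjoint and ordered; induction on `N` for
`∑_C (dim R C i G - dim R C i 0) ≤ dim V`), hence two of the shifts of `w` by `0, 4, …, 4 dim V`
have the same prefix of length `N`; pigeonhole over all `N`: two of them are equal.  So the smaller
shift `u` is periodic; take for `n` the least period which is a positive multiple of `4`. -/
def S_WORD : Prop := ∀ (k V : Type u) [Field k] [AddCommGroup V] [Module k V]
  [FiniteDimensional k V] [Nontrivial V] (M : GMod k V),
  (∃ (i : ZMod 4) (C : List Bool) (v : V), v ∈ M.G i ∧ M.b v = 0 ∧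
    v ∈ M.R C i (LinearMap.ker M.a ⊓ M.G (i + C.length)) ∧
    v ∉ M.R C i ((M.G (i + C.length + 1)).map M.b) ⊔ LinearMap.range M.a) ∨
  ∃ (j : ZMod 4) (n : ℕ) (u : ℕ → Bool), 0 < n ∧ 4 ∣ n ∧ (∀ m, u (m + n) = u m) ∧
    (∀ p, 0 < p → p < n → 4 ∣ p → ∃ m, u (m + p) ≠ u m) ∧
    ∀ N : ℕ, M.R (List.ofFn fun m : Fin N => u m) j ⊥ ≠
      M.R (List.ofFn fun m : Fin N => u m) j (M.G (j + N))

/-- JOB INF.  Proof: for `c ∈ k` let `M_c` have the basis `z₀, z₁, z₂, z₃` with
`x z₀ = z₁`, `x z₂ = z₃`, `y z₂ = z₁`, `y z₀ = c z₃`, all others `0`, weights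
`(g, h) = (1, 1), (-1, -1), (-1, 1), (1, -1)`.  The weight spaces are one-dimensional (`2 ≠ 0`), so
every homomorphism `M_c → M_d` is diagonal, and then a scalar (`p₀ = p₁ = p₂ = p₃`) with
`c p₃ = d p₀`; so `M_c` is indecomposable, and `M_c ≅ M_d` only if `c = d`; `k` is infinite. -/
def S_INF : Prop := ∀ (k : Type u) [Field k] [IsAlgClosed k], (2 : k) ≠ 0 → ¬ RepFinite k (H k)

end Pool.Agent.J4H84.TH
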