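import Mathlib

/-!
# Linear choice and extension lemmas
-/

namespace Pool.Agent.J4H84.TH

section
variable {k : Type*} [Field k] {Q V : Type*} [AddCommGroup Q] [Module k Q] [AddCommGroup V]
  [Module k V]

/-- A total linear relation contains the graph of a linear map. -/
theorem lin_choice (T : Submodule k (Q × V)) (h : ∀ q, ∃ v, (q, v) ∈ T) :
    ∃ f : Q →ₗ[k] V, ∀ q, (q, f q) ∈ T := by
  have hs : Function.Surjective ((LinearMap.fst k Q V).comp T.subtype) := by
    intro q
    obtain ⟨v, hv⟩ := h q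
    exact ⟨⟨(q, v), hv⟩, rfl⟩
  obtain ⟨s, hs⟩ := LinearMap.exists_rightInverse_of_surjective _ (LinearMap.range_eq_top.2 hs)
  refine ⟨(LinearMap.snd k Q V).comp (T.subtype.comp s), fun q => ?_⟩
  have h1 : ((s q : T) : Q × V).1 = q := congrArg (fun f => f q) hs
  have h2 := (s q).2
  have h3 : ((s q : T) : Q × V) = (q, ((s q : T) : Q × V).2) := Prod.ext h1 rfl
  rw [h3] at h2
  exact h2

/-- A single-valued linear relation is contained in the graph of a linear map. -/
theorem lin_ext (T : Submodule k (V × Q)) (h : ∀ q, (0, q) ∈ T → q = 0) :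
    ∃ f : V →ₗ[k] Q, ∀ v q, (v, q) ∈ T → f v = q := by
  obtain ⟨s0, hs0⟩ : ∃ s0 : (T.map (LinearMap.fst k V Q)) →ₗ[k] Q,
      ∀ v : T.map (LinearMap.fst k V Q), ((v : V), s0 v) ∈ T := by
    have hs : Function.Surjective ((LinearMap.fst k V Q).submoduleMap T) :=
      LinearMap.submoduleMap_surjective _ _
    obtain ⟨s, hs⟩ := LinearMap.exists_rightInverse_of_surjective _ (LinearMap.range_eq_top.2 hs)
    refine ⟨(LinearMap.snd k V Q).comp (T.subtype.comp s), fun v => ?_⟩
    have h1 : ((s v : T) : V × Q).1 = v := congrArg (fun f => ((f v : _) : V)) hs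
    have h2 := (s v).2
    have h3 : ((s v : T) : V × Q) = ((v : V), ((s v : T) : V × Q).2) := Prod.ext h1 rfl
    rw [h3] at h2
    exact h2
  obtain ⟨f, hf⟩ := LinearMap.exists_extend s0
  refine ⟨f, fun v q hv => ?_⟩
  have hv' : v ∈ T.map (LinearMap.fst k V Q) := ⟨(v, q), hv, rfl⟩
  have h1 : f v = s0 ⟨v, hv'⟩ := congrArg (fun g => g ⟨v, hv'⟩) hf
  have h2 := hs0 ⟨v, hv'⟩
  have h3 : (0, s0 ⟨v, hv'⟩ - q) ∈ T := by
    have := T.sub_mem h2 hv
    simpa using this
  rw [h1]
  exact sub_eq_zero.1 (h _ h3)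

end

end Pool.Agent.J4H84.TH
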