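import Pool.Agent.J4H84.TH.Conv2
import Pool.Agent.J4H84.TH.Jobs

/-!
# The matrices of a string or band module
-/

namespace Pool.Agent.J4H84.TH

universe u v

/-- The position `j` is the one after `i` (cyclically), with the right degree. -/
def nx (n : ℕ) (i j : Fin n) : Prop :=
  (j : ℕ) = ((i : ℕ) + 1) % n ∧ ((j : ℕ) : ZMod 4) = ((i : ℕ) : ZMod 4) + 1

instance (n : ℕ) (i j : Fin n) : Decidable (nx n i j) := by unfold nx; infer_instance

theorem nx_inj {n : ℕ} {i i' j : Fin n} (h : nx n i j) (h' : nx n i' j) : i = i' := by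
  have h1 := h.1
  rw [h'.1] at h1
  have h2 := i.2
  have h3 := i'.2
  apply Fin.ext
  rcases Nat.lt_or_ge ((i : ℕ) + 1) n with h4 | h4 <;>
    rcases Nat.lt_or_ge ((i' : ℕ) + 1) n with h5 | h5
  · rw [Nat.mod_eq_of_lt h4, Nat.mod_eq_of_lt h5] at h1; omega
  · have : (i' : ℕ) + 1 = n := by omega
    rw [this, Nat.mod_self, Nat.mod_eq_of_lt h4] at h1; omega
  · have : (i : ℕ) + 1 = n := by omega
    rw [this, Nat.mod_self, Nat.mod_eq_of_lt h5] at h1; omega
  · omega

section
variable {R : Type v} [CommRing R] {n r : ℕ} (ε : Fin n → Fin 3) (i0 : ZMod 4)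
  (T : Matrix (Fin r) (Fin r) R)

/-- The block of the arrow between the positions `i` and `i + 1`. -/
def tw (T : Matrix (Fin r) (Fin r) R) (i : Fin n) : Matrix (Fin r) (Fin r) R :=
  if (i : ℕ) + 1 = n then T else 1

/-- The operator `a`. -/
def wA : Matrix (Fin n × Fin r) (Fin n × Fin r) R := fun p q =>
  if ε q.1 = 2 ∧ nx n q.1 p.1 then tw T q.1 p.2 q.2 else 0

/-- The operator `b`. -/
def wB : Matrix (Fin n × Fin r) (Fin n × Fin r) R := fun p q =>
  if ε p.1 = 0 ∧ nx n p.1 q.1 then tw T p.1 p.2 q.2 else 0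

/-- The projections. -/
def wP (R : Type v) [CommRing R] (n r : ℕ) (i0 i : ZMod 4) :
    Matrix (Fin n × Fin r) (Fin n × Fin r) R :=
  Matrix.diagonal fun p => if i0 + ((p.1 : ℕ) : ZMod 4) = i then 1 else 0

/-- The graded operators of the word module. -/
def wG : GAlg (Matrix (Fin n × Fin r) (Fin n × Fin r) R) where
  a := wA ε T
  b := wB ε T
  π := wP R n r i0
  ab := by
    ext p q
    rw [Matrix.mul_apply, Matrix.zero_apply]
    refine Finset.sum_eq_zero fun m _ => ?_
    simp only [wA, wB]
    split_ifs with h1 h2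
    · rw [h1.1] at h2
      exact absurd h2.1 (by decide)
    · rw [mul_zero]
    · rw [zero_mul]
    · rw [zero_mul]
  ba := by
    ext p q
    rw [Matrix.mul_apply, Matrix.zero_apply]
    refine Finset.sum_eq_zero fun m _ => ?_
    simp only [wA, wB]
    split_ifs with h1 h2
    · have := nx_inj h1.2 h2.2
      rw [this, h2.1] at h1
      exact absurd h1.1 (by decide)
    · rw [mul_zero]
    · rw [zero_mul]
    · rw [zero_mul]
  sum := by
    have h : ∀ z : ZMod 4, (if z = 0 then (1 : R) else 0) + (if z = 1 then 1 else 0) +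
        (if z = 2 then 1 else 0) + (if z = 3 then 1 else 0) = 1 := by
      have e : ∀ z : ZMod 4, z = 0 ∨ z = 1 ∨ z = 2 ∨ z = 3 := by decide
      have e1 : (1 : ZMod 4) ≠ 0 := by decide
      have e2 : (2 : ZMod 4) ≠ 0 := by decide
      have e3 : (2 : ZMod 4) ≠ 1 := by decide
      have e4 : (3 : ZMod 4) ≠ 0 := by decide
      have e5 : (3 : ZMod 4) ≠ 1 := by decide
      have e6 : (3 : ZMod 4) ≠ 2 := by decide
      intro z
      rcases e z with rfl | rfl | rfl | rfl <;>
      simp [e1, e2, e3, e4, e5, e6, e1.symm, e2.symm, e3.symm, e4.symm, e5.symm, e6.symm]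
    simp only [wP, Matrix.diagonal_add, h]
    exact Matrix.diagonal_one
  idem := by
    intro i
    simp only [wP, Matrix.diagonal_mul_diagonal]
    congr 1
    funext p
    split_ifs <;> simp
  orth := by
    intro i j hij
    simp only [wP, Matrix.diagonal_mul_diagonal]
    rw [← Matrix.diagonal_zero]
    congr 1
    funext p
    split_ifs with h1 h2
    · exact absurd (h1.symm.trans h2) hij
    · rw [mul_zero]
    · rw [zero_mul]
    · rw [zero_mul]
  aπ := by
    intro i
    ext p q
    simp only [wP, Matrix.mul_diagonal, Matrix.diagonal_mul, wA]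
    by_cases h : ε q.1 = 2 ∧ nx n q.1 p.1
    · rw [if_pos h, h.2.2, ← add_assoc, mul_comm]
      simp only [add_left_inj]
    · rw [if_neg h, zero_mul, mul_zero]
  bπ := by
    intro i
    ext p q
    simp only [wP, Matrix.mul_diagonal, Matrix.diagonal_mul, wB]
    by_cases h : ε p.1 = 0 ∧ nx n p.1 q.1
    · rw [if_pos h, h.2.2, ← add_assoc, mul_comm]
      simp only [add_left_inj]
    · rw [if_neg h, zero_mul, mul_zero]

end

end Pool.Agent.J4H84.TH
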