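import Pool.Agent.J4H84.TH.Hopf
import Pool.Agent.J4H84.TH.Acyc

/-!
# The two prime ideals of `x`-acyclic and `y`-acyclic modules over `H`
-/

namespace Pool.Agent.J4H84.TH

set_option linter.unusedSimpArgs false

open TensorProduct

universe u v

section
variable {A : Type v} [Ring A] (S : Sys A)

/-- The skew derivation `s` with `s x = 1`. -/
def Sys.matX : Sys (Matrix (Fin 2) (Fin 2) A) where
  x := !![-S.x, 1; 0, S.x]
  y := !![S.y, 0; 0, S.y]
  g := !![-S.g, 0; 0, S.g]
  l := !![-S.l, 0; 0, S.l]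
  gg := by simp [Matrix.mul_fin_two, S.gg, Matrix.one_fin_two]
  ll := by simp [Matrix.mul_fin_two, S.ll, Matrix.one_fin_two]
  gl := by simp [Matrix.mul_fin_two, S.gl]
  gx := by simp [Matrix.mul_fin_two, S.gx]
  lx := by simp [Matrix.mul_fin_two, S.lx]
  gy := by simp [Matrix.mul_fin_two, S.gy]
  ly := by simp [Matrix.mul_fin_two, S.ly]
  xx := by simp [Matrix.mul_fin_two, S.xx, ← Matrix.ext_iff]
  yy := by simp [Matrix.mul_fin_two, S.yy, ← Matrix.ext_iff]
  zz := by
    simp [Matrix.mul_fin_two, S.yy, S.xx, S.zz1, S.yy', mul_assoc, ← Matrix.ext_iff]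

/-- The skew derivation `s` with `s y = 1`. -/
def Sys.matY : Sys (Matrix (Fin 2) (Fin 2) A) where
  x := !![S.x, 0; 0, S.x]
  y := !![-S.y, 1; 0, S.y]
  g := !![S.g, 0; 0, S.g]
  l := !![-S.l, 0; 0, S.l]
  gg := by simp [Matrix.mul_fin_two, S.gg, Matrix.one_fin_two]
  ll := by simp [Matrix.mul_fin_two, S.ll, Matrix.one_fin_two]
  gl := by simp [Matrix.mul_fin_two, S.gl]
  gx := by simp [Matrix.mul_fin_two, S.gx]
  lx := by simp [Matrix.mul_fin_two, S.lx]
  gy := by simp [Matrix.mul_fin_two, S.gy]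
  ly := by simp [Matrix.mul_fin_two, S.ly]
  xx := by simp [Matrix.mul_fin_two, S.xx, ← Matrix.ext_iff]
  yy := by simp [Matrix.mul_fin_two, S.yy, ← Matrix.ext_iff]
  zz := by
    simp [Matrix.mul_fin_two, S.yy, S.xx, S.zz1, S.xx', mul_assoc, ← Matrix.ext_iff]

end

variable (k : Type u) [Field k]

/-- The homomorphism `H → M₂(H)` for `x`. -/
noncomputable def mx : H k →ₐ[k] Matrix (Fin 2) (Fin 2) (H k) := lift (sysH k).matX
/-- The homomorphism `H → M₂(H)` for `y`. -/
noncomputable def my : H k →ₐ[k] Matrix (Fin 2) (Fin 2) (H k) := lift (sysH k).matY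

theorem mx_low (a : H k) : mx k a 1 0 = 0 ∧ mx k a 1 1 = a := by
  induction a using ind with
  | h1 c =>
    rw [AlgHom.commutes, Matrix.algebraMap_matrix_apply, Matrix.algebraMap_matrix_apply]
    simp
  | hg a =>
    rw [mx, lift_gen]
    cases a <;> exact ⟨rfl, rfl⟩
  | hm a b ha hb =>
    rw [map_mul, Matrix.mul_apply, Matrix.mul_apply, Fin.sum_univ_two, Fin.sum_univ_two, ha.1,
      ha.2, hb.1, hb.2]
    simp
  | ha a b ha hb =>
    rw [map_add, Matrix.add_apply, Matrix.add_apply, ha.1, ha.2, hb.1, hb.2]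
    simp

theorem my_low (a : H k) : my k a 1 0 = 0 ∧ my k a 1 1 = a := by
  induction a using ind with
  | h1 c =>
    rw [AlgHom.commutes, Matrix.algebraMap_matrix_apply, Matrix.algebraMap_matrix_apply]
    simp
  | hg a =>
    rw [my, lift_gen]
    cases a <;> exact ⟨rfl, rfl⟩
  | hm a b ha hb =>
    rw [map_mul, Matrix.mul_apply, Matrix.mul_apply, Fin.sum_univ_two, Fin.sum_univ_two, ha.1,
      ha.2, hb.1, hb.2]
    simp
  | ha a b ha hb =>
    rw [map_add, Matrix.add_apply, Matrix.add_apply, ha.1, ha.2, hb.1, hb.2]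
    simp

/-- The differential `x`. -/
noncomputable def DX : Diff k (H k) where
  d := X k
  c := G k
  dd := (sysH k).xx
  cc := (sysH k).gg
  cd := (sysH k).gx
  comd := comulH_X k
  cod := counitH_X k
  s := (Matrix.entryLinearMap k (H k) 0 1) ∘ₗ (mx k).toLinearMap
  hs := by
    intro a
    have h1 : mx k (X k) = !![-X k, 1; 0, X k] := lift_gen _ _
    change X k * mx k a 0 1 + mx k (X k * a) 0 1 = a
    rw [map_mul, Matrix.mul_apply, Fin.sum_univ_two, (mx_low k a).2, h1]
    simp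

/-- The differential `y`. -/
noncomputable def DY : Diff k (H k) where
  d := Y k
  c := L k
  dd := (sysH k).yy
  cc := (sysH k).ll
  cd := (sysH k).ly
  comd := comulH_Y k
  cod := counitH_Y k
  s := (Matrix.entryLinearMap k (H k) 0 1) ∘ₗ (my k).toLinearMap
  hs := by
    intro a
    have h1 : my k (Y k) = !![-Y k, 1; 0, Y k] := lift_gen _ _
    change Y k * my k a 0 1 + my k (Y k * a) 0 1 = a
    rw [map_mul, Matrix.mul_apply, Fin.sum_univ_two, (my_low k a).2, h1]
    simp

end Pool.Agent.J4H84.TH
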