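import Mathlib

/-!
# Finite-dimensional representations, thick tensor ideals, the Balmer spectrum
-/

namespace Pool.Agent.J4H84.TH

open TensorProduct

universe u v

/-- A finite-dimensional representation of the `k`-algebra `A`: a finite-dimensional vector space
`V` and a homomorphism `ρ : A → End_k(V)` of `k`-algebras. -/
structure FRep (k : Type u) (A : Type v) [Field k] [Ring A] [Algebra k A] where
  V : Type u
  [grp : AddCommGroup V]
  [mod : Module k V]
  [fin : FiniteDimensional k V]
  ρ : A →ₐ[k] Module.End k V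

attribute [instance] FRep.grp FRep.mod FRep.fin

section
variable {k : Type u} {A : Type v} [Field k] [Ring A] [Algebra k A]

/-- The linear map `f` commutes with the action of `A`. -/
def Equi (M N : FRep k A) (f : M.V →ₗ[k] N.V) : Prop := ∀ a v, f (M.ρ a v) = N.ρ a (f v)

/-- `M` is projective: a direct summand of the free module `A ^ n` for some `n`. -/
def IsProj (M : FRep k A) : Prop :=
  ∃ (n : ℕ) (i : M.V →ₗ[k] (Fin n → A)) (r : (Fin n → A) →ₗ[k] M.V),
    (∀ a v, i (M.ρ a v) = fun j => a * i v j) ∧
    (∀ a w, r (fun j => a * w j) = M.ρ a (r w)) ∧ ∀ v, r (i v) = v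

/-- `M` is (isomorphic to) a direct summand of `N`. -/
def IsSummand (M N : FRep k A) : Prop :=
  ∃ (i : M.V →ₗ[k] N.V) (r : N.V →ₗ[k] M.V), Equi M N i ∧ Equi N M r ∧ ∀ v, r (i v) = v

/-- `0 → M₁ → M₂ → M₃ → 0` is exact for suitable homomorphisms. -/
def IsExt (M₁ M₂ M₃ : FRep k A) : Prop :=
  ∃ (f : M₁.V →ₗ[k] M₂.V) (g : M₂.V →ₗ[k] M₃.V), Equi M₁ M₂ f ∧ Equi M₂ M₃ g ∧
    Function.Injective f ∧ Function.Surjective g ∧ ∀ v, g v = 0 ↔ ∃ w, f w = v

end

section
variable {k : Type u} {A : Type v} [Field k] [Ring A] [Bialgebra k A]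

/-- The action of `A` on `M ⊗ N` through the comultiplication. -/
noncomputable def tensAct (M N : FRep k A) : A →ₐ[k] Module.End k (M.V ⊗[k] N.V) :=
  ((Module.endTensorEndAlgHom (R := k) (S := k) (A := k) (M := M.V) (N := N.V)).comp
    (Algebra.TensorProduct.map M.ρ N.ρ)).comp (Bialgebra.comulAlgHom k A)

/-- The tensor product of two representations. -/
noncomputable def FRep.tens (M N : FRep k A) : FRep k A where
  V := M.V ⊗[k] N.V
  ρ := tensAct M N

/-- The class `P` of representations is a prime ideal of the stable module category: it is closed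
under direct summands, it contains the projective modules, two out of three holds in short exact
sequences, it is a tensor ideal on both sides, it is proper, and it contains `M` or `N` if it
contains `M ⊗ C ⊗ N` for all `C`. -/
structure IsPrimeIdeal (P : FRep k A → Prop) : Prop where
  summand : ∀ M N, IsSummand M N → P N → P M
  proj : ∀ M, IsProj M → P M
  ext₁ : ∀ M₁ M₂ M₃, IsExt M₁ M₂ M₃ → P M₂ → P M₃ → P M₁
  ext₂ : ∀ M₁ M₂ M₃, IsExt M₁ M₂ M₃ → P M₁ → P M₃ → P M₂
  ext₃ : ∀ M₁ M₂ M₃, IsExt M₁ M₂ M₃ → P M₁ → P M₂ → P M₃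
  left : ∀ M N : FRep k A, P N → P (M.tens N)
  right : ∀ M N : FRep k A, P M → P (M.tens N)
  proper : ∃ M, ¬ P M
  prime : ∀ M N : FRep k A, (∀ C, P ((M.tens C).tens N)) → P M ∨ P N

/-- The Balmer spectrum of the stable module category of `A`. -/
def Spc (k : Type u) (A : Type v) [Field k] [Ring A] [Bialgebra k A] : Type (max (u + 1) v) :=
  {P : FRep k A → Prop // IsPrimeIdeal P}

/-- The topology of the Balmer spectrum: the sets `supp M = {P | M ∉ P}` are a basis of the closed
sets. -/
instance (k : Type u) (A : Type v) [Field k] [Ring A] [Bialgebra k A] :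
    TopologicalSpace (Spc k A) :=
  TopologicalSpace.generateFrom {U | ∃ M : FRep k A, U = {P | P.1 M}}

end

end Pool.Agent.J4H84.TH
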