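import Pool.Agent.J4H84.TH.Mods
import Pool.Agent.J4H84.TH.Fin

/-!
# The spectrum of `H` is reducible
-/

namespace Pool.Agent.J4H84.TH

set_option linter.unusedSimpArgs false

open TensorProduct

universe u v

section
variable {A : Type v} [Ring A] (S : Sys A)

/-- Four times the idempotent of weight `g ↦ -1`, `h ↦ 1`. -/
def Sys.ee : A := (1 - S.g) * (1 + S.l)
/-- `xye` -/
def Sys.v0 : A := S.x * (S.y * S.ee)
/-- `yxye` -/
def Sys.v1 : A := S.y * S.v0
/-- `xyxye` -/
def Sys.v2 : A := S.x * S.v1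

theorem Sys.g_ee : S.g * S.ee = - S.ee := by
  simp only [Sys.ee, mul_add, add_mul, sub_mul, mul_sub, mul_one, one_mul, mul_assoc, S.gg, S.gg']
  abel
theorem Sys.l_ee : S.l * S.ee = S.ee := by
  simp only [Sys.ee, mul_add, add_mul, sub_mul, mul_sub, mul_one, one_mul, mul_assoc, S.lg,
    S.lg', S.ll, S.ll']
  abel
theorem Sys.x_v0 : S.x * S.v0 = 0 := S.xx' _
theorem Sys.g_v0 : S.g * S.v0 = S.v0 := by
  rw [Sys.v0, S.gx', S.gy', S.g_ee, mul_neg, mul_neg, neg_neg]
theorem Sys.l_v0 : S.l * S.v0 = S.v0 := by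
  rw [Sys.v0, S.lx', S.ly', S.l_ee, mul_neg, neg_neg]
theorem Sys.y_v0 : S.y * S.v0 = S.v1 := rfl
theorem Sys.x_v1 : S.x * S.v1 = S.v2 := rfl
theorem Sys.y_v1 : S.y * S.v1 = 0 := S.yy' _
theorem Sys.g_v1 : S.g * S.v1 = S.v1 := by
  rw [Sys.v1, S.gy', S.g_v0]
theorem Sys.l_v1 : S.l * S.v1 = -S.v1 := by
  rw [Sys.v1, S.ly', S.l_v0]
theorem Sys.x_v2 : S.x * S.v2 = 0 := S.xx' _
theorem Sys.y_v2 : S.y * S.v2 = 0 := by
  have := S.zz' (S.y * S.ee)
  rw [S.yy', mul_zero, mul_zero, mul_zero] at this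
  exact neg_eq_zero.1 this.symm
theorem Sys.g_v2 : S.g * S.v2 = -S.v2 := by
  rw [Sys.v2, S.gx', S.g_v1]
theorem Sys.l_v2 : S.l * S.v2 = S.v2 := by
  rw [Sys.v2, S.lx', S.l_v1, mul_neg, neg_neg]

end

variable (k : Type u) [Field k]

theorem v2_ne (h2 : (2 : k) ≠ 0) : (sysH k).v2 ≠ 0 := by
  intro h
  have h1 : lift (k := k) (sysP k) (sysH k).v2 = (sysP k).v2 := by
    have hx : lift (k := k) (sysP k) (sysH k).x = (sysP k).x := lift_gen _ _
    have hy : lift (k := k) (sysP k) (sysH k).y = (sysP k).y := lift_gen _ _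
    have hg : lift (k := k) (sysP k) (sysH k).g = (sysP k).g := lift_gen _ _
    have hl : lift (k := k) (sysP k) (sysH k).l = (sysP k).l := lift_gen _ _
    simp only [Sys.v2, Sys.v1, Sys.v0, Sys.ee, map_mul, map_sub, map_add, map_one, hx, hy, hg, hl]
  rw [h, map_zero] at h1
  have h3 := congrArg (fun f => f ![1, 0, 0, 0, 0, 0, 0, 0] 7) h1
  have h4 : (sysP k).v2 ![1, 0, 0, 0, 0, 0, 0, 0] 7 = 4 := by
    simp only [Sys.v2, Sys.v1, Sys.v0, Sys.ee]
    simp [sysP]
    norm_num
  rw [h4] at h3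
  have h5 : (4 : k) = 2 * 2 := by norm_num
  rw [h5] at h3
  simp [h2] at h3

/-- The regular representation. -/
noncomputable def reg : FRep k (H k) where
  V := H k
  ρ := Algebra.lmul k (H k)

theorem reg_apply (a b : H k) : (reg k).ρ a b = a * b := rfl

theorem reg_proj : IsProj (reg k) := by
  refine ⟨1, LinearMap.pi fun _ => LinearMap.id, LinearMap.proj 0, fun a v => rfl,
    fun a w => rfl, fun v => rfl⟩

theorem lin_indep (h2 : (2 : k) ≠ 0) (a b : k)
    (h : a • (sysH k).v1 + b • (sysH k).v2 = 0) : a = 0 ∧ b = 0 := by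
  have h1 := congrArg ((sysH k).x * ·) h
  simp only [mul_add, Algebra.mul_smul_comm, (sysH k).x_v1, (sysH k).x_v2, smul_zero, add_zero,
    mul_zero] at h1
  have ha : a = 0 := (smul_eq_zero.1 h1).resolve_right (v2_ne k h2)
  rw [ha, zero_smul, zero_add] at h
  exact ⟨ha, (smul_eq_zero.1 h).resolve_right (v2_ne k h2)⟩

/-- The character `χ₂` as an algebra homomorphism. -/
noncomputable def chiC : H k →ₐ[k] k := lift (sysC k)

theorem chiC_X : chiC k (X k) = 0 := lift_gen _ _
theorem chiC_Y : chiC k (Y k) = 0 := lift_gen _ _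
theorem chiC_G : chiC k (G k) = 1 := lift_gen _ _
theorem chiC_L : chiC k (L k) = -1 := lift_gen _ _

theorem EX_X (a b : k) : (EX k).ρ (X k) (a, b) = ((0 : k), a) :=
  congrArg (fun f => f ((a, b) : k × k)) (lift_gen (sysEX k) Gen.x)
theorem EX_Y (a b : k) : (EX k).ρ (Y k) (a, b) = ((0 : k), (0 : k)) :=
  congrArg (fun f => f ((a, b) : k × k)) (lift_gen (sysEX k) Gen.y)
theorem EX_G (a b : k) : (EX k).ρ (G k) (a, b) = (a, -b) :=
  congrArg (fun f => f ((a, b) : k × k)) (lift_gen (sysEX k) Gen.g)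
theorem EX_L (a b : k) : (EX k).ρ (L k) (a, b) = (a, -b) :=
  congrArg (fun f => f ((a, b) : k × k)) (lift_gen (sysEX k) Gen.h)
theorem EY_X (a b : k) : (EY k).ρ (X k) (a, b) = ((0 : k), (0 : k)) :=
  congrArg (fun f => f ((a, b) : k × k)) (lift_gen (sysEY k) Gen.x)
theorem EY_Y (a b : k) : (EY k).ρ (Y k) (a, b) = ((0 : k), a) :=
  congrArg (fun f => f ((a, b) : k × k)) (lift_gen (sysEY k) Gen.y)
theorem EY_G (a b : k) : (EY k).ρ (G k) (a, b) = (a, b) :=
  congrArg (fun f => f ((a, b) : k × k)) (lift_gen (sysEY k) Gen.g)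
theorem EY_L (a b : k) : (EY k).ρ (L k) (a, b) = (a, -b) :=
  congrArg (fun f => f ((a, b) : k × k)) (lift_gen (sysEY k) Gen.h)

theorem EX_mem : (DX k).P (EX k) := by
  have h : ∀ v : k × k, (EX k).ρ (X k) v = ((0 : k), (0 : k)) → ∃ w : k × k, v = (EX k).ρ (X k) w := by
    rintro ⟨a, b⟩ h
    rw [EX_X] at h
    refine ⟨(b, 0), ?_⟩
    rw [EX_X]
    have := congrArg (fun p : k × k => p.2) h
    simp only at this
    rw [this]
  exact h

theorem EY_mem : (DY k).P (EY k) := by
  have h : ∀ v : k × k, (EY k).ρ (Y k) v = ((0 : k), (0 : k)) → ∃ w : k × k, v = (EY k).ρ (Y k) w := by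
    rintro ⟨a, b⟩ h
    rw [EY_Y] at h
    refine ⟨(b, 0), ?_⟩
    rw [EY_Y]
    have := congrArg (fun p : k × k => p.2) h
    simp only at this
    rw [this]
  exact h

/-- The module `T = E_X ⊗ χ₂`. -/
noncomputable def TT : FRep k (H k) := (FRep.char (chiC k)).tens (EX k)

/-- `T → H`. -/
noncomputable def ft : k ⊗[k] (k × k) →ₗ[k] H k :=
  TensorProduct.lift (LinearMap.mk₂ k (fun (c : k) (p : k × k) =>
    (c * p.1) • (sysH k).v1 + (c * p.2) • (sysH k).v2)
    (fun c c' p => by simp only [add_mul, add_smul]; abel)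
    (fun c d p => by simp only [smul_eq_mul, mul_assoc, mul_smul, smul_add])
    (fun c p q => by simp only [Prod.fst_add, Prod.snd_add, mul_add, add_smul]; abel)
    (fun c d p => by
      simp only [Prod.smul_fst, Prod.smul_snd, smul_eq_mul, smul_add, ← mul_smul]
      congr 2 <;> ring))

theorem ft_tmul (c : k) (p : k × k) : ft k (c ⊗ₜ p) =
    (c * p.1) • (sysH k).v1 + (c * p.2) • (sysH k).v2 := by
  simp only [ft, TensorProduct.lift.tmul, LinearMap.mk₂_apply]

theorem char_X (c : k) : (FRep.char (chiC k)).ρ (X k) c = (0 : k) := by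
  rw [FRep.char_apply, chiC_X, zero_mul]
theorem char_Y (c : k) : (FRep.char (chiC k)).ρ (Y k) c = (0 : k) := by
  rw [FRep.char_apply, chiC_Y, zero_mul]
theorem char_G (c : k) : (FRep.char (chiC k)).ρ (G k) c = (c : k) := by
  rw [FRep.char_apply, chiC_G, one_mul]
theorem char_L (c : k) : (FRep.char (chiC k)).ρ (L k) c = (-c : k) := by
  rw [FRep.char_apply, chiC_L, neg_one_mul]

theorem ft_equi : Equi (TT k) (reg k) (ft k) := by
  refine equi_of_gen (M := TT k) (N := reg k) (ft k) ?_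
  have key : ∀ (a : Gen) (c : k) (p : k × k),
      ft k (tensAct (FRep.char (chiC k)) (EX k) (gen k a) (c ⊗ₜ[k] p)) =
        gen k a * ft k (c ⊗ₜ[k] p) := by
    rintro a c ⟨p, q⟩
    cases a
    · have h : tensAct (FRep.char (chiC k)) (EX k) (X k) (c ⊗ₜ[k] ((p, q) : k × k)) =
          (c ⊗ₜ[k] (((0 : k), p) : k × k)) := by
        refine (tens_X (FRep.char (chiC k)) (EX k) _ _).trans ?_
        rw [char_X, char_G, EX_X]
        exact (congrArg (· + _) (TensorProduct.zero_tmul _ _)).trans (zero_add _)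
      refine (congrArg (ft k) h).trans ?_
      rw [ft_tmul, ft_tmul]
      change _ = (sysH k).x * _
      rw [mul_add, Algebra.mul_smul_comm, Algebra.mul_smul_comm, (sysH k).x_v1, (sysH k).x_v2]
      simp
    · have h : tensAct (FRep.char (chiC k)) (EX k) (Y k) (c ⊗ₜ[k] ((p, q) : k × k)) =
          (c ⊗ₜ[k] (((0 : k), (0 : k)) : k × k)) := by
        refine (tens_Y (FRep.char (chiC k)) (EX k) _ _).trans ?_
        rw [char_Y, char_L, EX_Y]
        refine (congrArg (· + _) (TensorProduct.zero_tmul _ _)).trans ((zero_add _).trans ?_)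
        exact (TensorProduct.tmul_zero _ _).trans (TensorProduct.tmul_zero _ _).symm
      refine (congrArg (ft k) h).trans ?_
      rw [ft_tmul, ft_tmul]
      change _ = (sysH k).y * _
      rw [mul_add, Algebra.mul_smul_comm, Algebra.mul_smul_comm, (sysH k).y_v1, (sysH k).y_v2]
      simp
    · have h : tensAct (FRep.char (chiC k)) (EX k) (G k) (c ⊗ₜ[k] ((p, q) : k × k)) =
          (c ⊗ₜ[k] ((p, -q) : k × k)) := by
        refine (tens_G (FRep.char (chiC k)) (EX k) _ _).trans ?_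
        rw [char_G, EX_G]
        rfl
      refine (congrArg (ft k) h).trans ?_
      rw [ft_tmul, ft_tmul]
      change _ = (sysH k).g * _
      rw [mul_add, Algebra.mul_smul_comm, Algebra.mul_smul_comm, (sysH k).g_v1, (sysH k).g_v2]
      simp
    · have h : tensAct (FRep.char (chiC k)) (EX k) (L k) (c ⊗ₜ[k] ((p, q) : k × k)) =
          ((-c) ⊗ₜ[k] ((p, -q) : k × k)) := by
        refine (tens_L (FRep.char (chiC k)) (EX k) _ _).trans ?_
        rw [char_L, EX_L]
        rfl
      refine (congrArg (ft k) h).trans ?_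
      rw [ft_tmul, ft_tmul]
      change _ = (sysH k).l * _
      rw [mul_add, Algebra.mul_smul_comm, Algebra.mul_smul_comm, (sysH k).l_v1, (sysH k).l_v2]
      simp
  intro a v
  have h2 : ft k ∘ₗ tensAct (FRep.char (chiC k)) (EX k) (gen k a) =
      LinearMap.mulLeft k (gen k a) ∘ₗ ft k := TensorProduct.ext' fun c p => key a c p
  exact congrArg (fun f => f v) h2

/-- The subspace spanned by `v1`, `v2`. -/
noncomputable def WT : Submodule k (H k) := LinearMap.range (ft k)

theorem mem_WT (a b : k) : a • (sysH k).v1 + b • (sysH k).v2 ∈ WT k := by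
  refine ⟨1 ⊗ₜ ((a, b) : k × k), ?_⟩
  rw [ft_tmul]
  simp

theorem WT_exists (z : H k) (hz : z ∈ WT k) :
    ∃ a b : k, z = a • (sysH k).v1 + b • (sysH k).v2 := by
  obtain ⟨t, rfl⟩ := hz
  induction t with
  | zero => exact ⟨0, 0, by simp⟩
  | tmul c p => exact ⟨_, _, ft_tmul k c p⟩
  | add s t hs ht =>
    obtain ⟨a, b, h⟩ := hs
    obtain ⟨a', b', h'⟩ := ht
    refine ⟨a + a', b + b', ?_⟩
    rw [map_add, h, h', add_smul, add_smul]
    abel

theorem WT_stable : ∀ a, ∀ v ∈ WT k, (reg k).ρ a v ∈ WT k := by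
  rintro a _ ⟨t, rfl⟩
  exact ⟨_, ft_equi k a t⟩

/-- `H / T` -/
noncomputable def QT : FRep k (H k) := (reg k).quot (WT k) (WT_stable k)

theorem ft_inj (h2 : (2 : k) ≠ 0) : Function.Injective (ft k) := by
  have h : ∀ t : k ⊗[k] (k × k), ∃ p : k × k, t = 1 ⊗ₜ p := by
    intro t
    induction t with
    | zero => exact ⟨0, by simp⟩
    | tmul c p => exact ⟨c • p, by rw [← TensorProduct.smul_tmul]; simp⟩
    | add s t hs ht =>
      obtain ⟨p, rfl⟩ := hs
      obtain ⟨q, rfl⟩ := ht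
      exact ⟨p + q, by rw [TensorProduct.tmul_add]⟩
  rw [← LinearMap.ker_eq_bot, LinearMap.ker_eq_bot']
  intro t ht
  obtain ⟨⟨a, b⟩, rfl⟩ := h t
  rw [ft_tmul, one_mul, one_mul] at ht
  obtain ⟨rfl, rfl⟩ := lin_indep k h2 _ _ ht
  exact TensorProduct.tmul_zero _ _

theorem ext_T (h2 : (2 : k) ≠ 0) : IsExt (TT k) (reg k) (QT k) := by
  have h : ∀ v : H k, (WT k).mkQ v = 0 ↔ v ∈ WT k := by
    intro v
    rw [Submodule.mkQ_apply, Submodule.Quotient.mk_eq_zero]
  have hs : Function.Surjective (WT k).mkQ := Submodule.mkQ_surjective (WT k)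
  exact ⟨ft k, (WT k).mkQ, ft_equi k, fun a v => rfl, ft_inj k h2, hs, fun v => h v⟩

/-- The subspace spanned by `v2`. -/
noncomputable def WS : Submodule k (H k) := Submodule.span k {(sysH k).v2}

theorem WS_stable : ∀ a : H k, ∀ v ∈ WS k, a * v ∈ WS k := by
  intro a
  induction a using ind with
  | h1 c =>
    intro v hv
    rw [← Algebra.smul_def]
    exact Submodule.smul_mem _ _ hv
  | hg a =>
    intro v hv
    obtain ⟨c, rfl⟩ := Submodule.mem_span_singleton.1 hv
    rw [Algebra.mul_smul_comm]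
    refine Submodule.smul_mem _ _ ?_
    cases a
    · change (sysH k).x * _ ∈ _
      rw [(sysH k).x_v2]; exact Submodule.zero_mem _
    · change (sysH k).y * _ ∈ _
      rw [(sysH k).y_v2]; exact Submodule.zero_mem _
    · change (sysH k).g * _ ∈ _
      rw [(sysH k).g_v2]; exact Submodule.neg_mem _ (Submodule.mem_span_singleton_self _)
    · change (sysH k).l * _ ∈ _
      rw [(sysH k).l_v2]; exact Submodule.mem_span_singleton_self _
  | hm a b ha hb =>
    intro v hv
    rw [mul_assoc]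
    exact ha _ (hb _ hv)
  | ha a b ha hb =>
    intro v hv
    rw [add_mul]
    exact Submodule.add_mem _ (ha _ hv) (hb _ hv)

theorem WS_le : WS k ≤ WT k := by
  intro v hv
  obtain ⟨c, rfl⟩ := Submodule.mem_span_singleton.1 hv
  have := mem_WT k 0 c
  rwa [zero_smul, zero_add] at this

/-- `H / S` -/
noncomputable def QS : FRep k (H k) := (reg k).quot (WS k) (WS_stable k)

/-- The trivial module. -/
noncomputable def one : FRep k (H k) := FRep.char (Bialgebra.counitAlgHom k (H k))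

theorem one_ρ (a : H k) (c : k) : (one k).ρ a c = (counitH k a * c : k) := rfl

/-- `E_Y → k ⊕ H/S` -/
noncomputable def fy : k × k →ₗ[k] k × (H k ⧸ WS k) :=
  (LinearMap.fst k k k).prod ((WS k).mkQ ∘ₗ
    (LinearMap.toSpanSingleton k (H k) (sysH k).v0 ∘ₗ LinearMap.fst k k k +
      LinearMap.toSpanSingleton k (H k) (sysH k).v1 ∘ₗ LinearMap.snd k k k))

theorem fy_apply (a b : k) : fy k (a, b) =
    (a, (WS k).mkQ (a • (sysH k).v0 + b • (sysH k).v1)) := rfl

theorem quot_gen (a : Gen) (c : k) (z : H k) :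
    ((one k).sum (QS k)).ρ (gen k a) (c, (WS k).mkQ z) =
      ((counitH k (gen k a) * c : k), (WS k).mkQ (gen k a * z)) := rfl

theorem fy_equi : Equi (EY k) ((one k).sum (QS k)) (fy k) := by
  refine equi_of_gen (M := EY k) (N := (one k).sum (QS k)) (fy k) ?_
  have key : ∀ (a : Gen) (p q : k), fy k ((EY k).ρ (gen k a) ((p, q) : k × k)) =
      ((counitH k (gen k a) * p : k),
        (WS k).mkQ (gen k a * (p • (sysH k).v0 + q • (sysH k).v1))) := by
    intro a p q
    rw [mul_add, Algebra.mul_smul_comm, Algebra.mul_smul_comm]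
    cases a
    · refine (congrArg (fy k) (EY_X k p q)).trans ?_
      rw [fy_apply, counitH_X]
      refine Prod.ext (by simp) ?_
      change (WS k).mkQ _ = (WS k).mkQ (p • ((sysH k).x * _) + q • ((sysH k).x * _))
      rw [(sysH k).x_v0, (sysH k).x_v1]
      simp only [zero_smul, add_zero, map_zero, smul_zero, zero_add]
      refine ((Submodule.Quotient.mk_eq_zero _).2 ?_).symm
      exact Submodule.smul_mem _ _ (Submodule.mem_span_singleton_self _)
    · refine (congrArg (fy k) (EY_Y k p q)).trans ?_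
      rw [fy_apply, counitH_Y]
      refine Prod.ext (by simp) ?_
      change (WS k).mkQ _ = (WS k).mkQ (p • ((sysH k).y * _) + q • ((sysH k).y * _))
      rw [(sysH k).y_v0, (sysH k).y_v1]
      simp
    · refine (congrArg (fy k) (EY_G k p q)).trans ?_
      rw [fy_apply, counitH_G]
      refine Prod.ext (by simp) ?_
      change (WS k).mkQ _ = (WS k).mkQ (p • ((sysH k).g * _) + q • ((sysH k).g * _))
      rw [(sysH k).g_v0, (sysH k).g_v1]
    · refine (congrArg (fy k) (EY_L k p q)).trans ?_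
      rw [fy_apply, counitH_L]
      refine Prod.ext (by simp) ?_
      change (WS k).mkQ _ = (WS k).mkQ (p • ((sysH k).l * _) + q • ((sysH k).l * _))
      rw [(sysH k).l_v0, (sysH k).l_v1, smul_neg, neg_smul]
  rintro a ⟨p, q⟩
  exact key a p q

theorem fy_inj (h2 : (2 : k) ≠ 0) : Function.Injective (fy k) := by
  rw [← LinearMap.ker_eq_bot, LinearMap.ker_eq_bot']
  rintro ⟨a, b⟩ h
  rw [fy_apply] at h
  have h0 : a = 0 := congrArg Prod.fst h
  have h1 : (WS k).mkQ (a • (sysH k).v0 + b • (sysH k).v1) = 0 := congrArg Prod.snd h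
  rw [h0, zero_smul, zero_add, Submodule.mkQ_apply, Submodule.Quotient.mk_eq_zero] at h1
  obtain ⟨c, hc⟩ := Submodule.mem_span_singleton.1 h1
  have h3 : b • (sysH k).v1 + (-c) • (sysH k).v2 = 0 := by
    rw [neg_smul, hc, add_neg_cancel]
  rw [h0, (lin_indep k h2 _ _ h3).1]
  rfl

/-- `k ⊕ H/S → H/T` -/
noncomputable def gy : k × (H k ⧸ WS k) →ₗ[k] (H k ⧸ WT k) :=
  ((WS k).mapQ (WT k) LinearMap.id (fun _ h => WS_le k h)) ∘ₗ LinearMap.snd k _ _ -
    (WT k).mkQ ∘ₗ LinearMap.toSpanSingleton k (H k) (sysH k).v0 ∘ₗ LinearMap.fst k _ _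

theorem gy_apply (a : k) (z : H k) : gy k (a, (WS k).mkQ z) =
    (WT k).mkQ (z - a • (sysH k).v0) := rfl

theorem gy_equi : Equi ((one k).sum (QS k)) (QT k) (gy k) := by
  refine equi_of_gen (M := (one k).sum (QS k)) (N := QT k) (gy k) ?_
  have key : ∀ (a : Gen) (p : k) (z : H k),
      gy k ((counitH k (gen k a) * p : k), (WS k).mkQ (gen k a * z)) =
        (WT k).mkQ (gen k a * (z - p • (sysH k).v0)) := by
    intro a p z
    rw [gy_apply, Submodule.mkQ_apply, Submodule.mkQ_apply, Submodule.Quotient.eq, mul_sub,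
      Algebra.mul_smul_comm]
    cases a
    · rw [counitH_X]
      change _ - (_ - p • ((sysH k).x * _)) ∈ _
      rw [(sysH k).x_v0]
      simp
    · rw [counitH_Y]
      change _ - (_ - p • ((sysH k).y * _)) ∈ _
      rw [(sysH k).y_v0]
      simp only [zero_mul, zero_smul, sub_zero, sub_sub_cancel]
      have := mem_WT k p 0
      rwa [zero_smul, add_zero] at this
    · rw [counitH_G]
      change _ - (_ - p • ((sysH k).g * _)) ∈ _
      rw [(sysH k).g_v0]
      simp
    · rw [counitH_L]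
      change _ - (_ - p • ((sysH k).l * _)) ∈ _
      rw [(sysH k).l_v0]
      simp
  rintro a ⟨p, q⟩
  obtain ⟨z, rfl⟩ := Submodule.mkQ_surjective _ q
  exact key a p z

theorem ext_Y (h2 : (2 : k) ≠ 0) : IsExt (EY k) ((one k).sum (QS k)) (QT k) := by
  refine ⟨fy k, gy k, fy_equi k, gy_equi k, fy_inj k h2, ?_, ?_⟩
  · have h : ∀ q : H k ⧸ WT k, ∃ p, gy k p = q := by
      intro q
      obtain ⟨z, rfl⟩ := Submodule.mkQ_surjective _ q
      exact ⟨(0, (WS k).mkQ z), by rw [gy_apply, zero_smul, sub_zero]⟩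
    exact h
  · have h : ∀ v : k × (H k ⧸ WS k), gy k v = 0 ↔ ∃ w, fy k w = v := by
      rintro ⟨p, q⟩
      obtain ⟨z, rfl⟩ := Submodule.mkQ_surjective _ q
      rw [gy_apply, Submodule.mkQ_apply, Submodule.Quotient.mk_eq_zero]
      constructor
      · intro h
        obtain ⟨a, b, h⟩ := WT_exists k _ h
        refine ⟨(p, a), ?_⟩
        rw [fy_apply]
        refine Prod.ext rfl ?_
        refine (Submodule.Quotient.eq _).2 ?_
        have : p • (sysH k).v0 + a • (sysH k).v1 - z = -(b • (sysH k).v2) := by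
          rw [sub_eq_iff_eq_add] at h
          rw [h]
          abel
        rw [this]
        exact Submodule.neg_mem _ (Submodule.smul_mem _ _ (Submodule.mem_span_singleton_self _))
      · rintro ⟨⟨a, b⟩, h⟩
        rw [fy_apply] at h
        have h0 : a = p := congrArg Prod.fst h
        have h1 : (WS k).mkQ (a • (sysH k).v0 + b • (sysH k).v1) = (WS k).mkQ z :=
          congrArg Prod.snd h
        rw [Submodule.mkQ_apply, Submodule.mkQ_apply, Submodule.Quotient.eq] at h1
        have h2 := WS_le k h1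
        have h3 := mem_WT k b 0
        have : z - p • (sysH k).v0 = (b • (sysH k).v1 + (0 : k) • (sysH k).v2) -
            (a • (sysH k).v0 + b • (sysH k).v1 - z) := by
          rw [h0, zero_smul]
          abel
        rw [this]
        exact Submodule.sub_mem _ h3 h2
    exact h

theorem tens_one (M : FRep k (H k)) (a : Gen) (v : M.V) (c : k) :
    tensAct M (one k) (gen k a) (v ⊗ₜ[k] c) = (M.ρ (gen k a) v) ⊗ₜ[k] c := by
  cases a
  · refine ((tens_X M (one k) _ _).trans ?_)
    rw [one_ρ, counitH_X, zero_mul]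
    exact (congrArg (_ + ·) (TensorProduct.tmul_zero _ _)).trans (add_zero _)
  · refine ((tens_Y M (one k) _ _).trans ?_)
    rw [one_ρ, counitH_Y, zero_mul]
    exact (congrArg (_ + ·) (TensorProduct.tmul_zero _ _)).trans (add_zero _)
  · refine ((tens_G M (one k) _ _).trans ?_)
    rw [one_ρ, counitH_G, one_mul]
    rfl
  · refine ((tens_L M (one k) _ _).trans ?_)
    rw [one_ρ, counitH_L, one_mul]
    rfl

theorem summand_one (M : FRep k (H k)) : IsSummand M (M.tens (one k)) := by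
  refine ⟨(TensorProduct.rid k M.V).symm.toLinearMap, (TensorProduct.rid k M.V).toLinearMap,
    ?_, ?_, fun v => (TensorProduct.rid k M.V).apply_symm_apply v⟩
  · refine equi_of_gen (M := M) (N := M.tens (one k)) _ ?_
    intro a v
    exact (tens_one k M a v 1).symm
  · refine equi_of_gen (M := M.tens (one k)) (N := M) _ ?_
    intro a
    have h : (TensorProduct.rid k M.V).toLinearMap ∘ₗ tensAct M (one k) (gen k a) =
        M.ρ (gen k a) ∘ₗ (TensorProduct.rid k M.V).toLinearMap := by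
      refine TensorProduct.ext' fun v (c : k) => ?_
      change TensorProduct.rid k M.V (tensAct M (one k) (gen k a) (v ⊗ₜ[k] c)) =
        M.ρ (gen k a) (TensorProduct.rid k M.V (v ⊗ₜ[k] c))
      rw [tens_one, TensorProduct.rid_tmul, TensorProduct.rid_tmul, map_smul]
    intro v
    exact congrArg (fun f => f v) h

/-- No prime ideal contains both `E_X` and `E_Y`. -/
theorem not_both (h2 : (2 : k) ≠ 0) (P : FRep k (H k) → Prop) (hP : IsPrimeIdeal P)
    (hx : P (EX k)) (hy : P (EY k)) : False := by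
  have h1 : P (TT k) := hP.left _ _ hx
  have h3 : P (QT k) := hP.ext₃ _ _ _ (ext_T k h2) h1 (hP.proj _ (reg_proj k))
  have h4 : P ((one k).sum (QS k)) := hP.ext₂ _ _ _ (ext_Y k h2) hy h3
  have h5 : P (one k) := hP.summand _ _ (summand_sum _ _) h4
  obtain ⟨M, hM⟩ := hP.proper
  exact hM (hP.summand _ _ (summand_one k M) (hP.left _ _ h5))

/-- The support of a module is closed. -/
theorem isClosed_supp {A : Type v} [Ring A] [Bialgebra k A] (M : FRep k A) :
    IsClosed {P : Spc k A | ¬ P.1 M} := by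
  refine ⟨?_⟩
  have : {P : Spc k A | ¬ P.1 M}ᶜ = {P | P.1 M} := by
    ext P; simp
  rw [this]
  exact TopologicalSpace.isOpen_generateFrom_of_mem ⟨M, rfl⟩

theorem supp_union (h2 : (2 : k) ≠ 0) :
    {P : Spc k (H k) | ¬ P.1 (EX k)} ∪ {P : Spc k (H k) | ¬ P.1 (EY k)} = Set.univ := by
  rw [Set.eq_univ_iff_forall]
  intro P
  by_contra h
  simp only [Set.mem_union, Set.mem_ofPred_eq, not_or, not_not] at h
  exact not_both k h2 P.1 P.2 h.1 h.2

attribute [local instance] MvPolynomial.gradedAlgebra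

/-- The projective line over `k`. -/
abbrev P1 : Type u := ProjectiveSpectrum (MvPolynomial.homogeneousSubmodule (Fin 2) k)

theorem P1_generic : ∃ p : P1 k, ∀ Z : Set (P1 k), IsClosed Z → p ∈ Z → Z = Set.univ := by
  let I : HomogeneousIdeal (MvPolynomial.homogeneousSubmodule (Fin 2) k) := ⊥
  have hI : I.toIdeal = ⊥ := HomogeneousIdeal.toIdeal_bot
  refine ⟨⟨I, ?_, ?_⟩, ?_⟩
  · rw [hI]
    exact Ideal.isPrime_bot
  · intro h
    have h1 : (MvPolynomial.X 0 : MvPolynomial (Fin 2) k) ∈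
        (HomogeneousIdeal.irrelevant (MvPolynomial.homogeneousSubmodule (Fin 2) k)) :=
      HomogeneousIdeal.mem_irrelevant_of_mem _ (i := 1) one_pos
        (MvPolynomial.isHomogeneous_X k 0)
    have h2 := h h1
    have h3 : (MvPolynomial.X 0 : MvPolynomial (Fin 2) k) ∈ I.toIdeal := h2
    rw [hI, Ideal.mem_bot] at h3
    exact MvPolynomial.X_ne_zero 0 h3
  · intro Z hZ hp
    obtain ⟨s, rfl⟩ := (ProjectiveSpectrum.isClosed_iff_zeroLocus _ _).1 hZ
    rw [Set.eq_univ_iff_forall]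
    intro q
    rw [ProjectiveSpectrum.mem_zeroLocus] at hp ⊢
    intro f hf
    have h1 : f ∈ I.toIdeal := hp hf
    rw [hI, Ideal.mem_bot] at h1
    rw [h1]
    exact Submodule.zero_mem _

theorem not_homeo (h2 : (2 : k) ≠ 0) : ¬ Nonempty (Spc k (H k) ≃ₜ P1 k) := by
  rintro ⟨φ⟩
  obtain ⟨p, hp⟩ := P1_generic k
  have h := supp_union k h2
  have hq : φ.symm p ∈ {P : Spc k (H k) | ¬ P.1 (EX k)} ∪ {P : Spc k (H k) | ¬ P.1 (EY k)} := by
    rw [h]; trivial
  have key : ∀ Z : Set (Spc k (H k)), IsClosed Z → φ.symm p ∈ Z → Z = Set.univ := by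
    intro Z hZ hpZ
    have h1 := hp (φ.symm ⁻¹' Z) (hZ.preimage φ.symm.continuous) hpZ
    rw [Set.eq_univ_iff_forall] at h1 ⊢
    intro q
    have := h1 (φ q)
    simpa using this
  obtain hq | hq := hq
  · have h1 := key _ (isClosed_supp k (EX k)) hq
    have h3 : (⟨(DX k).P, (DX k).prime h2⟩ : Spc k (H k)) ∈ {P : Spc k (H k) | ¬ P.1 (EX k)} := by
      rw [h1]; trivial
    exact h3 (EX_mem k)
  · have h1 := key _ (isClosed_supp k (EY k)) hq
    have h3 : (⟨(DY k).P, (DY k).prime h2⟩ : Spc k (H k)) ∈ {P : Spc k (H k) | ¬ P.1 (EY k)} := by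
      rw [h1]; trivial
    exact h3 (EY_mem k)

end Pool.Agent.J4H84.TH
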