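import Pool.Agent.J4H84.TH.Lin
import Pool.Agent.J4H84.TH.Jobs

/-!
# Chains along a word
-/

namespace Pool.Agent.J4H84.TH

universe u

variable {k V : Type u} [Field k] [AddCommGroup V] [Module k V] (M : GMod k V)

theorem GMod.mem_G {i : ZMod 4} {v : V} : v ∈ M.G i ↔ M.π i v = v := by
  constructor
  · rintro ⟨w, rfl⟩
    exact M.idem i w
  · intro h
    exact ⟨v, h⟩

theorem GMod.a_mem {i : ZMod 4} {v : V} (h : v ∈ M.G i) : M.a v ∈ M.G (i + 1) := by
  rw [M.mem_G] at h ⊢
  rw [← M.aπ, h]

theorem GMod.b_mem {i : ZMod 4} {v : V} (h : v ∈ M.G (i + 1)) : M.b v ∈ M.G i := by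
  rw [M.mem_G] at h ⊢
  rw [← M.bπ, h]

/-- The relation of a word. -/
def GMod.Rel : List Bool → ZMod 4 → Submodule k (V × V)
  | [], i => (M.G i).map (LinearMap.prod LinearMap.id LinearMap.id)
  | true :: C, i => (GMod.Rel C (i + 1)).comap (M.a.prodMap LinearMap.id) ⊓
      (M.G i).comap (LinearMap.fst k V V)
  | false :: C, i => (GMod.Rel C (i + 1)).map (M.b.prodMap LinearMap.id)

theorem GMod.mem_nil {i : ZMod 4} {u v : V} : (u, v) ∈ M.Rel [] i ↔ u = v ∧ u ∈ M.G i := by
  constructor
  · rintro ⟨w, hw, h⟩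
    obtain ⟨h1, h2⟩ := Prod.mk.inj h
    change w = u at h1
    change w = v at h2
    subst h1
    exact ⟨h2, hw⟩
  · rintro ⟨rfl, h⟩; exact ⟨u, h, rfl⟩

theorem GMod.mem_true {C : List Bool} {i : ZMod 4} {u v : V} :
    (u, v) ∈ M.Rel (true :: C) i ↔ (M.a u, v) ∈ M.Rel C (i + 1) ∧ u ∈ M.G i := Iff.rfl

theorem GMod.mem_false {C : List Bool} {i : ZMod 4} {u v : V} :
    (u, v) ∈ M.Rel (false :: C) i ↔ ∃ u', M.b u' = u ∧ (u', v) ∈ M.Rel C (i + 1) := by
  simp only [GMod.Rel, Submodule.mem_map, Prod.exists, LinearMap.prodMap_apply,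
    LinearMap.id_apply, Prod.mk.injEq]
  constructor
  · rintro ⟨p, q, h, rfl, rfl⟩; exact ⟨p, rfl, h⟩
  · rintro ⟨p, rfl, h⟩; exact ⟨p, v, h, rfl, rfl⟩

theorem GMod.rel_left (C : List Bool) : ∀ (i : ZMod 4) (u v : V), (u, v) ∈ M.Rel C i →
    u ∈ M.G i := by
  induction C with
  | nil => intro i u v h; exact (M.mem_nil.1 h).2
  | cons c C ih =>
    intro i u v h
    cases c
    · obtain ⟨u', rfl, h'⟩ := M.mem_false.1 h
      exact M.b_mem (ih _ _ _ h')
    · exact (M.mem_true.1 h).2

theorem GMod.rel_right (C : List Bool) : ∀ (i : ZMod 4) (u v : V), (u, v) ∈ M.Rel C i →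
    v ∈ M.G (i + C.length) := by
  induction C with
  | nil =>
    intro i u v h
    obtain ⟨rfl, h'⟩ := M.mem_nil.1 h
    simpa using h'
  | cons c C ih =>
    intro i u v h
    have e : i + ((c :: C).length : ZMod 4) = i + 1 + C.length := by
      rw [List.length_cons]; push_cast; ring
    rw [e]
    cases c
    · obtain ⟨u', rfl, h'⟩ := M.mem_false.1 h
      exact ih _ _ _ h'
    · exact ih _ _ _ (M.mem_true.1 h).1

theorem GMod.mem_R (C : List Bool) : ∀ (i : ZMod 4) (W : Submodule k V),
    W ≤ M.G (i + C.length) → ∀ u, u ∈ M.R C i W ↔ ∃ v ∈ W, (u, v) ∈ M.Rel C i := by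
  induction C with
  | nil =>
    intro i W hW u
    simp only [List.length_nil, Nat.cast_zero, add_zero] at hW
    constructor
    · intro h
      exact ⟨u, h, M.mem_nil.2 ⟨rfl, hW h⟩⟩
    · rintro ⟨v, hv, h⟩
      obtain ⟨rfl, -⟩ := M.mem_nil.1 h
      exact hv
  | cons c C ih =>
    intro i W hW u
    have e : i + ((c :: C).length : ZMod 4) = i + 1 + C.length := by
      rw [List.length_cons]; push_cast; ring
    rw [e] at hW
    cases c
    · constructor
      · rintro ⟨u', hu', rfl⟩
        obtain ⟨v, hv, h⟩ := (ih _ _ hW u').1 hu'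
        exact ⟨v, hv, M.mem_false.2 ⟨u', rfl, h⟩⟩
      · rintro ⟨v, hv, h⟩
        obtain ⟨u', rfl, h'⟩ := M.mem_false.1 h
        exact ⟨u', (ih _ _ hW u').2 ⟨v, hv, h'⟩, rfl⟩
    · constructor
      · rintro ⟨hu, hu'⟩
        obtain ⟨v, hv, h⟩ := (ih _ _ hW _).1 hu
        exact ⟨v, hv, M.mem_true.2 ⟨h, hu'⟩⟩
      · rintro ⟨v, hv, h⟩
        obtain ⟨h, h'⟩ := M.mem_true.1 h
        exact ⟨(ih _ _ hW _).2 ⟨v, hv, h⟩, h'⟩

/-- A linear family of chains along a word, from the family of the ends. -/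
theorem GMod.chain_F {Q : Type u} [AddCommGroup Q] [Module k Q] (C : List Bool) :
    ∀ (i : ZMod 4) (α β : Q →ₗ[k] V), (∀ q, (α q, β q) ∈ M.Rel C i) →
    ∃ F : ℕ → Q →ₗ[k] V, F 0 = α ∧ F C.length = β ∧
      (∀ m (hm : m < C.length), (C[m] = true → ∀ q, M.a (F m q) = F (m + 1) q) ∧
        (C[m] = false → ∀ q, F m q = M.b (F (m + 1) q))) ∧
      ∀ m, m ≤ C.length → ∀ q, F m q ∈ M.G (i + m) := by
  induction C with
  | nil =>
    intro i α β h
    refine ⟨fun _ => α, rfl, ?_, ?_, ?_⟩
    · refine LinearMap.ext fun q => ?_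
      exact (M.mem_nil.1 (h q)).1
    · intro m hm
      exact absurd hm (Nat.not_lt_zero _)
    · intro m hm q
      have : m = 0 := by simpa using hm
      subst this
      simpa using (M.mem_nil.1 (h q)).2
  | cons c C ih =>
    intro i α β h
    obtain ⟨γ, hγ, h1, h2⟩ : ∃ γ : Q →ₗ[k] V, (∀ q, (γ q, β q) ∈ M.Rel C (i + 1)) ∧
        (c = true → ∀ q, M.a (α q) = γ q) ∧ (c = false → ∀ q, α q = M.b (γ q)) := by
      cases c
      · let T : Submodule k (Q × V) :=
          { carrier := {p | M.b p.2 = α p.1 ∧ (p.2, β p.1) ∈ M.Rel C (i + 1)}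
            add_mem' := by
              rintro p q ⟨h1, h2⟩ ⟨h3, h4⟩
              refine ⟨?_, ?_⟩
              · rw [Prod.snd_add, Prod.fst_add, map_add, map_add, h1, h3]
              · have := Submodule.add_mem _ h2 h4
                simpa using this
            zero_mem' := by
              refine ⟨by simp, ?_⟩
              change ((0 : V), β (0 : Q)) ∈ M.Rel C (i + 1)
              rw [map_zero]
              exact Submodule.zero_mem _
            smul_mem' := by
              rintro c p ⟨h1, h2⟩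
              refine ⟨?_, ?_⟩
              · rw [Prod.smul_snd, Prod.smul_fst, map_smul, map_smul, h1]
              · have := Submodule.smul_mem _ c h2
                simpa using this }
        obtain ⟨γ, hγ⟩ := lin_choice T (fun q => by
          obtain ⟨u', h1, h2⟩ := M.mem_false.1 (h q)
          exact ⟨u', h1, h2⟩)
        exact ⟨γ, fun q => (hγ q).2, fun h => absurd h (by simp), fun _ q => (hγ q).1.symm⟩
      · exact ⟨M.a.comp α, fun q => (M.mem_true.1 (h q)).1, fun _ q => rfl,
          fun h => absurd h (by simp)⟩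
    obtain ⟨F, hF0, hFn, hF, hG⟩ := ih (i + 1) γ β hγ
    refine ⟨fun m => if m = 0 then α else F (m - 1), by simp, by simpa using hFn, ?_, ?_⟩
    · intro m hm
      rcases m with _ | m
      · simpa [hF0] using ⟨h1, h2⟩
      · have := hF m (by simpa using hm)
        simpa using this
    · intro m hm q
      rcases m with _ | m
      · simpa using M.rel_left _ _ _ _ (h q)
      · have := hG m (by simpa using hm) q
        have e : i + ((m + 1 : ℕ) : ZMod 4) = i + 1 + m := by push_cast; ring
        rw [e]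
        simpa using this

/-- A linear family of cochains along a word, from the family of the ends. -/
theorem GMod.chain_G {Q : Type u} [AddCommGroup Q] [Module k Q] (C : List Bool) :
    ∀ (i : ZMod 4) (α β : V →ₗ[k] Q), (∀ u v, (u, v) ∈ M.Rel C i → α u = β v) →
    (∀ v, α (M.π i v) = α v) → (∀ v, β (M.π (i + C.length) v) = β v) →
    ∃ G : ℕ → V →ₗ[k] Q, G 0 = α ∧ G C.length = β ∧
      (∀ m (hm : m < C.length), (C[m] = true → ∀ v, G (m + 1) (M.a v) = G m v) ∧
        (C[m] = false → ∀ v, G m (M.b v) = G (m + 1) v)) ∧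
      ∀ m, m ≤ C.length → ∀ v, G m (M.π (i + m) v) = G m v := by
  induction C with
  | nil =>
    intro i α β h hα hβ
    refine ⟨fun _ => α, rfl, ?_, ?_, ?_⟩
    · refine LinearMap.ext fun v => ?_
      have h1 := h (M.π i v) (M.π i v) (M.mem_nil.2 ⟨rfl, M.mem_G.2 (M.idem i v)⟩)
      have h2 := hβ v
      rw [List.length_nil, Nat.cast_zero, add_zero] at h2
      change α v = β v
      rw [← hα v, h1, h2]
    · intro m hm
      exact absurd hm (Nat.not_lt_zero _)
    · intro m hm v
      have : m = 0 := by simpa using hm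
      subst this
      simpa using hα v
  | cons c C ih =>
    intro i α β h hα hβ
    have e : i + ((c :: C).length : ZMod 4) = i + 1 + C.length := by
      rw [List.length_cons]; push_cast; ring
    rw [e] at hβ
    obtain ⟨γ, hγ, hγπ, h1, h2⟩ : ∃ γ : V →ₗ[k] Q, (∀ u v, (u, v) ∈ M.Rel C (i + 1) →
        γ u = β v) ∧ (∀ v, γ (M.π (i + 1) v) = γ v) ∧
        (c = true → ∀ v, γ (M.a v) = α v) ∧ (c = false → ∀ v, α (M.b v) = γ v) := by
      cases c
      · refine ⟨α.comp M.b, fun u v huv => h _ _ (M.mem_false.2 ⟨u, rfl, huv⟩), fun v => ?_,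
          fun h => absurd h (by simp), fun _ v => rfl⟩
        change α (M.b (M.π (i + 1) v)) = α (M.b v)
        rw [M.bπ, hα]
      · let T : Submodule k (V × Q) :=
          LinearMap.range (M.a.prod α) ⊔ (M.Rel C (i + 1)).map (LinearMap.id.prodMap β)
        obtain ⟨γ, hγ⟩ := lin_ext T (by
          intro q hq
          obtain ⟨p1, ⟨u, hu⟩, p2, ⟨⟨u', v⟩, huv, hp2⟩, hq⟩ := Submodule.mem_sup.1 hq
          subst hu hp2
          have q1 : M.a u + u' = 0 := congrArg Prod.fst hq
          have q2 : α u + β v = q := congrArg Prod.snd hq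
          have q3 : M.a (M.π i u) = -u' := by
            rw [M.aπ, eq_neg_of_add_eq_zero_left q1, map_neg, M.mem_G.1 (M.rel_left _ _ _ _ huv)]
          have q4 : (M.π i u, -v) ∈ M.Rel (true :: C) i := by
            refine M.mem_true.2 ⟨?_, M.mem_G.2 (M.idem i u)⟩
            rw [q3]
            exact Submodule.neg_mem _ huv
          have q5 := h _ _ q4
          rw [hα, map_neg] at q5
          rw [← q2, q5, neg_add_cancel])
        refine ⟨γ.comp (M.π (i + 1)), fun u v huv => ?_, fun v => ?_, fun _ v => ?_,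
          fun h => absurd h (by simp)⟩
        · change γ (M.π (i + 1) u) = β v
          rw [M.mem_G.1 (M.rel_left _ _ _ _ huv)]
          exact hγ _ _ (Submodule.mem_sup_right ⟨(u, v), huv, rfl⟩)
        · change γ (M.π (i + 1) (M.π (i + 1) v)) = γ (M.π (i + 1) v)
          rw [M.idem]
        · change γ (M.π (i + 1) (M.a v)) = α v
          rw [← M.aπ, ← hα v]
          exact hγ _ _ (Submodule.mem_sup_left ⟨M.π i v, rfl⟩)
    obtain ⟨G, hG0, hGn, hG, hGπ⟩ := ih (i + 1) γ β hγ hγπ hβ
    refine ⟨fun m => if m = 0 then α else G (m - 1), by simp, by simpa using hGn, ?_, ?_⟩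
    · intro m hm
      rcases m with _ | m
      · simpa [hG0] using ⟨h1, h2⟩
      · have := hG m (by simpa using hm)
        simpa using this
    · intro m hm v
      rcases m with _ | m
      · simpa using hα v
      · have := hGπ m (by simpa using hm) v
        have e : i + ((m + 1 : ℕ) : ZMod 4) = i + 1 + m := by push_cast; ring
        rw [e]
        simpa using this

end Pool.Agent.J4H84.TH
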